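import Pool.Agent.H800R3.LTS

/-!
# Augmentation: a non-nilpotent element of the local part makes the generalised kernel smaller
-/

set_option autoImplicit false

namespace Pool.Agent.H800R3.LTS

open Matrix Finset

variable {K n : Type*} [Field K] [Fintype n] [DecidableEq n]

theorem finrank_nilSpace (z : Matrix n n K) :
    Module.finrank K (nilSpace z) = z.charpoly.natTrailingDegree := by
  have heq : nilSpace z = Module.End.maxGenEigenspace z.mulVecLin 0 := by
    ext v
    rw [Module.End.mem_maxGenEigenspace]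
    constructor
    · intro h
      refine ⟨Fintype.card n, ?_⟩
      rw [zero_smul, sub_zero, ← mulVecLin_pow]
      exact h
    · rintro ⟨k, hk⟩
      rw [zero_smul, sub_zero, ← mulVecLin_pow] at hk
      exact ker_pow_stable z hk
  rw [← Matrix.charpoly_mulVecLin, ← LinearMap.finrank_maxGenEigenspace_zero_eq, heq]

/-- Coefficients of the characteristic polynomial of a pencil. -/
theorem charpoly_pencil (x y : Matrix n n K) (k : ℕ) :
    ∃ g : Polynomial K, g.natDegree ≤ Fintype.card n ∧
      ∀ c : K, g.eval c = (x + c • y).charpoly.coeff k := by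
  classical
  let z : Matrix n n (Polynomial K) := Matrix.scalar n Polynomial.X - x.map Polynomial.C
  let a : Matrix n n (Polynomial K) := (-y).map Polynomial.C
  let G : Polynomial (Polynomial K) :=
    ((Polynomial.X : Polynomial (Polynomial K)) • a.map Polynomial.C + z.map Polynomial.C).det
  have hG : G.natDegree ≤ Fintype.card n := Polynomial.natDegree_det_X_add_C_le a z
  refine ⟨∑ j ∈ Finset.range (Fintype.card n + 1),
    Polynomial.C ((G.coeff j).coeff k) * Polynomial.X ^ j, ?_, fun c => ?_⟩
  · refine (Polynomial.natDegree_sum_le_of_forall_le _ _ fun j hj => ?_)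
    refine (Polynomial.natDegree_C_mul_X_pow_le _ _).trans ?_
    exact Nat.lt_succ_iff.1 (Finset.mem_range.1 hj)
  · have h1 : (x + c • y).charpoly = G.eval (Polynomial.C c) := by
      have : (x + c • y).charmatrix =
          ((Polynomial.X : Polynomial (Polynomial K)) • a.map Polynomial.C +
            z.map Polynomial.C).map (Polynomial.evalRingHom (Polynomial.C c : Polynomial K)) := by
        refine Matrix.ext fun i j => ?_
        rw [Matrix.charmatrix_apply]
        show _ = Polynomial.eval (Polynomial.C c) (Polynomial.X * Polynomial.C (Polynomial.C (-(y i j))) +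
          Polynomial.C ((Matrix.scalar n Polynomial.X) i j - Polynomial.C (x i j)))
        rw [Polynomial.eval_add, Polynomial.eval_C, Polynomial.eval_mul, Polynomial.eval_X,
          Polynomial.eval_C, Matrix.scalar_apply]
        show _ - Polynomial.C (x i j + c * y i j) = _
        rw [Polynomial.C_add, Polynomial.C_mul, Polynomial.C_neg]
        ring
      unfold Matrix.charpoly
      rw [this, ← RingHom.mapMatrix_apply, ← RingHom.map_det]
      rfl
    rw [h1, Polynomial.eval_eq_sum_range' (p := G) (n := Fintype.card n + 1) (by omega),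
      Polynomial.eval_finsetSum, Polynomial.finsetSum_coeff]
    refine Finset.sum_congr rfl fun j _ => ?_
    rw [Polynomial.eval_mul, Polynomial.eval_C, Polynomial.eval_pow, Polynomial.eval_X,
      ← Polynomial.C_pow, Polynomial.coeff_mul_C]

/-- If the generalised kernel of `x + c y` is smaller for one `c`, it is smaller for one of the
values `c = 0, …, card n`. -/
theorem small_point [CharZero K] (x y : Matrix n n K) (r : ℕ) (c : K)
    (h : Module.finrank K (nilSpace (x + c • y)) < r) :
    ∃ m : ℕ, m ≤ Fintype.card n ∧ Module.finrank K (nilSpace (x + (m : K) • y)) < r := by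
  classical
  set k := Module.finrank K (nilSpace (x + c • y)) with hk
  obtain ⟨g, hg, hge⟩ := charpoly_pencil x y k
  have h1 : g.eval c ≠ 0 := by
    rw [hge, hk, finrank_nilSpace]
    exact Polynomial.coeff_natTrailingDegree_ne_zero.2 (Matrix.charpoly_monic _).ne_zero
  by_contra hcon
  push Not at hcon
  have : g = 0 := by
    refine Polynomial.eq_zero_of_natDegree_lt_card_of_eval_eq_zero g
      (f := fun i : Fin (Fintype.card n + 1) => ((i : ℕ) : K)) ?_ ?_ ?_
    · intro i j hij
      exact Fin.ext (Nat.cast_injective hij)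
    · intro i
      by_contra hne
      have h2 : Module.finrank K (nilSpace (x + ((i : ℕ) : K) • y)) ≤ k := by
        rw [finrank_nilSpace]
        refine Polynomial.natTrailingDegree_le_of_ne_zero ?_
        rw [← hge]
        exact hne
      have h3 := hcon i (Nat.lt_succ_iff.1 i.2)
      omega
    · rw [Fintype.card_fin]
      omega
  rw [this, Polynomial.eval_zero] at h1
  exact h1 rfl

/-- The image of a high power. -/
def core (x : Matrix n n K) : Submodule K (n → K) :=
  LinearMap.range ((x ^ Fintype.card n).mulVecLin)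

theorem range_pow_stable (x : Matrix n n K) (M : ℕ) :
    LinearMap.range ((x ^ (M + Fintype.card n)).mulVecLin) = core x := by
  have hle : LinearMap.range ((x ^ (M + Fintype.card n)).mulVecLin) ≤ core x := by
    rintro _ ⟨u, rfl⟩
    refine ⟨(x ^ M) *ᵥ u, ?_⟩
    show (x ^ Fintype.card n) *ᵥ ((x ^ M) *ᵥ u) = (x ^ (M + Fintype.card n)) *ᵥ u
    rw [Matrix.mulVec_mulVec, ← pow_add, add_comm]
  refine Submodule.eq_of_le_of_finrank_eq hle ?_
  have hk : LinearMap.ker ((x ^ (M + Fintype.card n)).mulVecLin) = nilSpace x := by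
    ext v
    constructor
    · intro h
      exact ker_pow_stable x h
    · intro h
      show (x ^ (M + Fintype.card n)) *ᵥ v = 0
      rw [pow_add, ← Matrix.mulVec_mulVec, (mem_nilSpace x v).1 h, Matrix.mulVec_zero]
  have h1 := LinearMap.finrank_range_add_finrank_ker ((x ^ (M + Fintype.card n)).mulVecLin)
  have h2 := LinearMap.finrank_range_add_finrank_ker ((x ^ Fintype.card n).mulVecLin)
  rw [hk] at h1
  have h3 : Module.finrank K (LinearMap.ker ((x ^ Fintype.card n).mulVecLin)) =
      Module.finrank K (nilSpace x) := rfl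
  have h4 : Module.finrank K (core x) =
      Module.finrank K (LinearMap.range ((x ^ Fintype.card n).mulVecLin)) := rfl
  omega

theorem mapsTo_core {x y : Matrix n n K} {M : ℕ} (hy : (adL x ^ M) y = 0) {v : n → K}
    (hv : v ∈ core x) : y *ᵥ v ∈ core x := by
  rw [← range_pow_stable x M] at hv
  obtain ⟨u, rfl⟩ := hv
  show y *ᵥ ((x ^ (M + Fintype.card n)) *ᵥ u) ∈ core x
  rw [Matrix.mulVec_mulVec, mul_pow', Matrix.sum_mulVec]
  refine (core x).sum_mem fun m _ => ?_
  by_cases h : M ≤ m
  · have : (adL x ^ m) y = 0 := by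
      rw [← Nat.sub_add_cancel h, pow_add, Module.End.mul_apply, hy, map_zero]
    rw [this, Matrix.mul_zero, smul_zero, Matrix.zero_mulVec]
    exact (core x).zero_mem
  · rw [Matrix.smul_mulVec]
    refine (core x).smul_mem _ ?_
    have h1 : M + Fintype.card n - m = Fintype.card n + (M - m) := by omega
    rw [h1, pow_add, Matrix.mul_assoc, ← Matrix.mulVec_mulVec]
    exact ⟨_, rfl⟩

theorem disjoint_core (x : Matrix n n K) {v : n → K} (h0 : v ∈ nilSpace x) (h1 : v ∈ core x) :
    v = 0 := by
  obtain ⟨u, rfl⟩ := h1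
  have h2 : (x ^ Fintype.card n) *ᵥ ((x ^ Fintype.card n) *ᵥ u) = 0 := h0
  rw [Matrix.mulVec_mulVec, ← pow_add] at h2
  exact ker_pow_stable x h2

theorem exists_add (x : Matrix n n K) (v : n → K) :
    ∃ v0 ∈ nilSpace x, ∃ v1 ∈ core x, v = v0 + v1 := by
  have h : (x ^ Fintype.card n) *ᵥ v ∈ LinearMap.range ((x ^ (Fintype.card n + Fintype.card n)).mulVecLin) := by
    rw [range_pow_stable x (Fintype.card n)]
    exact ⟨v, rfl⟩
  obtain ⟨u, hu⟩ := h
  have hu' : (x ^ Fintype.card n) *ᵥ ((x ^ Fintype.card n) *ᵥ u) = (x ^ Fintype.card n) *ᵥ v := by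
    rw [Matrix.mulVec_mulVec, ← pow_add]; exact hu
  refine ⟨v - (x ^ Fintype.card n) *ᵥ u, ?_, (x ^ Fintype.card n) *ᵥ u, ⟨u, rfl⟩, by abel⟩
  rw [mem_nilSpace, Matrix.mulVec_sub, hu', sub_self]

theorem finite_bad {V : Type*} [AddCommGroup V] [Module K V] [FiniteDimensional K V]
    (f h : Module.End K V) (hf : Function.Injective f) :
    {c : K | ∃ w : V, w ≠ 0 ∧ f w + c • h w = 0}.Finite := by
  let e : V ≃ₗ[K] V := LinearEquiv.ofInjectiveEndo f hf
  let N : Module.End K V := e.symm.toLinearMap ∘ₗ h
  refine Set.Finite.subset ((Module.End.finite_hasEigenvalue N).image fun μ => -μ⁻¹) ?_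
  rintro c ⟨w, hw0, hw⟩
  have hc0 : c ≠ 0 := by
    rintro rfl
    apply hw0
    apply hf
    rw [map_zero]
    simpa using hw
  refine ⟨-c⁻¹, ?_, by simp⟩
  refine Module.End.hasEigenvalue_of_hasEigenvector (x := w) ⟨?_, hw0⟩
  rw [Module.End.mem_eigenspace_iff]
  have h1 : e w = -(c • h w) := by
    have : f w = -(c • h w) := eq_neg_of_add_eq_zero_left hw
    exact this
  have h2 : w = -(c • N w) := by
    have := congrArg e.symm h1
    rw [LinearEquiv.symm_apply_apply, map_neg, map_smul] at this
    exact this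
  have h3 : c • N w = -w := by rw [eq_neg_iff_add_eq_zero]; nth_rewrite 2 [h2]; abel
  calc N w = c⁻¹ • (c • N w) := by rw [smul_smul, inv_mul_cancel₀ hc0, one_smul]
    _ = (-c⁻¹) • w := by rw [h3, smul_neg]; exact (neg_smul _ _).symm

theorem exists_poly_pow (x y : Matrix n n K) (N : ℕ) (v : n → K) (i : n) :
    ∃ P : Polynomial K, ∀ t : K, P.eval t = (((y + t • x) ^ N) *ᵥ v) i := by
  let Z : Matrix n n (Polynomial K) := y.map Polynomial.C + (Polynomial.X : Polynomial K) • x.map Polynomial.C
  refine ⟨((Z ^ N) *ᵥ (fun j => Polynomial.C (v j))) i, fun t => ?_⟩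
  have hZ : (Polynomial.evalRingHom t).mapMatrix Z = y + t • x := by
    refine Matrix.ext fun a b => ?_
    show Polynomial.eval t (Polynomial.C (y a b) + Polynomial.X * Polynomial.C (x a b)) =
      y a b + t * x a b
    rw [Polynomial.eval_add, Polynomial.eval_C, Polynomial.eval_mul, Polynomial.eval_X,
      Polynomial.eval_C]
  have h1 := RingHom.map_mulVec (Polynomial.evalRingHom t) (Z ^ N) (fun j => Polynomial.C (v j)) i
  have h2 : (Z ^ N).map (Polynomial.evalRingHom t) = (y + t • x) ^ N := by
    rw [← hZ, ← map_pow]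
    rfl
  have h3 : (Polynomial.evalRingHom t) ∘ (fun j => Polynomial.C (v j)) = v := by
    funext j
    simp
  rw [h2, h3] at h1
  exact h1

/-- **Augmentation**: if `y` is in the local part and does not act nilpotently on the generalised
kernel of `x`, the generalised kernel of `x + c y` is smaller for some `c`. -/
theorem augment_exists [Infinite K] {x y : Matrix n n K} {M : ℕ} (hy : (adL x ^ M) y = 0)
    {v : n → K} (hv : v ∈ nilSpace x) (hv0 : (y ^ Fintype.card n) *ᵥ v ≠ 0) :
    ∃ c : K, nilSpace (x + c • y) < nilSpace x := by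
  have hxx : (adL x ^ 1) x = 0 := by rw [pow_one, adL_apply, sub_self]
  let f : Module.End K (core x) := (Matrix.mulVecLin x).restrict fun w hw => mapsTo_core hxx hw
  let h : Module.End K (core x) := (Matrix.mulVecLin y).restrict fun w hw => mapsTo_core hy hw
  have hf : Function.Injective f := by
    rw [← LinearMap.ker_eq_bot, LinearMap.ker_eq_bot']
    intro w hw
    have h1 : x *ᵥ (w : n → K) = 0 := congrArg Subtype.val hw
    have h2 : (w : n → K) ∈ nilSpace x := ker_pow_stable x (k := 1) (by rw [pow_one]; exact h1)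
    exact Subtype.ext (disjoint_core x h2 w.2)
  obtain ⟨i, hi⟩ : ∃ i, ((y ^ Fintype.card n) *ᵥ v) i ≠ 0 := by
    by_contra hcon
    push Not at hcon
    exact hv0 (funext hcon)
  obtain ⟨P, hP⟩ := exists_poly_pow x y (Fintype.card n) v i
  have hP0 : P ≠ 0 := by
    rintro rfl
    have := hP 0
    rw [Polynomial.eval_zero, zero_smul, add_zero] at this
    exact hi this.symm
  have hfin : ({c : K | ∃ w : core x, w ≠ 0 ∧ f w + c • h w = 0} ∪
      ((fun t => t⁻¹) '' {t : K | P.IsRoot t}) ∪ {0}).Finite := by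
    refine ((finite_bad f h hf).union ?_).union (Set.finite_singleton _)
    exact (Polynomial.finite_setOf_isRoot hP0).image _
  obtain ⟨c, hc⟩ := hfin.infinite_compl.nonempty
  simp only [Set.mem_compl_iff, Set.mem_union, not_or] at hc
  obtain ⟨⟨hc1, hc2⟩, hc3⟩ := hc
  have hc3 : c ≠ 0 := fun h => hc3 (by rw [h]; rfl)
  refine ⟨c, ?_⟩
  set z := x + c • y with hz
  have hzv : ∀ w : n → K, z *ᵥ w = x *ᵥ w + c • (y *ᵥ w) := by
    intro w
    rw [hz, Matrix.add_mulVec, Matrix.smul_mulVec]
  have hz0 : ∀ w ∈ nilSpace x, z *ᵥ w ∈ nilSpace x := by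
    intro w hw
    rw [hzv]
    exact (nilSpace x).add_mem (mapsTo_nilSpace hxx hw)
      ((nilSpace x).smul_mem _ (mapsTo_nilSpace hy hw))
  have hz1 : ∀ w ∈ core x, z *ᵥ w ∈ core x := by
    intro w hw
    rw [hzv]
    exact (core x).add_mem (mapsTo_core hxx hw) ((core x).smul_mem _ (mapsTo_core hy hw))
  have hz1' : ∀ w ∈ core x, z *ᵥ w = 0 → w = 0 := by
    intro w hw hw0
    by_contra hne
    apply hc1
    refine ⟨⟨w, hw⟩, fun h => hne (congrArg Subtype.val h), ?_⟩
    apply Subtype.ext
    rw [hzv] at hw0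
    exact hw0
  have hp0 : ∀ k : ℕ, ∀ w ∈ nilSpace x, (z ^ k) *ᵥ w ∈ nilSpace x := by
    intro k
    induction k with
    | zero => intro w hw; rwa [pow_zero, Matrix.one_mulVec]
    | succ k ih =>
      intro w hw
      rw [pow_succ, ← Matrix.mulVec_mulVec]
      exact ih _ (hz0 w hw)
  have hp1 : ∀ k : ℕ, ∀ w ∈ core x, (z ^ k) *ᵥ w ∈ core x ∧ ((z ^ k) *ᵥ w = 0 → w = 0) := by
    intro k
    induction k with
    | zero =>
      intro w hw
      rw [pow_zero, Matrix.one_mulVec]
      exact ⟨hw, id⟩
    | succ k ih =>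
      intro w hw
      rw [pow_succ, ← Matrix.mulVec_mulVec]
      obtain ⟨h1, h2⟩ := ih _ (hz1 w hw)
      exact ⟨h1, fun h => hz1' w hw (h2 h)⟩
  rw [lt_iff_le_and_ne]
  constructor
  · intro u hu
    obtain ⟨u0, hu0, u1, hu1, rfl⟩ := exists_add x u
    have h1 := (mem_nilSpace z _).1 hu
    rw [Matrix.mulVec_add] at h1
    have h2 : (z ^ Fintype.card n) *ᵥ u1 ∈ nilSpace x := by
      have : (z ^ Fintype.card n) *ᵥ u1 = -((z ^ Fintype.card n) *ᵥ u0) :=
        eq_neg_of_add_eq_zero_right h1
      rw [this]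
      exact (nilSpace x).neg_mem (hp0 _ u0 hu0)
    have h3 := (hp1 (Fintype.card n) u1 hu1).2 (disjoint_core x h2 (hp1 _ u1 hu1).1)
    rw [h3, add_zero]
    exact hu0
  · intro heq
    rw [← heq, mem_nilSpace] at hv
    have h1 : z = c • (y + c⁻¹ • x) := by
      rw [smul_add, smul_smul, mul_inv_cancel₀ hc3, one_smul, hz, add_comm]
    rw [h1, smul_pow, Matrix.smul_mulVec] at hv
    have h2 := congrFun hv i
    rw [Pi.smul_apply, ← hP, Pi.zero_apply, smul_eq_mul] at h2
    rcases mul_eq_zero.1 h2 with h3 | h3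
    · exact hc3 (eq_zero_of_pow_eq_zero h3)
    · exact hc2 ⟨c⁻¹, h3, inv_inv c⟩

/-- Augmentation with a small integer parameter. -/
theorem augment [CharZero K] {x y : Matrix n n K} {M : ℕ} (hy : (adL x ^ M) y = 0)
    {v : n → K} (hv : v ∈ nilSpace x) (hv0 : (y ^ Fintype.card n) *ᵥ v ≠ 0) :
    ∃ m : ℕ, m ≤ Fintype.card n ∧
      Module.finrank K (nilSpace (x + (m : K) • y)) < Module.finrank K (nilSpace x) := by
  obtain ⟨c, hc⟩ := augment_exists hy hv hv0
  exact small_point x y _ c (Submodule.finrank_lt_finrank_of_lt hc)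

end Pool.Agent.H800R3.LTS
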