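import Mathlib

/-!
Point configurations up to order type: definitions and the encoding lemma
(words over a finite alphabet, Higman's lemma).
-/

namespace Pool.Agent.H800R3

abbrev Pt := ℝ × ℝ

/-- Twice the signed area of the triangle `a, b, x`. -/
def D (a b x : Pt) : ℝ := (b.1 - a.1) * (x.2 - a.2) - (b.2 - a.2) * (x.1 - a.1)

/-- The orientation of an ordered triple: `1` counterclockwise, `-1` clockwise, `0` collinear. -/
noncomputable def orient (a b c : Pt) : SignType := SignType.sign (D a b c)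

/-- Two finite point sets represent the same configuration. -/
def SameConf (P Q : Finset Pt) : Prop :=
  ∃ e : P ≃ Q, ∀ a b c : P, orient (e a) (e b) (e c) = orient a b c

/-- `T` is a subconfiguration of `S`. -/
def SubConf (T S : Finset Pt) : Prop := ∃ S' ⊆ S, SameConf T S'

/-- No three points collinear. -/
def GenPos (P : Finset Pt) : Prop :=
  ∀ a ∈ P, ∀ b ∈ P, ∀ c ∈ P, a ≠ b → b ≠ c → a ≠ c → orient a b c ≠ 0

/-- The largest size of a subconfiguration of `S` in general position. -/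
noncomputable def mg (S : Finset Pt) : ℕ := sSup {m | ∃ T, SubConf T S ∧ GenPos T ∧ T.card = m}

/-- The class `C_k`. -/
def Cls (k : ℕ) : Set (Finset Pt) := {S | mg S < k}

/-- Well-quasi-ordered classes of configurations. -/
def IsWqo (C : Set (Finset Pt)) : Prop :=
  ∀ S : ℕ → Finset Pt, (∀ n, S n ∈ C) → ∃ i j, i < j ∧ SubConf (S i) (S j)

theorem subConf_of_map {T S : Finset Pt} (f : Pt → Pt) (hf : ∀ x ∈ T, f x ∈ S)
    (hinj : Set.InjOn f T)
    (ho : ∀ a ∈ T, ∀ b ∈ T, ∀ c ∈ T, orient (f a) (f b) (f c) = orient a b c) :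
    SubConf T S := by
  classical
  refine ⟨T.image f, ?_, ?_⟩
  · intro y hy
    obtain ⟨x, hx, rfl⟩ := Finset.mem_image.1 hy
    exact hf x hx
  · refine ⟨Equiv.ofBijective (fun x : T => (⟨f x.1, Finset.mem_image_of_mem f x.2⟩ : T.image f))
      ⟨?_, ?_⟩, ?_⟩
    · intro x y hxy
      apply Subtype.ext
      exact hinj x.2 y.2 (congrArg Subtype.val hxy)
    · rintro ⟨y, hy⟩
      obtain ⟨x, hx, rfl⟩ := Finset.mem_image.1 hy
      exact ⟨⟨x, hx⟩, rfl⟩
    · intro a b c
      exact ho a.1 a.2 b.1 b.2 c.1 c.2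

theorem subConf_of_subset {T S : Finset Pt} (h : T ⊆ S) : SubConf T S :=
  subConf_of_map id (fun x hx => h hx) (fun _ _ _ _ h => h) (fun _ _ _ _ _ _ => rfl)

theorem no_six {S : Finset Pt} (h : S ∈ Cls 6) {T : Finset Pt} (hT : T ⊆ S) (hg : GenPos T) :
    T.card < 6 := by
  have hbdd : BddAbove {m | ∃ T, SubConf T S ∧ GenPos T ∧ T.card = m} := by
    refine ⟨S.card, ?_⟩
    rintro m ⟨T', ⟨S', hS', e, -⟩, -, rfl⟩
    have h1 : T'.card = S'.card := by
      simpa using Fintype.card_congr e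
    rw [h1]
    exact Finset.card_le_card hS'
  have h1 : T.card ≤ mg S := le_csSup hbdd ⟨T, subConf_of_subset hT, hg, rfl⟩
  exact lt_of_le_of_lt h1 h

/-- From a Higman embedding of sorted lists to a strictly monotone map. -/
theorem exists_mono {R : ℝ → ℝ → Prop} {L L' : List ℝ} (h : List.SublistForall₂ R L L')
    (hL : L.Pairwise (· < ·)) (hL' : L'.Pairwise (· < ·)) :
    ∃ f : ℝ → ℝ, (∀ r ∈ L, f r ∈ L' ∧ R r (f r)) ∧ ∀ r ∈ L, ∀ s ∈ L, r < s → f r < f s := by
  induction h with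
  | nil => exact ⟨id, by simp, by simp⟩
  | @cons a₁ a₂ l₁ l₂ hr _ ih =>
    rw [List.pairwise_cons] at hL hL'
    obtain ⟨f, hf1, hf2⟩ := ih hL.2 hL'.2
    refine ⟨Function.update f a₁ a₂, ?_, ?_⟩
    · intro r hr'
      rcases List.mem_cons.1 hr' with rfl | hr'
      · simp [hr]
      · have hne : r ≠ a₁ := (hL.1 r hr').ne'
        rw [Function.update_of_ne hne]
        exact ⟨List.mem_cons_of_mem _ (hf1 r hr').1, (hf1 r hr').2⟩
    · intro r hr' s hs' hrs
      rcases List.mem_cons.1 hr' with h1 | h1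
      · rcases List.mem_cons.1 hs' with h2 | h2
        · exact absurd hrs (by rw [h1, h2]; exact lt_irrefl _)
        · have hne : s ≠ a₁ := (hL.1 s h2).ne'
          rw [h1, Function.update_self, Function.update_of_ne hne]
          exact hL'.1 _ (hf1 s h2).1
      · rcases List.mem_cons.1 hs' with h2 | h2
        · have := hL.1 r h1
          rw [h2] at hrs
          exact absurd hrs (not_lt.2 this.le)
        · have hne : s ≠ a₁ := (hL.1 s h2).ne'
          have hne' : r ≠ a₁ := (hL.1 r h1).ne'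
          rw [Function.update_of_ne hne, Function.update_of_ne hne']
          exact hf2 r h1 s h2 hrs
  | @cons_right a l₁ l₂ _ ih =>
    rw [List.pairwise_cons] at hL'
    obtain ⟨f, hf1, hf2⟩ := ih hL hL'.2
    exact ⟨f, fun r hr => ⟨List.mem_cons_of_mem _ (hf1 r hr).1, (hf1 r hr).2⟩, hf2⟩

/-- `S` is coded by real positions and kinds in the finite type `T`. -/
def Coded (T : Type) (S : Finset Pt) : Prop :=
  ∃ (pos : Pt → ℝ) (code : Pt → T),
    (∀ x ∈ S, ∀ y ∈ S, pos x = pos y → code x = code y → x = y) ∧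
    (∀ x ∈ S, ∀ y ∈ S, ∀ z ∈ S, ∀ x' ∈ S, ∀ y' ∈ S, ∀ z' ∈ S,
      code x = code x' → code y = code y' → code z = code z' →
      SignType.sign (pos y - pos x) = SignType.sign (pos y' - pos x') →
      SignType.sign (pos z - pos y) = SignType.sign (pos z' - pos y') →
      SignType.sign (pos z - pos x) = SignType.sign (pos z' - pos x') →
      orient x y z = orient x' y' z')

theorem Coded.mono {T : Type} {S S' : Finset Pt} (h : Coded T S') (hS : S ⊆ S') : Coded T S := by
  obtain ⟨pos, code, h1, h2⟩ := h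
  exact ⟨pos, code, fun x hx y hy => h1 x (hS hx) y (hS hy),
    fun x hx y hy z hz x' hx' y' hy' z' hz' => h2 x (hS hx) y (hS hy) z (hS hz)
      x' (hS hx') y' (hS hy') z' (hS hz')⟩

theorem Coded.map {T T' : Type} {S : Finset Pt} (h : Coded T S) (g : T → T')
    (hg : Function.Injective g) : Coded T' S := by
  obtain ⟨pos, code, h1, h2⟩ := h
  refine ⟨pos, g ∘ code, fun x hx y hy hp hc => h1 x hx y hy hp (hg hc), ?_⟩
  intro x hx y hy z hz x' hx' y' hy' z' hz' c1 c2 c3
  exact h2 x hx y hy z hz x' hx' y' hy' z' hz' (hg c1) (hg c2) (hg c3)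

abbrev Omega (T : Type) := (T × T × T) × (SignType × SignType × SignType) → SignType

/-- explicit orientation function -/
theorem Coded.omega {T : Type} {S : Finset Pt} (h : Coded T S) :
    ∃ (pos : Pt → ℝ) (code : Pt → T) (Ω : Omega T),
    (∀ x ∈ S, ∀ y ∈ S, pos x = pos y → code x = code y → x = y) ∧
    (∀ x ∈ S, ∀ y ∈ S, ∀ z ∈ S, orient x y z = Ω ((code x, code y, code z),
      (SignType.sign (pos y - pos x), SignType.sign (pos z - pos y),
        SignType.sign (pos z - pos x)))) := by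
  classical
  obtain ⟨pos, code, h1, h2⟩ := h
  refine ⟨pos, code, fun d =>
    if hd : ∃ t : Pt × Pt × Pt, t.1 ∈ S ∧ t.2.1 ∈ S ∧ t.2.2 ∈ S ∧
      d = ((code t.1, code t.2.1, code t.2.2),
      (SignType.sign (pos t.2.1 - pos t.1), SignType.sign (pos t.2.2 - pos t.2.1),
        SignType.sign (pos t.2.2 - pos t.1)))
    then orient hd.choose.1 hd.choose.2.1 hd.choose.2.2 else 0, h1, ?_⟩
  intro x hx y hy z hz
  have hd : ∃ t : Pt × Pt × Pt, t.1 ∈ S ∧ t.2.1 ∈ S ∧ t.2.2 ∈ S ∧
      ((code x, code y, code z),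
      (SignType.sign (pos y - pos x), SignType.sign (pos z - pos y),
        SignType.sign (pos z - pos x))) = ((code t.1, code t.2.1, code t.2.2),
      (SignType.sign (pos t.2.1 - pos t.1), SignType.sign (pos t.2.2 - pos t.2.1),
        SignType.sign (pos t.2.2 - pos t.1))) := ⟨(x, y, z), hx, hy, hz, rfl⟩
  beta_reduce
  rw [dif_pos hd]
  obtain ⟨m1, m2, m3, heq⟩ := hd.choose_spec
  exact h2 x hx y hy z hz _ m1 _ m2 _ m3 (congrArg (fun d => d.1.1) heq)
    (congrArg (fun d => d.1.2.1) heq) (congrArg (fun d => d.1.2.2) heq)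
    (congrArg (fun d => d.2.1) heq) (congrArg (fun d => d.2.2.1) heq)
    (congrArg (fun d => d.2.2.2) heq)

/-- Sequences of coded sets: Higman's lemma. -/
theorem coded_wqo (T : Type) [Finite T] (S : ℕ → Finset Pt) (hS : ∀ n, Coded T (S n)) :
    ∃ i j, i < j ∧ SubConf (S i) (S j) := by
  classical
  choose pos code Ω hinj hΩ using fun n => (hS n).omega
  let α := Omega T × Set T
  let r : α → α → Prop := fun a b => a.1 = b.1 ∧ a.2 ⊆ b.2
  have : IsPreorder α r := {
    refl := fun a => ⟨rfl, subset_rfl⟩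
    trans := fun a b c hab hbc => ⟨hab.1.trans hbc.1, hab.2.trans hbc.2⟩ }
  have hfin : (Set.univ : Set α).PartiallyWellOrderedOn r := Set.finite_univ.partiallyWellOrderedOn
  have hhig := Set.PartiallyWellOrderedOn.partiallyWellOrderedOn_sublistForall₂ r hfin
  let col : ℕ → ℝ → α := fun n t => (Ω n, {c | ∃ x ∈ S n, pos n x = t ∧ code n x = c})
  let L : ℕ → List ℝ := fun n => ((S n).image (pos n)).sort (· ≤ ·)
  have hLs : ∀ n, (L n).Pairwise (· < ·) := fun n => Finset.sortedLT_sort _ |>.pairwise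
  have hLm : ∀ n r, r ∈ L n ↔ ∃ x ∈ S n, pos n x = r := fun n r => by
    simp only [L, Finset.mem_sort, Finset.mem_image]
  obtain ⟨i, j, hij, hrel⟩ := hhig.exists_lt (f := fun n => (L n).map (col n)) (by simp)
  refine ⟨i, j, hij, ?_⟩
  rw [List.sublistForall₂_map_left_iff, List.sublistForall₂_map_right_iff] at hrel
  obtain ⟨f, hf1, hf2⟩ := exists_mono hrel (hLs i) (hLs j)
  -- the map on points
  have hmap : ∀ x ∈ S i, Ω i = Ω j ∧ ∃ y ∈ S j, pos j y = f (pos i x) ∧ code j y = code i x := by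
    intro x hx
    have hxL : pos i x ∈ L i := (hLm i _).2 ⟨x, hx, rfl⟩
    obtain ⟨-, h2, h3⟩ := hf1 _ hxL
    exact ⟨h2, h3 ⟨x, hx, rfl, rfl⟩⟩
  choose! hΩeq g hg1 hg2 hg3 using hmap
  have hsign : ∀ x ∈ S i, ∀ y ∈ S i, SignType.sign (pos j (g y) - pos j (g x))
      = SignType.sign (pos i y - pos i x) := by
    intro x hx y hy
    have hxL : pos i x ∈ L i := (hLm i _).2 ⟨x, hx, rfl⟩
    have hyL : pos i y ∈ L i := (hLm i _).2 ⟨y, hy, rfl⟩
    rw [hg2 x hx, hg2 y hy]
    rcases lt_trichotomy (pos i x) (pos i y) with h | h | h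
    · rw [sign_pos (sub_pos.2 h), sign_pos (sub_pos.2 (hf2 _ hxL _ hyL h))]
    · rw [h, sub_self, sub_self]
    · rw [sign_neg (sub_neg.2 h), sign_neg (sub_neg.2 (hf2 _ hyL _ hxL h))]
  apply subConf_of_map g hg1
  · intro x hx y hy hxy
    have h1 : pos j (g x) = pos j (g y) := by rw [hxy]
    have h2 : code j (g x) = code j (g y) := by rw [hxy]
    have h3 := hsign x hx y hy
    rw [h1, sub_self, sign_zero] at h3
    have h4 : pos i y - pos i x = 0 := sign_eq_zero_iff.1 h3.symm
    rw [hg3 x hx, hg3 y hy] at h2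
    exact hinj i x hx y hy (by linarith) h2
  · intro a ha b hb c hc
    rw [hΩ j _ (hg1 a ha) _ (hg1 b hb) _ (hg1 c hc), hΩ i a ha b hb c hc, hsign a ha b hb,
      hsign b hb c hc, hsign a ha c hc, hg3 a ha, hg3 b hb, hg3 c hc, hΩeq a ha]

end Pool.Agent.H800R3
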