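import Pool.Agent.H800R3.ConfA

/-!
The two kinds of large configurations without six points in general position are coded.
-/

namespace Pool.Agent.H800R3

theorem D_cyc (a b c : Pt) : D b c a = D a b c := by unfold D; ring
theorem D_swap (a b c : Pt) : D b a c = - D a b c := by unfold D; ring
theorem D_swap' (a b c : Pt) : D a c b = - D a b c := by unfold D; ring
theorem D_self (a b : Pt) : D a a b = 0 := by unfold D; ring
theorem D_self' (a b : Pt) : D a b b = 0 := by unfold D; ring
theorem D_self'' (a b : Pt) : D a b a = 0 := by unfold D; ring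

theorem orient_cyc (a b c : Pt) : orient b c a = orient a b c := by unfold orient; rw [D_cyc]
theorem orient_swap (a b c : Pt) : orient b a c = - orient a b c := by
  unfold orient; rw [D_swap, Left.sign_neg]
theorem orient_swap' (a b c : Pt) : orient a c b = - orient a b c := by
  unfold orient; rw [D_swap', Left.sign_neg]

/-- parameter along the line `a b` -/
def tp (a b x : Pt) : ℝ := (x.1 - a.1) * (b.1 - a.1) + (x.2 - a.2) * (b.2 - a.2)

/-- squared length -/
def nn (a b : Pt) : ℝ := (b.1 - a.1) ^ 2 + (b.2 - a.2) ^ 2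

theorem nn_pos {a b : Pt} (h : a ≠ b) : 0 < nn a b := by
  unfold nn
  by_contra hcon
  apply h
  have h1 : (b.1 - a.1) ^ 2 = 0 := by nlinarith [sq_nonneg (b.1 - a.1), sq_nonneg (b.2 - a.2)]
  have h2 : (b.2 - a.2) ^ 2 = 0 := by nlinarith [sq_nonneg (b.1 - a.1), sq_nonneg (b.2 - a.2)]
  have h3 := pow_eq_zero_iff (two_ne_zero) |>.1 h1
  have h4 := pow_eq_zero_iff (two_ne_zero) |>.1 h2
  apply Prod.ext <;> linarith

theorem D_line {a b x y : Pt} (hx : D a b x = 0) (hy : D a b y = 0) (w : Pt) :
    nn a b * D x y w = (tp a b y - tp a b x) * D a b w := by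
  unfold D tp nn at *
  linear_combination (-(((y.1 - a.1) * (b.1 - a.1) + (y.2 - a.2) * (b.2 - a.2)) -
      ((x.1 - a.1) * (b.1 - a.1) + (x.2 - a.2) * (b.2 - a.2))) +
      (((w.1 - a.1) * (b.1 - a.1) + (w.2 - a.2) * (b.2 - a.2)) -
      ((x.1 - a.1) * (b.1 - a.1) + (x.2 - a.2) * (b.2 - a.2)))) * hx
    - (((w.1 - a.1) * (b.1 - a.1) + (w.2 - a.2) * (b.2 - a.2)) -
      ((x.1 - a.1) * (b.1 - a.1) + (x.2 - a.2) * (b.2 - a.2))) * hy

theorem tp_inj {a b x y : Pt} (hab : a ≠ b) (hx : D a b x = 0) (hy : D a b y = 0)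
    (h : tp a b x = tp a b y) : x = y := by
  have hN := nn_pos hab
  have h1 : nn a b * (y.1 - x.1) = 0 := by
    unfold D tp nn at *
    linear_combination (-(b.1 - a.1)) * h + (b.2 - a.2) * hx - (b.2 - a.2) * hy
  have h2 : nn a b * (y.2 - x.2) = 0 := by
    unfold D tp nn at *
    linear_combination (-(b.2 - a.2)) * h - (b.1 - a.1) * hx + (b.1 - a.1) * hy
  rcases mul_eq_zero.1 h1 with h3 | h3
  · exact absurd h3 hN.ne'
  · rcases mul_eq_zero.1 h2 with h4 | h4
    · exact absurd h4 hN.ne'
    · apply Prod.ext <;> linarith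

theorem orient_line {a b x y : Pt} (hab : a ≠ b) (hx : D a b x = 0) (hy : D a b y = 0) (w : Pt) :
    orient x y w = SignType.sign (tp a b y - tp a b x) * orient a b w := by
  have h := D_line hx hy w
  have h1 : SignType.sign (nn a b * D x y w)
      = SignType.sign ((tp a b y - tp a b x) * D a b w) := by rw [h]
  rw [sign_mul, sign_mul, sign_pos (nn_pos hab), one_mul] at h1
  exact h1

theorem D_line_iff {a b x y : Pt} (hab : a ≠ b) (hxy : x ≠ y) (hx : D a b x = 0)
    (hy : D a b y = 0) (w : Pt) : D x y w = 0 ↔ D a b w = 0 := by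
  have h := D_line hx hy w
  have hN := nn_pos hab
  have ht : tp a b y - tp a b x ≠ 0 := fun h0 => hxy (tp_inj hab hx hy (by linarith))
  constructor
  · intro h1
    rw [h1, mul_zero] at h
    rcases mul_eq_zero.1 h.symm with h2 | h2
    · exact absurd h2 ht
    · exact h2
  · intro h1
    rw [h1, mul_zero] at h
    rcases mul_eq_zero.1 h with h2 | h2
    · exact absurd h2 hN.ne'
    · exact h2

/-- **One long line plus boundedly many points.** -/
theorem coded_one_line (M : ℕ) (S : Finset Pt) (a b : Pt) (hab : a ≠ b)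
    (hM : (S.filter (fun x => D a b x ≠ 0)).card ≤ M) :
    Coded (Fin M ⊕ (Fin M → Fin M → SignType)) S := by
  classical
  set F := S.filter (fun x => D a b x ≠ 0) with hF
  have hinjF : ∃ e : F → Fin M, Function.Injective e := by
    have : Fintype.card F ≤ Fintype.card (Fin M) := by simpa using hM
    exact ⟨_, (Function.Embedding.nonempty_of_card_le this).some.injective⟩
  obtain ⟨e, he⟩ := hinjF
  let inv : Fin M → Pt := fun i => if h : ∃ x : F, e x = i then (h.choose : Pt) else a
  have hinv : ∀ x : F, inv (e x) = x := by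
    intro x
    have h : ∃ x' : F, e x' = e x := ⟨x, rfl⟩
    simp only [inv, dif_pos h]
    exact congrArg Subtype.val (he h.choose_spec)
  let code : Pt → Fin M ⊕ (Fin M → Fin M → SignType) := fun x =>
    if h : x ∈ F then Sum.inl (e ⟨x, h⟩) else Sum.inr (fun i j => orient (inv i) (inv j) x)
  let pos : Pt → ℝ := fun x => if x ∈ F then 0 else tp a b x
  have hcodeF : ∀ x (h : x ∈ F), code x = Sum.inl (e ⟨x, h⟩) := fun x h => dif_pos h
  have hcodeN : ∀ x, x ∉ F → code x = Sum.inr (fun i j => orient (inv i) (inv j) x) :=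
    fun x h => dif_neg h
  have hline : ∀ x ∈ S, x ∉ F → D a b x = 0 := by
    intro x hx hxF
    by_contra hcon
    exact hxF (by rw [hF, Finset.mem_filter]; exact ⟨hx, hcon⟩)
  -- equal codes
  have hcc : ∀ x ∈ S, ∀ x' ∈ S, code x = code x' →
      (x ∈ F ∧ x = x') ∨ (x ∉ F ∧ x' ∉ F ∧ ∀ f ∈ F, ∀ g ∈ F, orient f g x = orient f g x') := by
    intro x _ x' _ hc
    by_cases h : x ∈ F
    · by_cases h' : x' ∈ F
      · rw [hcodeF x h, hcodeF x' h', Sum.inl.injEq] at hc
        exact Or.inl ⟨h, congrArg Subtype.val (he hc)⟩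
      · rw [hcodeF x h, hcodeN x' h'] at hc
        cases hc
    · by_cases h' : x' ∈ F
      · rw [hcodeN x h, hcodeF x' h'] at hc
        cases hc
      · rw [hcodeN x h, hcodeN x' h', Sum.inr.injEq] at hc
        refine Or.inr ⟨h, h', fun f hf g hg => ?_⟩
        have := congrFun (congrFun hc (e ⟨f, hf⟩)) (e ⟨g, hg⟩)
        rw [hinv, hinv] at this
        exact this
  have hpos : ∀ x, x ∉ F → pos x = tp a b x := fun x h => if_neg h
  refine ⟨pos, code, ?_, ?_⟩
  · intro x hx y hy hp hc
    rcases hcc x hx y hy hc with ⟨_, h⟩ | ⟨h1, h2, _⟩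
    · exact h
    · rw [hpos x h1, hpos y h2] at hp
      exact tp_inj hab (hline x hx h1) (hline y hy h2) hp
  · intro x hx y hy z hz x' hx' y' hy' z' hz' c1 c2 c3 s1 s2 s3
    rcases hcc x hx x' hx' c1 with ⟨hxF, rfl⟩ | ⟨hx1, hx2, hx3⟩
    · rcases hcc y hy y' hy' c2 with ⟨hyF, rfl⟩ | ⟨hy1, hy2, hy3⟩
      · rcases hcc z hz z' hz' c3 with ⟨_, rfl⟩ | ⟨_, _, hz3⟩
        · rfl
        · exact hz3 _ hxF _ hyF
      · rcases hcc z hz z' hz' c3 with ⟨hzF, rfl⟩ | ⟨hz1, hz2, _⟩
        · rw [← orient_cyc x y z, ← orient_cyc x y' z, ← orient_cyc y z x, ← orient_cyc y' z x]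
          exact hy3 _ hzF _ hxF
        · rw [← orient_cyc x y z, ← orient_cyc x y' z',
            orient_line hab (hline y hy hy1) (hline z hz hz1),
            orient_line hab (hline y' hy' hy2) (hline z' hz' hz2),
            ← hpos y hy1, ← hpos z hz1, ← hpos y' hy2, ← hpos z' hz2, s2]
    · rcases hcc y hy y' hy' c2 with ⟨hyF, rfl⟩ | ⟨hy1, hy2, _⟩
      · rcases hcc z hz z' hz' c3 with ⟨hzF, rfl⟩ | ⟨hz1, hz2, _⟩
        · rw [← orient_cyc x y z, ← orient_cyc x' y z]
          exact hx3 _ hyF _ hzF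
        · rw [← orient_cyc x y z, ← orient_cyc x' y z', ← orient_cyc y z x,
            ← orient_cyc y z' x', orient_swap x z y, orient_swap x' z' y,
            orient_line hab (hline x hx hx1) (hline z hz hz1),
            orient_line hab (hline x' hx' hx2) (hline z' hz' hz2),
            ← hpos x hx1, ← hpos z hz1, ← hpos x' hx2, ← hpos z' hz2, s3]
      · rcases hcc z hz z' hz' c3 with ⟨_, rfl⟩ | ⟨hz1, hz2, _⟩
        · rw [orient_line hab (hline x hx hx1) (hline y hy hy1),
            orient_line hab (hline x' hx' hx2) (hline y' hy' hy2),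
            ← hpos x hx1, ← hpos y hy1, ← hpos x' hx2, ← hpos y' hy2, s1]
        · have e1 : orient a b z = 0 := by unfold orient; rw [hline z hz hz1, sign_zero]
          have e2 : orient a b z' = 0 := by unfold orient; rw [hline z' hz' hz2, sign_zero]
          rw [orient_line hab (hline x hx hx1) (hline y hy hy1),
            orient_line hab (hline x' hx' hx2) (hline y' hy' hy2), e1, e2, mul_zero, mul_zero]

/-- a direction missing finitely many vectors -/
theorem exists_direction (V : Finset Pt) : ∃ l : ℝ, ∀ v ∈ V, v ≠ 0 → v.1 + l * v.2 ≠ 0 := by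
  classical
  obtain ⟨l, hl⟩ := Infinite.exists_notMem_finset (V.image (fun v : Pt => - v.1 / v.2))
  refine ⟨l, fun v hv hv0 h => ?_⟩
  by_cases h2 : v.2 = 0
  · rw [h2, mul_zero, add_zero] at h
    exact hv0 (Prod.ext h h2)
  · apply hl
    rw [Finset.mem_image]
    refine ⟨v, hv, ?_⟩
    rw [div_eq_iff h2]
    linarith

/-- **Two lines and one more point.** -/
theorem coded_two_lines (S : Finset Pt) (a b c d p : Pt) (hab : a ≠ b) (hcd : c ≠ d)
    (hp1 : D a b p ≠ 0) (hp2 : D c d p ≠ 0)
    (hS : ∀ x ∈ S, x = p ∨ D a b x = 0 ∨ D c d x = 0) :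
    Coded ((Fin 3 × SignType) × SignType × SignType) S := by
  classical
  obtain ⟨l, hl⟩ := exists_direction (S.image (fun x => x - p))
  let h : Pt → ℝ := fun x => (x.1 - p.1) + l * (x.2 - p.2)
  let g : Pt → ℝ := fun x => (x.2 - p.2) - l * (x.1 - p.1)
  let pos : Pt → ℝ := fun x => g x / h x
  let cls : Pt → Fin 3 := fun x => if x = p then 0 else if D a b x = 0 then 1 else 2
  let code : Pt → (Fin 3 × SignType) × SignType × SignType := fun x =>
    ((cls x, SignType.sign (h x)), orient a b x, orient c d x)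
  have hh : ∀ x ∈ S, x ≠ p → h x ≠ 0 := by
    intro x hx hne
    exact hl (x - p) (Finset.mem_image_of_mem _ hx) (sub_ne_zero.2 hne)
  have hhp : h p = 0 := by simp [h]
  -- the basic formula
  have hbasic : ∀ x ∈ S, ∀ y ∈ S, orient p x y
      = SignType.sign (h x) * SignType.sign (h y) * SignType.sign (pos y - pos x) := by
    intro x hx y hy
    by_cases hxp : x = p
    · subst hxp
      rw [hhp]; unfold orient; rw [D_self]; simp
    by_cases hyp : y = p
    · subst hyp
      rw [hhp]; unfold orient; rw [D_self'']; simp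
    have h1 := hh x hx hxp
    have h2 := hh y hy hyp
    have h3 : (1 + l ^ 2) * D p x y = h x * h y * (pos y - pos x) := by
      have : h x * h y * (pos y - pos x) = h x * g y - g x * h y := by
        simp only [pos]; field_simp
      rw [this]
      simp only [h, g, D]; ring
    have h4 : (0 : ℝ) < 1 + l ^ 2 := by positivity
    have h5 := congrArg SignType.sign h3
    rw [sign_mul, sign_mul, sign_mul, sign_pos h4, one_mul] at h5
    exact h5
  have e1 : orient a b p ≠ 0 := by unfold orient; rw [Ne, sign_eq_zero_iff]; exact hp1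
  have e2 : orient c d p ≠ 0 := by unfold orient; rw [Ne, sign_eq_zero_iff]; exact hp2
  have sq : ∀ s : SignType, s ≠ 0 → s * s = 1 := by decide
  have perm : ∀ s o w : SignType, s * (o * o) * w = o * (s * o) * w := by decide
  -- two points on the same line
  have hpair : ∀ a b : Pt, a ≠ b → orient a b p ≠ 0 → ∀ x ∈ S, ∀ y ∈ S, D a b x = 0 →
      D a b y = 0 → ∀ z, orient x y z = orient a b p *
        (SignType.sign (h x) * SignType.sign (h y) * SignType.sign (pos y - pos x))
        * orient a b z := by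
    intro a b hab e1 x hx y hy hDx hDy z
    have h1 := orient_line hab hDx hDy p
    have h2 := orient_line hab hDx hDy z
    rw [h2, ← hbasic x hx y hy, ← orient_cyc p x y, h1]
    have := sq _ e1
    generalize orient a b p = o at *
    generalize SignType.sign (tp a b y - tp a b x) = s
    generalize orient a b z = w
    calc s * w = s * (o * o) * w := by rw [this, mul_one]
      _ = o * (s * o) * w := perm s o w
  have hcls0 : ∀ x, cls x = 0 → x = p := by
    intro x hx
    by_contra hne
    by_cases h0 : D a b x = 0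
    · simp [cls, hne, h0] at hx
    · simp [cls, hne, h0] at hx
  have hcls1 : ∀ x, cls x = 1 → x ≠ p ∧ D a b x = 0 := by
    intro x hx
    by_cases hne : x = p
    · simp [cls, hne] at hx
    by_cases h0 : D a b x = 0
    · exact ⟨hne, h0⟩
    · simp [cls, hne, h0] at hx
  have hcls2 : ∀ x ∈ S, cls x = 2 → x ≠ p ∧ D c d x = 0 := by
    intro x hxS hx
    by_cases hne : x = p
    · simp [cls, hne] at hx
    by_cases h0 : D a b x = 0
    · simp [cls, hne, h0] at hx
    · rcases hS x hxS with h1 | h1 | h1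
      · exact absurd h1 hne
      · exact absurd h1 h0
      · exact ⟨hne, h1⟩
  have h3 : ∀ i : Fin 3, i = 0 ∨ i = 1 ∨ i = 2 := by decide
  refine ⟨pos, code, ?_, ?_⟩
  · intro x hx y hy hpxy hc
    simp only [code, Prod.mk.injEq] at hc
    obtain ⟨⟨hc1, hc2⟩, -, -⟩ := hc
    have hcol : orient p x y = 0 := by
      rw [hbasic x hx y hy, hpxy, sub_self, sign_zero, mul_zero]
    have hcol' : D p x y = 0 := sign_eq_zero_iff.1 hcol
    rcases h3 (cls x) with h0 | h0 | h0
    · rw [hcls0 x h0, hcls0 y (hc1 ▸ h0)]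
    · obtain ⟨_, hx2⟩ := hcls1 x h0
      obtain ⟨_, hy2⟩ := hcls1 y (hc1 ▸ h0)
      by_contra hne
      apply hp1
      rw [← D_line_iff hab hne hx2 hy2]
      rw [← D_cyc] at hcol'
      exact hcol'
    · obtain ⟨_, hx2⟩ := hcls2 x hx h0
      obtain ⟨_, hy2⟩ := hcls2 y hy (hc1 ▸ h0)
      by_contra hne
      apply hp2
      rw [← D_line_iff hcd hne hx2 hy2]
      rw [← D_cyc] at hcol'
      exact hcol'
  · -- orientation is determined
    have key : ∀ x ∈ S, ∀ y ∈ S, ∀ z ∈ S, ∀ x' ∈ S, ∀ y' ∈ S, ∀ z' ∈ S,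
        code x = code x' → code y = code y' → code z = code z' →
        SignType.sign (pos y - pos x) = SignType.sign (pos y' - pos x') →
        cls x = cls y ∧ cls x ≠ 0 → orient x y z = orient x' y' z' := by
      intro x hx y hy z hz x' hx' y' hy' z' hz' c1 c2 c3 s1 ⟨hcl, hcl0⟩
      simp only [code, Prod.mk.injEq] at c1 c2 c3
      obtain ⟨⟨c11, c12⟩, c13, c14⟩ := c1
      obtain ⟨⟨c21, c22⟩, c23, c24⟩ := c2
      obtain ⟨⟨c31, c32⟩, c33, c34⟩ := c3
      rcases h3 (cls x) with h0 | h0 | h0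
      · exact absurd h0 hcl0
      · have g1 := (hcls1 x h0).2
        have g2 := (hcls1 y (hcl ▸ h0)).2
        have g3 := (hcls1 x' (c11 ▸ h0)).2
        have g4 := (hcls1 y' (c21 ▸ hcl ▸ h0)).2
        rw [hpair a b hab e1 x hx y hy g1 g2 z, hpair a b hab e1 x' hx' y' hy' g3 g4 z',
          c12, c22, s1, c33]
      · have g1 := (hcls2 x hx h0).2
        have g2 := (hcls2 y hy (hcl ▸ h0)).2
        have g3 := (hcls2 x' hx' (c11 ▸ h0)).2
        have g4 := (hcls2 y' hy' (c21 ▸ hcl ▸ h0)).2
        rw [hpair c d hcd e2 x hx y hy g1 g2 z, hpair c d hcd e2 x' hx' y' hy' g3 g4 z',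
          c12, c22, s1, c34]
    have key0 : ∀ x ∈ S, ∀ y ∈ S, ∀ z ∈ S, ∀ x' ∈ S, ∀ y' ∈ S, ∀ z' ∈ S,
        code x = code x' → code y = code y' → code z = code z' →
        SignType.sign (pos z - pos y) = SignType.sign (pos z' - pos y') →
        cls x = 0 → orient x y z = orient x' y' z' := by
      intro x hx y hy z hz x' hx' y' hy' z' hz' c1 c2 c3 s1 hcl
      simp only [code, Prod.mk.injEq] at c1 c2 c3
      obtain ⟨⟨c11, c12⟩, c13, c14⟩ := c1
      obtain ⟨⟨c21, c22⟩, c23, c24⟩ := c2
      obtain ⟨⟨c31, c32⟩, c33, c34⟩ := c3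
      rw [hcls0 x hcl, hcls0 x' (c11 ▸ hcl), hbasic y hy z hz, hbasic y' hy' z' hz', c22, c32, s1]
    intro x hx y hy z hz x' hx' y' hy' z' hz' c1 c2 c3 s1 s2 s3
    have sneg : ∀ u v : ℝ, SignType.sign (u - v) = - SignType.sign (v - u) := fun u v => by
      rw [← Left.sign_neg, neg_sub]
    have s1' : SignType.sign (pos x - pos y) = SignType.sign (pos x' - pos y') := by
      rw [sneg, s1, ← sneg]
    have s2' : SignType.sign (pos y - pos z) = SignType.sign (pos y' - pos z') := by
      rw [sneg, s2, ← sneg]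
    have s3' : SignType.sign (pos x - pos z) = SignType.sign (pos x' - pos z') := by
      rw [sneg, s3, ← sneg]
    by_cases z1 : cls x = 0
    · exact key0 x hx y hy z hz x' hx' y' hy' z' hz' c1 c2 c3 s2 z1
    by_cases z2 : cls y = 0
    · rw [← orient_cyc x y z, ← orient_cyc x' y' z']
      exact key0 y hy z hz x hx y' hy' z' hz' x' hx' c2 c3 c1 s3' z2
    by_cases z3 : cls z = 0
    · rw [← orient_cyc x y z, ← orient_cyc x' y' z', ← orient_cyc y z x, ← orient_cyc y' z' x']
      exact key0 z hz x hx y hy z' hz' x' hx' y' hy' c3 c1 c2 s1 z3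
    by_cases p1 : cls x = cls y
    · exact key x hx y hy z hz x' hx' y' hy' z' hz' c1 c2 c3 s1 ⟨p1, z1⟩
    by_cases p2 : cls y = cls z
    · rw [← orient_cyc x y z, ← orient_cyc x' y' z']
      exact key y hy z hz x hx y' hy' z' hz' x' hx' c2 c3 c1 s2 ⟨p2, z2⟩
    by_cases p3 : cls z = cls x
    · rw [← orient_cyc x y z, ← orient_cyc x' y' z', ← orient_cyc y z x, ← orient_cyc y' z' x']
      exact key z hz x hx y hy z' hz' x' hx' y' hy' c3 c1 c2 s3' ⟨p3, z3⟩
    exfalso
    have : ∀ i j k : Fin 3, i ≠ 0 → j ≠ 0 → k ≠ 0 → i ≠ j → j ≠ k → k ≠ i → False := by decide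
    exact this _ _ _ z1 z2 z3 p1 p2 p3

end Pool.Agent.H800R3
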