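import Pool.Agent.H800R3.ConfB

/-!
Structure of the configurations without six points in general position.
-/

namespace Pool.Agent.H800R3

/-- The line through `a` and `b`. -/
def lineSet (a b : Pt) : Set Pt := {w | D a b w = 0}

theorem meet_le_one (X : Finset Pt) {a b c d : Pt} (hab : a ≠ b) (hX : ∀ x ∈ X, D a b x = 0)
    (hcd : c ≠ d) (hne : lineSet c d ≠ lineSet a b) :
    (X.filter (fun x => D c d x = 0)).card ≤ 1 := by
  classical
  rw [Finset.card_le_one]
  intro x hx y hy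
  rw [Finset.mem_filter] at hx hy
  by_contra hxy
  apply hne
  ext w
  show D c d w = 0 ↔ D a b w = 0
  rw [← D_line_iff hab hxy (hX x hx.1) (hX y hy.1), D_line_iff hcd hxy hx.2 hy.2]

theorem pick2 (X : Finset Pt) {a b : Pt} (hab : a ≠ b) (hX : ∀ x ∈ X, D a b x = 0)
    (B : List (Pt × Pt)) (hB : ∀ c ∈ B, c.1 ≠ c.2 ∧ lineSet c.1 c.2 ≠ lineSet a b)
    (hcard : B.length + 2 ≤ X.card) :
    ∃ x ∈ X, ∃ y ∈ X, x ≠ y ∧ (∀ c ∈ B, D c.1 c.2 x ≠ 0) ∧ ∀ c ∈ B, D c.1 c.2 y ≠ 0 := by
  classical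
  set bad := B.toFinset.biUnion (fun c => X.filter (fun x => D c.1 c.2 x = 0)) with hbad
  have h1 : bad.card ≤ B.length := by
    have h2 : bad.card ≤ B.toFinset.card * 1 := by
      apply Finset.card_biUnion_le_card_mul
      intro c hc
      rw [List.mem_toFinset] at hc
      exact meet_le_one X hab hX (hB c hc).1 (hB c hc).2
    have h3 := B.toFinset_card_le
    omega
  have h2 : 2 ≤ (X \ bad).card := by
    have := Finset.le_card_sdiff bad X
    omega
  obtain ⟨x, hx, y, hy, hxy⟩ := Finset.one_lt_card.1 (by omega : 1 < (X \ bad).card)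
  rw [Finset.mem_sdiff] at hx hy
  refine ⟨x, hx.1, y, hy.1, hxy, ?_, ?_⟩
  · intro c hc h0
    exact hx.2 (Finset.mem_biUnion.2 ⟨c, List.mem_toFinset.2 hc, Finset.mem_filter.2 ⟨hx.1, h0⟩⟩)
  · intro c hc h0
    exact hy.2 (Finset.mem_biUnion.2 ⟨c, List.mem_toFinset.2 hc, Finset.mem_filter.2 ⟨hy.1, h0⟩⟩)

theorem six_points {S : Finset Pt} (hS : S ∈ Cls 6) (v : Fin 6 → Pt) (hv : ∀ i, v i ∈ S)
    (h : ∀ i j k, i < j → j < k → D (v i) (v j) (v k) ≠ 0) : False := by
  classical
  have hswap : ∀ a b c : Pt, D a b c ≠ 0 → D b a c ≠ 0 := fun a b c hc => by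
    rw [D_swap]; exact neg_ne_zero.2 hc
  have hswap' : ∀ a b c : Pt, D a b c ≠ 0 → D a c b ≠ 0 := fun a b c hc => by
    rw [D_swap']; exact neg_ne_zero.2 hc
  have hall : ∀ i j k, i ≠ j → j ≠ k → i ≠ k → D (v i) (v j) (v k) ≠ 0 := by
    intro i j k h1 h2 h3
    rcases lt_or_gt_of_ne h1 with a | a <;> rcases lt_or_gt_of_ne h2 with b | b <;>
      rcases lt_or_gt_of_ne h3 with c | c
    · exact h i j k a b
    · exact absurd (a.trans b) (not_lt.2 c.le)
    · exact hswap' _ _ _ (h i k j c b)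
    · exact hswap' _ _ _ (hswap _ _ _ (h k i j c a))
    · exact hswap _ _ _ (h j i k a c)
    · exact hswap _ _ _ (hswap' _ _ _ (h j k i b c))
    · exact absurd (b.trans a) (not_lt.2 c.le)
    · exact hswap _ _ _ (hswap' _ _ _ (hswap _ _ _ (h k j i b a)))
  have hinj : Function.Injective v := by
    intro i j hij
    by_contra hne
    have hex : ∀ i j : Fin 6, i ≠ j → ∃ k : Fin 6, j ≠ k ∧ i ≠ k := by decide
    obtain ⟨k, hk1, hk2⟩ := hex i j hne
    exact hall i j k hne hk1 hk2 (by rw [hij]; exact D_self _ _)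
  have hsub : Finset.univ.image v ⊆ S := by
    intro x hx
    obtain ⟨i, -, rfl⟩ := Finset.mem_image.1 hx
    exact hv i
  have hg : GenPos (Finset.univ.image v) := by
    intro a ha b hb c hc hab hbc hac
    obtain ⟨i, -, rfl⟩ := Finset.mem_image.1 ha
    obtain ⟨j, -, rfl⟩ := Finset.mem_image.1 hb
    obtain ⟨k, -, rfl⟩ := Finset.mem_image.1 hc
    unfold orient
    rw [Ne, sign_eq_zero_iff]
    exact hall i j k (fun e => hab (by rw [e])) (fun e => hbc (by rw [e])) (fun e => hac (by rw [e]))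
  have h6 := no_six hS hsub hg
  rw [Finset.card_image_of_injective _ hinj] at h6
  simp at h6

theorem two_long_two_extra {S : Finset Pt} (hS : S ∈ Cls 6) {a b c d p q : Pt} (hab : a ≠ b)
    (hcd : c ≠ d) (hne : lineSet a b ≠ lineSet c d)
    (h1 : 8 ≤ (S.filter (fun x => D a b x = 0)).card)
    (h2 : 8 ≤ (S.filter (fun x => D c d x = 0)).card)
    (hpq : p ≠ q) (hp : p ∈ S) (hq : q ∈ S) (hp1 : D a b p ≠ 0) (hp2 : D c d p ≠ 0)
    (hq1 : D a b q ≠ 0) (hq2 : D c d q ≠ 0) : False := by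
  classical
  have hpqab : lineSet p q ≠ lineSet a b := by
    intro h
    have : p ∈ lineSet p q := D_self'' _ _
    rw [h] at this
    exact hp1 this
  have hpqcd : lineSet p q ≠ lineSet c d := by
    intro h
    have : p ∈ lineSet p q := D_self'' _ _
    rw [h] at this
    exact hp2 this
  obtain ⟨x1, hx1, x2, hx2, hx, hB1, hB2⟩ := pick2 (S.filter (fun x => D a b x = 0)) hab
    (fun x hx => (Finset.mem_filter.1 hx).2) [(c, d), (p, q)] (by
      intro e he
      simp only [List.mem_cons, List.not_mem_nil, or_false] at he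
      rcases he with rfl | rfl
      · exact ⟨hcd, hne.symm⟩
      · exact ⟨hpq, hpqab⟩) (by simp; omega)
  simp only [List.mem_cons, List.not_mem_nil, or_false, forall_eq_or_imp, forall_eq] at hB1 hB2
  rw [Finset.mem_filter] at hx1 hx2
  have hpx1 : p ≠ x1 := fun h => hp1 (h ▸ hx1.2)
  have hpx2 : p ≠ x2 := fun h => hp1 (h ▸ hx2.2)
  have hqx1 : q ≠ x1 := fun h => hq1 (h ▸ hx1.2)
  have hqx2 : q ≠ x2 := fun h => hq1 (h ▸ hx2.2)
  have hnp : ∀ x, lineSet p x ≠ lineSet c d := by
    intro x h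
    have : p ∈ lineSet p x := D_self'' _ _
    rw [h] at this
    exact hp2 this
  have hnq : ∀ x, lineSet q x ≠ lineSet c d := by
    intro x h
    have : q ∈ lineSet q x := D_self'' _ _
    rw [h] at this
    exact hq2 this
  obtain ⟨y1, hy1, y2, hy2, hy, hC1, hC2⟩ := pick2 (S.filter (fun x => D c d x = 0)) hcd
    (fun x hx => (Finset.mem_filter.1 hx).2)
    [(a, b), (p, q), (p, x1), (p, x2), (q, x1), (q, x2)] (by
      intro e he
      simp only [List.mem_cons, List.not_mem_nil, or_false] at he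
      rcases he with rfl | rfl | rfl | rfl | rfl | rfl
      · exact ⟨hab, hne⟩
      · exact ⟨hpq, hpqcd⟩
      · exact ⟨hpx1, hnp _⟩
      · exact ⟨hpx2, hnp _⟩
      · exact ⟨hqx1, hnq _⟩
      · exact ⟨hqx2, hnq _⟩) (by simp; omega)
  simp only [List.mem_cons, List.not_mem_nil, or_false, forall_eq_or_imp, forall_eq] at hC1 hC2
  rw [Finset.mem_filter] at hy1 hy2
  have L1 : ∀ w, D x1 x2 w = 0 ↔ D a b w = 0 := D_line_iff hab hx hx1.2 hx2.2
  have L2 : ∀ w, D y1 y2 w = 0 ↔ D c d w = 0 := D_line_iff hcd hy hy1.2 hy2.2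
  have cyc : ∀ u v w : Pt, D u v w ≠ 0 → D v w u ≠ 0 := fun u v w h => by rwa [D_cyc]
  have t1 : D x1 x2 y1 ≠ 0 := fun h => hC1.1 ((L1 _).1 h)
  have t2 : D x1 x2 y2 ≠ 0 := fun h => hC2.1 ((L1 _).1 h)
  have t3 : D x1 x2 p ≠ 0 := fun h => hp1 ((L1 _).1 h)
  have t4 : D x1 x2 q ≠ 0 := fun h => hq1 ((L1 _).1 h)
  have u1 : D x1 y1 y2 ≠ 0 := cyc _ _ _ (cyc _ _ _ (fun h => hB1.1 ((L2 _).1 h)))
  have u2 : D x2 y1 y2 ≠ 0 := cyc _ _ _ (cyc _ _ _ (fun h => hB2.1 ((L2 _).1 h)))
  have u3 : D y1 y2 p ≠ 0 := fun h => hp2 ((L2 _).1 h)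
  have u4 : D y1 y2 q ≠ 0 := fun h => hq2 ((L2 _).1 h)
  have w1 : D x1 y1 p ≠ 0 := cyc _ _ _ hC1.2.2.1
  have w2 : D x1 y2 p ≠ 0 := cyc _ _ _ hC2.2.2.1
  have w3 : D x2 y1 p ≠ 0 := cyc _ _ _ hC1.2.2.2.1
  have w4 : D x2 y2 p ≠ 0 := cyc _ _ _ hC2.2.2.2.1
  have w5 : D x1 y1 q ≠ 0 := cyc _ _ _ hC1.2.2.2.2.1
  have w6 : D x1 y2 q ≠ 0 := cyc _ _ _ hC2.2.2.2.2.1
  have w7 : D x2 y1 q ≠ 0 := cyc _ _ _ hC1.2.2.2.2.2
  have w8 : D x2 y2 q ≠ 0 := cyc _ _ _ hC2.2.2.2.2.2
  have r1 : D x1 p q ≠ 0 := cyc _ _ _ (cyc _ _ _ hB1.2)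
  have r2 : D x2 p q ≠ 0 := cyc _ _ _ (cyc _ _ _ hB2.2)
  have r3 : D y1 p q ≠ 0 := cyc _ _ _ (cyc _ _ _ hC1.2.1)
  have r4 : D y2 p q ≠ 0 := cyc _ _ _ (cyc _ _ _ hC2.2.1)
  apply six_points hS ![x1, x2, y1, y2, p, q]
  · intro i
    fin_cases i
    · exact hx1.1
    · exact hx2.1
    · exact hy1.1
    · exact hy2.1
    · exact hp
    · exact hq
  · intro i j k hij hjk
    fin_cases i <;> fin_cases j <;> first
      | (exfalso; revert hij; decide)
      | (fin_cases k <;> first
          | (exfalso; revert hjk; decide)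
          | assumption)

theorem exists_off_two {a b c d : Pt} (hab : a ≠ b) (hcd : c ≠ d) :
    ∃ p, D a b p ≠ 0 ∧ D c d p ≠ 0 := by
  have off : ∀ a b : Pt, a ≠ b → ∃ w, D a b w ≠ 0 := by
    intro a b h
    refine ⟨(a.1 - (b.2 - a.2), a.2 + (b.1 - a.1)), ?_⟩
    have h1 : D a b (a.1 - (b.2 - a.2), a.2 + (b.1 - a.1)) = nn a b := by
      unfold D nn; ring
    rw [h1]
    exact (nn_pos h).ne'
  obtain ⟨w1, h1⟩ := off a b hab
  obtain ⟨w2, h2⟩ := off c d hcd
  by_cases h3 : D c d w1 = 0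
  · by_cases h4 : D a b w2 = 0
    · refine ⟨((w1.1 + w2.1) / 2, (w1.2 + w2.2) / 2), ?_, ?_⟩
      · have : D a b ((w1.1 + w2.1) / 2, (w1.2 + w2.2) / 2) = (D a b w1 + D a b w2) / 2 := by
          unfold D; ring
        rw [this, h4, add_zero]
        exact div_ne_zero h1 two_ne_zero
      · have : D c d ((w1.1 + w2.1) / 2, (w1.2 + w2.2) / 2) = (D c d w1 + D c d w2) / 2 := by
          unfold D; ring
        rw [this, h3, zero_add]
        exact div_ne_zero h2 two_ne_zero
    · exact ⟨w2, h4, h2⟩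
  · exact ⟨w1, h1, h3⟩

/-- **Structure theorem.** A configuration without six points in general position either has a
line missing at most `145` of its points, or there are two lines covering all but at most one
of its points. -/
theorem structure_six {S : Finset Pt} (hS : S ∈ Cls 6) :
    (∃ a b : Pt, a ≠ b ∧ (S.filter (fun x => D a b x ≠ 0)).card ≤ 145) ∨
    (∃ a b c d p : Pt, a ≠ b ∧ c ≠ d ∧ D a b p ≠ 0 ∧ D c d p ≠ 0 ∧
      ∀ x ∈ S, x = p ∨ D a b x = 0 ∨ D c d x = 0) := by
  classical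
  obtain ⟨G, hG, hmax⟩ := Finset.exists_max_image (S.powerset.filter GenPos) Finset.card
    ⟨∅, by
      rw [Finset.mem_filter, Finset.mem_powerset]
      exact ⟨Finset.empty_subset _, fun a ha => absurd ha (Finset.notMem_empty _)⟩⟩
  rw [Finset.mem_filter, Finset.mem_powerset] at hG
  obtain ⟨hGS, hGg⟩ := hG
  have hG6 := no_six hS hGS hGg
  -- covering by lines
  have hcov : ∀ x ∈ S, x ∉ G → ∃ c ∈ G.offDiag, D c.1 c.2 x = 0 := by
    intro x hx hxG
    by_contra hcon
    push Not at hcon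
    have hc : ∀ g ∈ G, ∀ g' ∈ G, g ≠ g' → orient g g' x ≠ 0 := by
      intro g hg g' hg' hne
      unfold orient
      rw [Ne, sign_eq_zero_iff]
      exact hcon (g, g') (Finset.mem_offDiag.2 ⟨hg, hg', hne⟩)
    have hins : GenPos (insert x G) := by
      intro u hu v hv w hw huv hvw huw
      rw [Finset.mem_insert] at hu hv hw
      rcases hu with rfl | hu
      · rcases hv with rfl | hv
        · exact absurd rfl huv
        rcases hw with rfl | hw
        · exact absurd rfl huw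
        rw [← orient_cyc]
        exact hc v hv w hw hvw
      · rcases hv with rfl | hv
        · rcases hw with rfl | hw
          · exact absurd rfl hvw
          rw [orient_swap']
          have hneg : ∀ s : SignType, s ≠ 0 → -s ≠ 0 := by decide
          exact hneg _ (hc u hu w hw huw)
        · rcases hw with rfl | hw
          · exact hc u hu v hv huv
          · exact hGg u hu v hv w hw huv hvw huw
    have h1 := hmax (insert x G) (by
      rw [Finset.mem_filter, Finset.mem_powerset]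
      exact ⟨Finset.insert_subset hx hGS, hins⟩)
    rw [Finset.card_insert_of_notMem hxG] at h1
    omega
  have hQ : G.offDiag.card ≤ 20 := by
    rw [Finset.offDiag_card]
    have : G.card ≤ 5 := by omega
    interval_cases G.card <;> simp
  set P : Pt × Pt → Finset Pt := fun c => S.filter (fun x => D c.1 c.2 x = 0) with hP
  set Sh := G.offDiag.filter (fun c => (P c).card < 8) with hSh
  have hbound : (G ∪ Sh.biUnion P).card ≤ 145 := by
    have h1 : (Sh.biUnion P).card ≤ Sh.card * 7 := by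
      apply Finset.card_biUnion_le_card_mul
      intro c hc
      have := (Finset.mem_filter.1 hc).2
      omega
    have h2 : Sh.card ≤ 20 := (Finset.card_filter_le _ _).trans hQ
    have h3 := Finset.card_union_le G (Sh.biUnion P)
    omega
  by_cases hl : ∀ c ∈ G.offDiag, (P c).card < 8
  · left
    refine ⟨(0, 0), (1, 0), by simp, ?_⟩
    refine (Finset.card_le_card ?_).trans hbound
    intro x hx
    have hxS := (Finset.mem_filter.1 hx).1
    by_cases hxG : x ∈ G
    · exact Finset.mem_union_left _ hxG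
    · obtain ⟨c, hc, hD⟩ := hcov x hxS hxG
      exact Finset.mem_union_right _ (Finset.mem_biUnion.2
        ⟨c, Finset.mem_filter.2 ⟨hc, hl c hc⟩, Finset.mem_filter.2 ⟨hxS, hD⟩⟩)
  · push Not at hl
    obtain ⟨⟨a, b⟩, hab, h8⟩ := hl
    have hab' : a ≠ b := (Finset.mem_offDiag.1 hab).2.2
    by_cases hall : ∀ c ∈ G.offDiag, 8 ≤ (P c).card → lineSet c.1 c.2 = lineSet a b
    · left
      refine ⟨a, b, hab', ?_⟩
      refine (Finset.card_le_card ?_).trans hbound
      intro x hx
      obtain ⟨hxS, hxab⟩ := Finset.mem_filter.1 hx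
      by_cases hxG : x ∈ G
      · exact Finset.mem_union_left _ hxG
      · obtain ⟨c, hc, hD⟩ := hcov x hxS hxG
        refine Finset.mem_union_right _ (Finset.mem_biUnion.2
          ⟨c, Finset.mem_filter.2 ⟨hc, ?_⟩, Finset.mem_filter.2 ⟨hxS, hD⟩⟩)
        by_contra hcon
        have h9 := hall c hc (by omega)
        apply hxab
        have : x ∈ lineSet c.1 c.2 := hD
        rw [h9] at this
        exact this
    · push Not at hall
      obtain ⟨⟨c, d⟩, hcd, h8', hne⟩ := hall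
      have hcd' : c ≠ d := (Finset.mem_offDiag.1 hcd).2.2
      right
      by_cases hex : ∃ p ∈ S, D a b p ≠ 0 ∧ D c d p ≠ 0
      · obtain ⟨p, hpS, hp1, hp2⟩ := hex
        refine ⟨a, b, c, d, p, hab', hcd', hp1, hp2, ?_⟩
        intro x hx
        by_contra hcon
        push Not at hcon
        exact two_long_two_extra hS hab' hcd' (fun h => hne h.symm) h8 h8' (Ne.symm hcon.1) hpS hx
          hp1 hp2 hcon.2.1 hcon.2.2
      · obtain ⟨p, hp1, hp2⟩ := exists_off_two hab' hcd'
        refine ⟨a, b, c, d, p, hab', hcd', hp1, hp2, ?_⟩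
        intro x hx
        right
        by_contra hcon
        push Not at hcon
        exact hex ⟨x, hx, hcon.1, hcon.2⟩

/-- The class of configurations without six points in general position is well-quasi-ordered. -/
theorem wqo_six : IsWqo (Cls 6) := by
  intro S hS
  let TA := (Fin 3 × SignType) × SignType × SignType
  let TB := Fin 145 ⊕ (Fin 145 → Fin 145 → SignType)
  apply coded_wqo (TA ⊕ TB) S
  intro n
  rcases structure_six (hS n) with ⟨a, b, hab, hc⟩ | ⟨a, b, c, d, p, hab, hcd, h1, h2, h3⟩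
  · exact (coded_one_line 145 (S n) a b hab hc).map Sum.inr Sum.inr_injective
  · exact (coded_two_lines (S n) a b c d p hab hcd h1 h2 h3).map Sum.inl Sum.inl_injective

end Pool.Agent.H800R3
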