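import Pool.Agent.H800R3.SliceTools

/-!
# Matrix Lie triple systems: the local part and the stopping criterion
-/

set_option autoImplicit false

namespace Pool.Agent.H800R3.LTS

open Matrix Finset

variable {K n : Type*} [Field K] [Fintype n] [DecidableEq n]

/-- `y ↦ x y - y x` -/
def adL (x : Matrix n n K) : Module.End K (Matrix n n K) :=
  LinearMap.mulLeft K x - LinearMap.mulRight K x

/-- `B` is a Lie triple system. -/
def IsLTS (B : Submodule K (Matrix n n K)) : Prop :=
  ∀ a ∈ B, ∀ b ∈ B, ∀ c ∈ B, (a * b - b * a) * c - c * (a * b - b * a) ∈ B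

/-- The elements of `B` which are annihilated by a power of `ad x`. -/
def localPart (B : Submodule K (Matrix n n K)) (x : Matrix n n K) : Submodule K (Matrix n n K) :=
  B ⊓ LinearMap.ker (adL x ^ (Fintype.card n * Fintype.card n))

/-- The generalised kernel of `x`. -/
def nilSpace (x : Matrix n n K) : Submodule K (n → K) :=
  LinearMap.ker ((x ^ Fintype.card n).mulVecLin)

theorem adL_apply (x y : Matrix n n K) : adL x y = x * y - y * x := rfl

theorem pow_mul (x y : Matrix n n K) (k : ℕ) :
    x ^ k * y = ∑ m ∈ range (k + 1), (k.choose m : K) • ((adL x ^ m) y * x ^ (k - m)) := by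
  have hL : (LinearMap.mulLeft K x) = adL x + LinearMap.mulRight K x := by
    unfold adL; abel
  have hc : Commute (adL x) (LinearMap.mulRight K x) :=
    ((LinearMap.commute_mulLeft_right x x).sub_left (Commute.refl _))
  have h1 : (LinearMap.mulLeft K x ^ k) y = x ^ k * y := by
    rw [LinearMap.pow_mulLeft]; rfl
  rw [← h1, hL, hc.add_pow, LinearMap.sum_apply]
  refine Finset.sum_congr rfl fun m _ => ?_
  have hcast : ((k.choose m : ℕ) : Module.End K (Matrix n n K)) y = (k.choose m : K) • y := by
    rw [Module.End.natCast_apply, Nat.cast_smul_eq_nsmul]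
  rw [Module.End.mul_apply, hcast, map_smul, Module.End.mul_apply, LinearMap.pow_mulRight]
  have h2 : (LinearMap.mulRight K (x ^ (k - m))) y = y * x ^ (k - m) := rfl
  rw [h2]
  congr 1
  have h3 : Commute (adL x ^ m) (LinearMap.mulRight K (x ^ (k - m))) := by
    rw [← LinearMap.pow_mulRight]
    exact hc.pow_pow m (k - m)
  exact congrFun (congrArg DFunLike.coe h3.eq) y

theorem neg_one_pow_apply (j : ℕ) (w : Matrix n n K) :
    ((-1 : Module.End K (Matrix n n K)) ^ j) w = ((-1 : K) ^ j) • w := by
  induction j generalizing w with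
  | zero => rw [pow_zero, pow_zero, one_smul]; rfl
  | succ j ih =>
    rw [pow_succ, Module.End.mul_apply, ih]
    have : (-1 : Module.End K (Matrix n n K)) w = -w := rfl
    rw [this, pow_succ, smul_neg, mul_neg_one, neg_smul]

theorem mul_pow' (x y : Matrix n n K) (k : ℕ) :
    y * x ^ k = ∑ m ∈ range (k + 1),
      ((-1) ^ m * (k.choose m : K)) • (x ^ (k - m) * (adL x ^ m) y) := by
  have hR : (LinearMap.mulRight K x) = -adL x + LinearMap.mulLeft K x := by
    unfold adL; abel
  have hc0 : Commute (adL x) (LinearMap.mulLeft K x) :=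
    ((Commute.refl _).sub_left (LinearMap.commute_mulLeft_right x x).symm)
  have hc : Commute (-adL x) (LinearMap.mulLeft K x) := hc0.neg_left
  have h1 : (LinearMap.mulRight K x ^ k) y = y * x ^ k := by
    rw [LinearMap.pow_mulRight]; rfl
  rw [← h1, hR, hc.add_pow, LinearMap.sum_apply]
  refine Finset.sum_congr rfl fun m _ => ?_
  have hcast : ((k.choose m : ℕ) : Module.End K (Matrix n n K)) y = (k.choose m : K) • y := by
    rw [Module.End.natCast_apply, Nat.cast_smul_eq_nsmul]
  rw [Module.End.mul_apply, hcast, map_smul, Module.End.mul_apply, LinearMap.pow_mulLeft,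
    neg_pow (adL x) m, Module.End.mul_apply]
  have h2 : (LinearMap.mulLeft K (x ^ (k - m))) y = x ^ (k - m) * y := rfl
  have h3 : Commute (adL x ^ m) (LinearMap.mulLeft K (x ^ (k - m))) := by
    rw [← LinearMap.pow_mulLeft]
    exact hc0.pow_pow m (k - m)
  have h4 : (adL x ^ m) (x ^ (k - m) * y) = x ^ (k - m) * (adL x ^ m) y := by
    exact congrFun (congrArg DFunLike.coe h3.eq) y
  rw [h2, h4]
  have h5 : ((-1 : Module.End K (Matrix n n K)) ^ m) (x ^ (k - m) * (adL x ^ m) y) =
      ((-1 : K) ^ m) • (x ^ (k - m) * (adL x ^ m) y) := by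
    exact neg_one_pow_apply m _
  rw [h5, smul_smul, mul_comm]

theorem mulVecLin_pow (x : Matrix n n K) (k : ℕ) :
    (x ^ k).mulVecLin = ((Matrix.mulVecLin x) ^ k : Module.End K (n → K)) := by
  induction k with
  | zero => rw [pow_zero, pow_zero, Matrix.mulVecLin_one]; rfl
  | succ k ih => rw [pow_succ, Matrix.mulVecLin_mul, ih, pow_succ]; rfl

theorem ker_pow_stable (x : Matrix n n K) {k : ℕ} {v : n → K} (h : (x ^ k) *ᵥ v = 0) :
    v ∈ nilSpace x := by
  have h1 : v ∈ LinearMap.ker ((Matrix.mulVecLin x) ^ k : Module.End K (n → K)) := by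
    rw [LinearMap.mem_ker, ← mulVecLin_pow]
    exact h
  have h2 := Module.End.ker_pow_le_ker_pow_finrank (Matrix.mulVecLin x) k h1
  rw [Module.finrank_fintype_fun_eq_card, LinearMap.mem_ker, ← mulVecLin_pow] at h2
  exact h2

theorem mem_nilSpace (x : Matrix n n K) (v : n → K) :
    v ∈ nilSpace x ↔ (x ^ Fintype.card n) *ᵥ v = 0 := Iff.rfl

theorem adL_stable (x : Matrix n n K) {k : ℕ} {y : Matrix n n K} (h : (adL x ^ k) y = 0) :
    (adL x ^ (Fintype.card n * Fintype.card n)) y = 0 := by
  have h2 := Module.End.ker_pow_le_ker_pow_finrank (adL x) k (LinearMap.mem_ker.2 h)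
  rw [Module.finrank_matrix, Module.finrank_self, mul_one] at h2
  exact h2

/-- Elements of the local part preserve the generalised kernel of `x`. -/
theorem mapsTo_nilSpace {x y : Matrix n n K} {M : ℕ} (hy : (adL x ^ M) y = 0) {v : n → K}
    (hv : v ∈ nilSpace x) : y *ᵥ v ∈ nilSpace x := by
  apply ker_pow_stable x (k := M + Fintype.card n)
  rw [Matrix.mulVec_mulVec, pow_mul, Matrix.sum_mulVec]
  refine Finset.sum_eq_zero fun m hm => ?_
  rw [Matrix.smul_mulVec, ← Matrix.mulVec_mulVec]
  rw [Finset.mem_range] at hm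
  by_cases h : M ≤ m
  · have : (adL x ^ m) y = 0 := by
      rw [← Nat.sub_add_cancel h, pow_add, Module.End.mul_apply, hy, map_zero]
    rw [this, Matrix.zero_mulVec, smul_zero]
  · have h1 : M + Fintype.card n - m = (M - m) + Fintype.card n := by omega
    have h2 : (x ^ (M + Fintype.card n - m)) *ᵥ v = 0 := by
      rw [h1, pow_add, ← Matrix.mulVec_mulVec, (mem_nilSpace x v).1 hv, Matrix.mulVec_zero]
    rw [h2, Matrix.mulVec_zero, smul_zero]

/-- The local part complements the tangent space of the orbit. -/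
theorem sliceAt {B : Submodule K (Matrix n n K)} (hB : IsLTS B) {x : Matrix n n K} (hx : x ∈ B) :
    Slice.SliceAt B (localPart B x) x := by
  have hmaps : ∀ y ∈ B, (adL x ^ 2) y ∈ B := by
    intro y hy
    have : (adL x ^ 2) y = (x * y - y * x) * (-x) - (-x) * (x * y - y * x) := by
      rw [pow_two, Module.End.mul_apply, adL_apply, adL_apply]
      noncomm_ring
    rw [this]
    exact hB x hx y hy (-x) (B.neg_mem hx)
  let f : Module.End K B := (adL x ^ 2).restrict hmaps
  have hf : ∀ (k : ℕ) (b : B), ((f ^ k) b : Matrix n n K) = (adL x ^ (2 * k)) b := by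
    intro k
    induction k with
    | zero => intro b; simp
    | succ k ih =>
      intro b
      rw [pow_succ, Module.End.mul_apply, ih, Nat.mul_succ, pow_add, Module.End.mul_apply]
      rfl
  obtain ⟨k, hk⟩ := (Filter.eventually_atTop.1 f.eventually_isCompl_ker_pow_range_pow)
  have hcompl := hk (k + 1) (Nat.le_succ k)
  intro b hb
  have htop : (⟨b, hb⟩ : B) ∈ LinearMap.ker (f ^ (k + 1)) ⊔ LinearMap.range (f ^ (k + 1)) := by
    rw [hcompl.sup_eq_top]; trivial
  obtain ⟨b0, hb0, b1, ⟨w, rfl⟩, hsum⟩ := Submodule.mem_sup.1 htop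
  set w' : B := (f ^ k) w with hw'
  have h1 : ((f ^ (k + 1)) w : Matrix n n K) = x * (x * w' - w' * x) - (x * w' - w' * x) * x := by
    rw [pow_succ', Module.End.mul_apply]
    show (adL x ^ 2) (w' : Matrix n n K) = _
    rw [pow_two, Module.End.mul_apply, adL_apply, adL_apply]
  refine ⟨b0, ⟨b0.2, ?_⟩, -(x * w' - w' * x), -(x * w' - w' * x), fun y hy => ?_, ?_⟩
  · apply adL_stable x (k := 2 * (k + 1))
    rw [← hf, LinearMap.mem_ker.1 hb0]
    rfl
  · have := B.neg_mem (hB x hx w' w'.2 y hy)
    convert this using 1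
    noncomm_ring
  · have h2 : b = (b0 : Matrix n n K) + ((f ^ (k + 1)) w : Matrix n n K) := by
      have := congrArg (fun q : B => (q : Matrix n n K)) hsum
      exact this.symm
    rw [h2, h1]
    noncomm_ring

theorem self_mem_localPart {B : Submodule K (Matrix n n K)} {x : Matrix n n K} (hx : x ∈ B) :
    x ∈ localPart B x := by
  refine ⟨hx, adL_stable x (k := 1) ?_⟩
  rw [pow_one, adL_apply, sub_self]

/-- **Stopping criterion**: if `x ∈ B` is singular and all elements of the local part of `B` at `x`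
act nilpotently on the generalised kernel of `x`, then all elements of `B` are singular. -/
theorem stop [CharZero K] {B : Submodule K (Matrix n n K)} (hB : IsLTS B) {x : Matrix n n K}
    (hx : x ∈ B) (h0 : nilSpace x ≠ ⊥)
    (hnil : ∀ y ∈ localPart B x, ∀ v ∈ nilSpace x, (y ^ Fintype.card n) *ᵥ v = 0) :
    ∀ b ∈ B, b.det = 0 := by
  refine Slice.slice inf_le_left hx (sliceAt hB hx) fun s hs => ?_
  obtain ⟨v, hv, hv0⟩ := Submodule.exists_mem_ne_zero_of_ne_bot h0
  have h1 := hnil (x + s) ((localPart B x).add_mem (self_mem_localPart hx) hs) v hv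
  have h2 : ((x + s) ^ Fintype.card n).det = 0 := by
    rw [← Matrix.exists_mulVec_eq_zero_iff]
    exact ⟨v, hv0, h1⟩
  rw [Matrix.det_pow] at h2
  exact eq_zero_of_pow_eq_zero h2

end Pool.Agent.H800R3.LTS
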