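import Pool.Agent.H800R3.NilTest

/-!
# Nilpotency test for Lie triple systems of endomorphisms
-/

set_option autoImplicit false

namespace Pool.Agent.H800R3.NilTest

open LieModule

attribute [local instance 100] LieRing.ofAssociativeRing

variable {K : Type*} [Field K] {W : Type*} [AddCommGroup W] [Module K W]

/-- Lie triple system of endomorphisms -/
def IsLTS (T : Submodule K (Module.End K W)) : Prop :=
  ∀ a ∈ T, ∀ b ∈ T, ∀ c ∈ T, (a * b - b * a) * c - c * (a * b - b * a) ∈ T

/-- span of the commutators -/
def comm (T : Submodule K (Module.End K W)) : Submodule K (Module.End K W) :=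
  Submodule.span K {k | ∃ a ∈ T, ∃ b ∈ T, k = a * b - b * a}

theorem comm_T {T : Submodule K (Module.End K W)} (hT : IsLTS T) {k a : Module.End K W}
    (hk : k ∈ comm T) (ha : a ∈ T) : k * a - a * k ∈ T := by
  unfold comm at hk
  induction hk using Submodule.span_induction with
  | mem k hk =>
    obtain ⟨b, hb, c, hc, rfl⟩ := hk
    exact hT b hb c hc a ha
  | zero => simp
  | add x y _ _ hx hy =>
    have := T.add_mem hx hy
    convert this using 1
    noncomm_ring
  | smul c x _ hx =>
    rw [smul_mul_assoc, mul_smul_comm, ← smul_sub]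
    exact T.smul_mem c hx

theorem mem_comm {T : Submodule K (Module.End K W)} {a b : Module.End K W} (ha : a ∈ T)
    (hb : b ∈ T) : a * b - b * a ∈ comm T := Submodule.subset_span ⟨a, ha, b, hb, rfl⟩

theorem comm_comm {T : Submodule K (Module.End K W)} (hT : IsLTS T) {k l : Module.End K W}
    (hk : k ∈ comm T) (hl : l ∈ comm T) : k * l - l * k ∈ comm T := by
  unfold comm at hl
  induction hl using Submodule.span_induction with
  | mem l hl =>
    obtain ⟨a, ha, b, hb, rfl⟩ := hl
    have h1 := mem_comm (comm_T hT hk ha) hb
    have h2 := mem_comm ha (comm_T hT hk hb)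
    convert (comm T).add_mem h1 h2 using 1
    noncomm_ring
  | zero => simp
  | add x y _ _ hx hy =>
    have := (comm T).add_mem hx hy
    convert this using 1
    noncomm_ring
  | smul c x _ hx =>
    rw [smul_mul_assoc, mul_smul_comm, ← smul_sub]
    exact (comm T).smul_mem c hx

theorem prodMap_mul' (a b c d : Module.End K W) :
    (LinearMap.prodMap a b : Module.End K (W × W)) * LinearMap.prodMap c d =
      LinearMap.prodMap (a * c) (b * d) := rfl

theorem prodMap_sub' (a b c d : Module.End K W) :
    (LinearMap.prodMap a b : Module.End K (W × W)) - LinearMap.prodMap c d =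
      LinearMap.prodMap (a - c) (b - d) := rfl

/-- The Lie algebra `{(k + a, k - a)}` acting on `W × W`. -/
def dbl (T : Submodule K (Module.End K W)) (hT : IsLTS T) :
    LieSubalgebra K (Module.End K (W × W)) where
  carrier := {g | ∃ k ∈ comm T, ∃ a ∈ T, g = LinearMap.prodMap (k + a) (k - a)}
  zero_mem' := ⟨0, (comm T).zero_mem, 0, T.zero_mem, by simp⟩
  add_mem' := by
    rintro _ _ ⟨k, hk, a, ha, rfl⟩ ⟨l, hl, b, hb, rfl⟩
    refine ⟨k + l, (comm T).add_mem hk hl, a + b, T.add_mem ha hb, ?_⟩
    apply LinearMap.ext
    rintro ⟨u, v⟩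
    show ((k + a) u + (l + b) u, (k - a) v + (l - b) v) =
      ((k + l + (a + b)) u, (k + l - (a + b)) v)
    simp only [LinearMap.add_apply, LinearMap.sub_apply]
    congr 1 <;> abel
  smul_mem' := by
    rintro c _ ⟨k, hk, a, ha, rfl⟩
    refine ⟨c • k, (comm T).smul_mem c hk, c • a, T.smul_mem c ha, ?_⟩
    apply LinearMap.ext
    rintro ⟨u, v⟩
    show (c • (k + a) u, c • (k - a) v) = ((c • k + c • a) u, (c • k - c • a) v)
    simp only [LinearMap.add_apply, LinearMap.sub_apply, LinearMap.smul_apply, smul_add, smul_sub]
  lie_mem' := by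
    rintro _ _ ⟨k, hk, a, ha, rfl⟩ ⟨l, hl, b, hb, rfl⟩
    refine ⟨(k * l - l * k) + (a * b - b * a),
      (comm T).add_mem (comm_comm hT hk hl) (mem_comm ha hb),
      (k * b - b * k) - (l * a - a * l),
      T.sub_mem (comm_T hT hk hb) (comm_T hT hl ha), ?_⟩
    rw [LieRing.of_associative_ring_bracket, prodMap_mul', prodMap_mul', prodMap_sub']
    congr 1 <;> noncomm_ring

variable [FiniteDimensional K W]

theorem trace_prod (a b : Module.End K W) :
    LinearMap.trace K (W × W) (LinearMap.prodMap a b) =
      LinearMap.trace K W a + LinearMap.trace K W b := by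
  have := LinearMap.congr_fun (LinearMap.trace_prodMap K W W) (a, b)
  exact this

/-- **Nilpotency test**: a Lie triple system of endomorphisms of a finite-dimensional space over a
field of characteristic zero consists of nilpotent elements if the elements `e i` and `e i + e j`
of a spanning family `e` are nilpotent. -/
theorem nil_test [CharZero K] {T : Submodule K (Module.End K W)} (hT : IsLTS T) {ι : Type*}
    (e : ι → Module.End K W) (he : Submodule.span K (Set.range e) = T)
    (h1 : ∀ i, IsNilpotent (e i)) (h2 : ∀ i j, IsNilpotent (e i + e j)) :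
    ∀ a ∈ T, IsNilpotent a := by
  have hsq : ∀ f : Module.End K W, IsNilpotent f → LinearMap.trace K W (f * f) = 0 := by
    intro f hf
    have : IsNilpotent (f * f) := (Commute.refl f).isNilpotent_mul_left hf
    exact (LinearMap.isNilpotent_trace_of_isNilpotent this).eq_zero
  have hee : ∀ i j, LinearMap.trace K W (e i * e j) = 0 := by
    intro i j
    have h3 := hsq _ (h2 i j)
    have h4 : (e i + e j) * (e i + e j) = e i * e i + e j * e j + (e i * e j + e j * e i) := by
      noncomm_ring
    rw [h4, map_add, map_add, hsq _ (h1 i), hsq _ (h1 j), zero_add, zero_add, map_add,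
      LinearMap.trace_mul_comm K (e j) (e i), ← two_mul] at h3
    exact (mul_eq_zero.1 h3).resolve_left two_ne_zero
  have hTT : ∀ a ∈ T, ∀ b ∈ T, LinearMap.trace K W (a * b) = 0 := by
    intro a ha b hb
    rw [← he] at ha hb
    induction ha using Submodule.span_induction with
    | mem a ha =>
      obtain ⟨i, rfl⟩ := ha
      induction hb using Submodule.span_induction with
      | mem b hb => obtain ⟨j, rfl⟩ := hb; exact hee i j
      | zero => rw [mul_zero, map_zero]
      | add x y _ _ hx hy => rw [mul_add, map_add, hx, hy, add_zero]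
      | smul c x _ hx => rw [mul_smul_comm, map_smul, hx, smul_zero]
    | zero => rw [zero_mul, map_zero]
    | add x y _ _ hx hy => rw [add_mul, map_add, hx, hy, add_zero]
    | smul c x _ hx => rw [smul_mul_assoc, map_smul, hx, smul_zero]
  have hkk : ∀ k ∈ comm T, ∀ l ∈ comm T, LinearMap.trace K W (k * l) = 0 := by
    intro k hk l hl
    unfold comm at hl
    induction hl using Submodule.span_induction with
    | mem l hl =>
      obtain ⟨a, ha, b, hb, rfl⟩ := hl
      have h3 : LinearMap.trace K W (k * (a * b - b * a)) =
          LinearMap.trace K W ((k * a - a * k) * b) := by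
        rw [mul_sub, sub_mul, map_sub, map_sub]
        congr 1
        rw [mul_assoc a k b, LinearMap.trace_mul_comm K a (k * b), mul_assoc]
      rw [h3]
      exact hTT _ (comm_T hT hk ha) b hb
    | zero => rw [mul_zero, map_zero]
    | add x y _ _ hx hy => rw [mul_add, map_add, hx, hy, add_zero]
    | smul c x _ hx => rw [mul_smul_comm, map_smul, hx, smul_zero]
  -- the doubled Lie algebra has zero trace form
  have htr : traceForm K (dbl T hT) (W × W) = 0 := by
    apply LinearMap.ext
    rintro ⟨_, k, hk, a, ha, rfl⟩
    apply LinearMap.ext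
    rintro ⟨_, l, hl, b, hb, rfl⟩
    rw [traceForm_apply_apply]
    show LinearMap.trace K (W × W) (LinearMap.prodMap ((k + a) * (l + b)) ((k - a) * (l - b))) = 0
    rw [trace_prod, ← map_add]
    have h3 : (k + a) * (l + b) + (k - a) * (l - b) = (2 : K) • (k * l) + (2 : K) • (a * b) := by
      rw [two_smul, two_smul]
      noncomm_ring
    rw [h3, map_add, map_smul, map_smul, hkk k hk l hl, hTT a ha b hb, smul_zero, add_zero]
  have hder := isNilpotent_derivedSeries_of_traceForm_eq_zero (R := K) htr
  rw [LieModule.isNilpotent_iff_forall' (R := K)] at hder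
  -- generators
  intro a ha
  have hmem : ∀ b ∈ T, (LinearMap.prodMap b (-b) : Module.End K (W × W)) ∈ dbl T hT := by
    intro b hb
    exact ⟨0, (comm T).zero_mem, b, hb, by rw [zero_add, zero_sub]⟩
  let s : ι → dbl T hT := fun i => ⟨LinearMap.prodMap (e i) (-(e i)),
    hmem (e i) (he ▸ Submodule.subset_span ⟨i, rfl⟩)⟩
  have hpow : ∀ (b : Module.End K W) (m : ℕ),
      (LinearMap.prodMap b (-b) : Module.End K (W × W)) ^ m = LinearMap.prodMap (b ^ m) ((-b) ^ m) := by
    intro b m
    induction m with
    | zero => rfl
    | succ m ih => rw [pow_succ, ih, prodMap_mul', pow_succ, pow_succ]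
  have hS : ∀ x ∈ Set.range s, IsNilpotent (toEnd K (dbl T hT) (W × W) x) := by
    rintro _ ⟨i, rfl⟩
    obtain ⟨m, hm⟩ := h1 i
    refine ⟨m, ?_⟩
    show (LinearMap.prodMap (e i) (-(e i)) : Module.End K (W × W)) ^ m = 0
    rw [hpow, neg_pow, hm, mul_zero]
    rfl
  have hspan : (⟨LinearMap.prodMap a (-a), hmem a ha⟩ : dbl T hT) ∈
      Submodule.span K (Set.range s) := by
    have key : ∀ b (hb : b ∈ Submodule.span K (Set.range e)) (hb' : b ∈ T),
        (⟨LinearMap.prodMap b (-b), hmem b hb'⟩ : dbl T hT) ∈
          Submodule.span K (Set.range s) := by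
      intro b hb
      induction hb using Submodule.span_induction with
      | mem b hb => obtain ⟨i, rfl⟩ := hb; intro _; exact Submodule.subset_span ⟨i, rfl⟩
      | zero =>
        intro _
        convert Submodule.zero_mem _ using 1
        apply Subtype.ext
        apply LinearMap.ext
        rintro ⟨u, v⟩
        show ((0 : Module.End K W) u, (-(0 : Module.End K W)) v) = 0
        simp
      | add x y hx0 hy0 hx hy =>
        intro _
        have hxT : x ∈ T := he ▸ hx0
        have hyT : y ∈ T := he ▸ hy0
        convert Submodule.add_mem _ (hx hxT) (hy hyT) using 1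
        apply Subtype.ext
        apply LinearMap.ext
        rintro ⟨u, v⟩
        show ((x + y) u, (-(x + y)) v) = (x u + y u, (-x) v + (-y) v)
        simp only [LinearMap.add_apply, LinearMap.neg_apply]
        congr 1
        abel
      | smul c x hx0 hx =>
        intro _
        have hxT : x ∈ T := he ▸ hx0
        convert Submodule.smul_mem _ c (hx hxT) using 1
        apply Subtype.ext
        apply LinearMap.ext
        rintro ⟨u, v⟩
        show ((c • x) u, (-(c • x)) v) = (c • x u, c • (-x) v)
        simp only [LinearMap.smul_apply, LinearMap.neg_apply, smul_neg]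
    exact key a (by rw [he]; exact ha) ha
  obtain ⟨m, hm⟩ := nil_span (LieAlgebra.derivedSeries K (dbl T hT) 1)
    (fun x y => by
      rw [LieAlgebra.derivedSeries_def, LieAlgebra.derivedSeriesOfIdeal_succ,
        LieAlgebra.derivedSeriesOfIdeal_zero]
      exact LieSubmodule.lie_mem_lie (LieSubmodule.mem_top x) (LieSubmodule.mem_top y))
    (Set.range s) _ (W × W) rfl (fun x hx => hder ⟨x, hx⟩) hS _ hspan
  refine ⟨m, ?_⟩
  have hm' : (LinearMap.prodMap a (-a) : Module.End K (W × W)) ^ m = 0 := hm
  rw [hpow] at hm'
  apply LinearMap.ext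
  intro u
  have := LinearMap.congr_fun hm' (u, 0)
  exact congrArg Prod.fst this

end Pool.Agent.H800R3.NilTest
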