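import Pool.Agent.H800R3.Aug
import Pool.Agent.H800R3.NilTest2

/-!
# Matrix Lie triple systems: the finite test
-/

set_option autoImplicit false

namespace Pool.Agent.H800R3.LTS

open Matrix Finset

attribute [local instance 100] LieRing.ofAssociativeRing

variable {K n : Type*} [Field K] [Fintype n] [DecidableEq n]

theorem adL_eq_ad (x : Matrix n n K) : adL x = LieAlgebra.ad K (Matrix n n K) x := by
  apply LinearMap.ext
  intro y
  rw [adL_apply, LieAlgebra.ad_apply, LieRing.of_associative_ring_bracket]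

theorem localPart_triple {B : Submodule K (Matrix n n K)} (hB : IsLTS B) (x : Matrix n n K) :
    IsLTS (localPart B x) := by
  intro a ha b hb c hc
  refine ⟨hB a ha.1 b hb.1 c hc.1, ?_⟩
  have h : ∀ y ∈ localPart B x, y ∈ LieSubalgebra.engel K x := by
    intro y hy
    rw [LieSubalgebra.mem_engel_iff]
    exact ⟨_, by rw [← adL_eq_ad]; exact hy.2⟩
  have h1 := (LieSubalgebra.engel K x).lie_mem
    ((LieSubalgebra.engel K x).lie_mem (h a ha) (h b hb)) (h c hc)
  rw [LieSubalgebra.mem_engel_iff] at h1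
  obtain ⟨k, hk⟩ := h1
  rw [← adL_eq_ad] at hk
  exact adL_stable x hk

/-- Restriction of the local part to the generalised kernel. -/
def rho (B : Submodule K (Matrix n n K)) (x : Matrix n n K) :
    localPart B x →ₗ[K] Module.End K (nilSpace x) where
  toFun y := (Matrix.mulVecLin (y : Matrix n n K)).restrict fun _ hv => mapsTo_nilSpace y.2.2 hv
  map_add' a b := by
    apply LinearMap.ext
    intro v
    apply Subtype.ext
    exact Matrix.add_mulVec _ _ _
  map_smul' c a := by
    apply LinearMap.ext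
    intro v
    apply Subtype.ext
    exact Matrix.smul_mulVec _ _ _

theorem rho_apply (B : Submodule K (Matrix n n K)) (x : Matrix n n K) (y : localPart B x)
    (v : nilSpace x) : ((rho B x y v : nilSpace x) : n → K) = (y : Matrix n n K) *ᵥ (v : n → K) :=
  rfl

theorem rho_pow (B : Submodule K (Matrix n n K)) (x : Matrix n n K) (y : localPart B x) (k : ℕ) :
    ∀ v : nilSpace x, (((rho B x y ^ k) v : nilSpace x) : n → K) =
      ((y : Matrix n n K) ^ k) *ᵥ (v : n → K) := by
  induction k with
  | zero => intro v; rw [pow_zero, pow_zero, Matrix.one_mulVec]; rfl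
  | succ k ih =>
    intro v
    rw [pow_succ, Module.End.mul_apply, ih, rho_apply, Matrix.mulVec_mulVec, ← pow_succ]

theorem isNilpotent_rho (B : Submodule K (Matrix n n K)) (x : Matrix n n K) (y : localPart B x) :
    IsNilpotent (rho B x y) ↔
      ∀ v ∈ nilSpace x, ((y : Matrix n n K) ^ Fintype.card n) *ᵥ v = 0 := by
  constructor
  · rintro ⟨k, hk⟩ v hv
    have h1 := rho_pow B x y k ⟨v, hv⟩
    rw [hk] at h1
    exact (mem_nilSpace _ _).1 (ker_pow_stable (y : Matrix n n K) h1.symm)
  · intro h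
    refine ⟨Fintype.card n, LinearMap.ext fun v => Subtype.ext ?_⟩
    rw [rho_pow]
    exact h v v.2

/-- **The finite test**: it suffices to test the elements and the sums of two elements of a
spanning family of the local part. -/
theorem test [CharZero K] {B : Submodule K (Matrix n n K)} (hB : IsLTS B) (x : Matrix n n K)
    {ι : Type*} (Y : ι → Matrix n n K) (hY : Submodule.span K (Set.range Y) = localPart B x)
    (h1 : ∀ i, ∀ v ∈ nilSpace x, (Y i ^ Fintype.card n) *ᵥ v = 0)
    (h2 : ∀ i j, ∀ v ∈ nilSpace x, ((Y i + Y j) ^ Fintype.card n) *ᵥ v = 0) :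
    ∀ y ∈ localPart B x, ∀ v ∈ nilSpace x, (y ^ Fintype.card n) *ᵥ v = 0 := by
  have hmem : ∀ i, Y i ∈ localPart B x := fun i => hY ▸ Submodule.subset_span ⟨i, rfl⟩
  have hT : NilTest.IsLTS (LinearMap.range (rho B x)) := by
    rintro _ ⟨⟨a, ha⟩, rfl⟩ _ ⟨⟨b, hb⟩, rfl⟩ _ ⟨⟨c, hc⟩, rfl⟩
    refine ⟨⟨_, localPart_triple hB x a ha b hb c hc⟩, ?_⟩
    apply LinearMap.ext
    intro v
    apply Subtype.ext
    rw [rho_apply]
    show ((a * b - b * a) * c - c * (a * b - b * a)) *ᵥ (v : n → K) =
      (a *ᵥ (b *ᵥ (c *ᵥ (v : n → K))) - b *ᵥ (a *ᵥ (c *ᵥ (v : n → K)))) -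
        c *ᵥ (a *ᵥ (b *ᵥ (v : n → K)) - b *ᵥ (a *ᵥ (v : n → K)))
    rw [Matrix.mulVec_sub]
    simp only [Matrix.mulVec_mulVec]
    rw [← Matrix.sub_mulVec, ← Matrix.sub_mulVec, ← Matrix.sub_mulVec]
    congr 1
    noncomm_ring
  have he : Submodule.span K (Set.range fun i => rho B x ⟨Y i, hmem i⟩) =
      LinearMap.range (rho B x) := by
    apply le_antisymm
    · rw [Submodule.span_le]
      rintro _ ⟨i, rfl⟩
      exact ⟨_, rfl⟩
    · rintro _ ⟨⟨y, hy⟩, rfl⟩
      have key : ∀ y (_ : y ∈ Submodule.span K (Set.range Y)) (hy : y ∈ localPart B x),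
          rho B x ⟨y, hy⟩ ∈ Submodule.span K (Set.range fun i => rho B x ⟨Y i, hmem i⟩) := by
        intro y hy
        induction hy using Submodule.span_induction with
        | mem y hy => obtain ⟨i, rfl⟩ := hy; intro _; exact Submodule.subset_span ⟨i, rfl⟩
        | zero =>
          intro h
          have : (⟨0, h⟩ : localPart B x) = 0 := rfl
          rw [this, map_zero]
          exact Submodule.zero_mem _
        | add a b ha hb iha ihb =>
          intro h
          rw [hY] at ha hb
          have : (⟨a + b, h⟩ : localPart B x) = ⟨a, ha⟩ + ⟨b, hb⟩ := rfl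
          rw [this, map_add]
          exact Submodule.add_mem _ (iha ha) (ihb hb)
        | smul c a ha iha =>
          intro h
          rw [hY] at ha
          have : (⟨c • a, h⟩ : localPart B x) = c • ⟨a, ha⟩ := rfl
          rw [this, map_smul]
          exact Submodule.smul_mem _ c (iha ha)
      exact key y (by rw [hY]; exact hy) hy
  intro y hy
  refine (isNilpotent_rho B x ⟨y, hy⟩).1 ?_
  refine NilTest.nil_test hT (fun i => rho B x ⟨Y i, hmem i⟩) he (fun i => ?_) (fun i j => ?_)
    _ ⟨_, rfl⟩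
  · exact (isNilpotent_rho B x ⟨Y i, hmem i⟩).2 (h1 i)
  · have h3 := (isNilpotent_rho B x ⟨Y i + Y j, (localPart B x).add_mem (hmem i) (hmem j)⟩).2
      (h2 i j)
    have h4 : (⟨Y i + Y j, (localPart B x).add_mem (hmem i) (hmem j)⟩ : localPart B x) =
      ⟨Y i, hmem i⟩ + ⟨Y j, hmem j⟩ := rfl
    rw [h4, map_add] at h3
    exact h3

/-- Rounding of one coefficient. -/
theorem round [CharZero K] {σ : Type*} [Fintype σ] [DecidableEq σ] (B : σ → Matrix n n K)
    (c : σ → K) (i : σ) :
    ∃ m : ℕ, m ≤ Fintype.card n ∧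
      Module.finrank K (nilSpace (∑ j, Function.update c i (m : K) j • B j)) ≤
        Module.finrank K (nilSpace (∑ j, c j • B j)) := by
  have hsum : ∀ t : K, ∑ j, Function.update c i t j • B j =
      (∑ j ∈ univ.erase i, c j • B j) + t • B i := by
    intro t
    rw [← Finset.sum_erase_add _ _ (Finset.mem_univ i), Function.update_self]
    congr 1
    refine Finset.sum_congr rfl fun j hj => ?_
    rw [Function.update_of_ne (Finset.ne_of_mem_erase hj)]
  have h0 : ∑ j, c j • B j = (∑ j ∈ univ.erase i, c j • B j) + c i • B i := by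
    rw [Finset.sum_erase_add _ _ (Finset.mem_univ i)]
  obtain ⟨m, hm, hm2⟩ := small_point (∑ j ∈ univ.erase i, c j • B j) (B i)
    (Module.finrank K (nilSpace (∑ j, c j • B j)) + 1) (c i) (by rw [← h0]; exact Nat.lt_succ_self _)
  exact ⟨m, hm, by rw [hsum]; exact Nat.lt_succ_iff.1 hm2⟩

end Pool.Agent.H800R3.LTS
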