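import Mathlib

/-!
Strict local minima of quadratic functions on the hypercube: at most `n.choose (n / 2)`.
Kleitman-type induction along a symmetric chain pattern adapted to the quadratic form.
-/

namespace Pool.Agent.H800R3.LM

open Finset

variable {n : ℕ}

/-- the sign of coordinate `i` -/
def x (S : Finset (Fin n)) (i : Fin n) : ℝ := if i ∈ S then 1 else -1

/-- central window sums of binomial coefficients -/
def T (m s : ℕ) : ℕ :=
  ∑ k ∈ Finset.range (m + 1), if m ≤ 2 * k + s ∧ 2 * k < m + s then m.choose k else 0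

lemma T_zero (s : ℕ) (hs : 1 ≤ s) : T 0 s = 1 := by
  unfold T
  rw [Finset.sum_range_one, if_pos ⟨by omega, by omega⟩]
  simp

lemma T_one (m : ℕ) : T m 1 = m.choose (m / 2) := by
  unfold T
  rw [Finset.sum_eq_single (m / 2)]
  · rw [if_pos ⟨by omega, by omega⟩]
  · intro k _ hk
    rw [if_neg]
    rintro ⟨h1, h2⟩
    omega
  · intro h
    rw [Finset.mem_range] at h
    omega

lemma T_rec (m s : ℕ) (hs : 1 ≤ s) : T m (s + 1) + T m (s - 1) ≤ T (m + 1) s := by
  have h1 : T (m + 1) s = (∑ k ∈ Finset.range (m + 1),
      if m + 1 ≤ 2 * (k + 1) + s ∧ 2 * (k + 1) < m + 1 + s then m.choose k else 0) +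
      ∑ k ∈ Finset.range (m + 1), if m + 1 ≤ 2 * k + s ∧ 2 * k < m + 1 + s then m.choose k else 0 := by
    unfold T
    rw [Finset.sum_range_succ' _ (m + 1)]
    have h2 : ∀ k ∈ Finset.range (m + 1),
        (if m + 1 ≤ 2 * (k + 1) + s ∧ 2 * (k + 1) < m + 1 + s then (m + 1).choose (k + 1) else 0) =
        (if m + 1 ≤ 2 * (k + 1) + s ∧ 2 * (k + 1) < m + 1 + s then m.choose k else 0) +
        (if m + 1 ≤ 2 * (k + 1) + s ∧ 2 * (k + 1) < m + 1 + s then m.choose (k + 1) else 0) := by
      intro k _
      split_ifs with h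
      · rw [Nat.choose_succ_succ]
      · rfl
    rw [Finset.sum_congr rfl h2, Finset.sum_add_distrib, add_assoc]
    congr 1
    have h3 : (if m + 1 ≤ 2 * 0 + s ∧ 2 * 0 < m + 1 + s then (m + 1).choose 0 else 0) =
        (if m + 1 ≤ 2 * 0 + s ∧ 2 * 0 < m + 1 + s then m.choose 0 else 0) := by simp
    rw [h3, ← Finset.sum_range_succ' (fun k => if m + 1 ≤ 2 * k + s ∧ 2 * k < m + 1 + s then
      m.choose k else 0) (m + 1), Finset.sum_range_succ]
    simp
  rw [h1]
  unfold T
  rw [← Finset.sum_add_distrib, ← Finset.sum_add_distrib]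
  apply Finset.sum_le_sum
  intro k _
  split_ifs <;> omega

/-- Two distinct points are incompatible for the matrix `M`. -/
def Inc (M : Fin n → Fin n → ℝ) (S S' : Finset (Fin n)) : Prop :=
  ∃ i, x S i ≠ x S' i ∧ 0 ≤ x S i * ∑ l, M i l * (x S l - x S' l)

lemma x_cases (S : Finset (Fin n)) (i : Fin n) : x S i = 1 ∨ x S i = -1 := by
  unfold x; split_ifs <;> simp

lemma x_neg_of_ne {S S' : Finset (Fin n)} {i : Fin n} (h : x S i ≠ x S' i) : x S' i = - x S i := by
  rcases x_cases S i with h1 | h1 <;> rcases x_cases S' i with h2 | h2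
  · exact absurd (h1.trans h2.symm) h
  · rw [h1, h2]
  · rw [h1, h2]; norm_num
  · exact absurd (h1.trans h2.symm) h

lemma Inc.symm {M : Fin n → Fin n → ℝ} {S S' : Finset (Fin n)} (h : Inc M S S') : Inc M S' S := by
  obtain ⟨i, h1, h2⟩ := h
  refine ⟨i, fun h => h1 h.symm, ?_⟩
  rw [x_neg_of_ne h1]
  have : ∑ l, M i l * (x S' l - x S l) = - ∑ l, M i l * (x S l - x S' l) := by
    rw [← Finset.sum_neg_distrib]
    refine Finset.sum_congr rfl fun l _ => by ring
  rw [this]
  linarith

lemma x_inj {S S' : Finset (Fin n)} (h : ∀ i, x S i = x S' i) : S = S' := by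
  ext i
  have := h i
  unfold x at this
  by_cases h1 : i ∈ S <;> by_cases h2 : i ∈ S' <;> simp_all <;> norm_num at this

/-- main induction -/
lemma main_aux {M : Fin n → Fin n → ℝ} (hM : ∀ i, M i i = 0) (X : Finset (Finset (Fin n)))
    (hX : ∀ S ∈ X, ∀ S' ∈ X, S ≠ S' → ¬ Inc M S S') (m : ℕ) :
    ∀ j : ℕ, j + m = n → ∀ D : Finset (Finset (Fin n)),
      (∀ u ∈ D, ∀ i ∈ u, (i : ℕ) < j) →
      (∀ u ∈ D, ∀ v ∈ D, u ≠ v → Inc M u v) →
      (X.filter (fun S => ∃ u ∈ D, ∀ i : Fin n, (i : ℕ) < j → (i ∈ S ↔ i ∈ u))).card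
        ≤ T m D.card := by
  induction m with
  | zero =>
    intro j hj D hD1 hD2
    have hjn : j = n := by omega
    subst hjn
    have hsub : ∀ S ∈ X.filter (fun S => ∃ u ∈ D, ∀ i : Fin j, (i : ℕ) < j → (i ∈ S ↔ i ∈ u)),
        S ∈ X ∧ S ∈ D := by
      intro S hS
      rw [Finset.mem_filter] at hS
      obtain ⟨h1, u, hu, h2⟩ := hS
      have : S = u := Finset.ext fun i => h2 i i.2
      exact ⟨h1, this ▸ hu⟩
    rcases Nat.eq_zero_or_pos D.card with h0 | h0
    · have hDe : D = ∅ := Finset.card_eq_zero.mp h0
      rw [Finset.card_eq_zero.mpr]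
      · exact Nat.zero_le _
      · rw [Finset.eq_empty_iff_forall_notMem]
        intro S hS
        have := (hsub S hS).2
        rw [hDe] at this
        simp at this
    · rw [T_zero _ h0]
      rw [Finset.card_le_one]
      intro S hS S' hS'
      by_contra hne
      exact hX S (hsub S hS).1 S' (hsub S' hS').1 hne (hD2 S (hsub S hS).2 S' (hsub S' hS').2 hne)
  | succ m ih =>
    intro j hj D hD1 hD2
    have hjn : j < n := by omega
    let e : Fin n := ⟨j, hjn⟩
    rcases Nat.eq_zero_or_pos D.card with h0 | h0
    · have hDe : D = ∅ := Finset.card_eq_zero.mp h0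
      rw [Finset.card_eq_zero.mpr]
      · exact Nat.zero_le _
      · rw [Finset.eq_empty_iff_forall_notMem]
        intro S hS
        rw [Finset.mem_filter] at hS
        obtain ⟨_, u, hu, _⟩ := hS
        rw [hDe] at hu
        simp at hu
    have hne : D.Nonempty := Finset.card_pos.mp h0
    -- choose the element maximising the functional
    obtain ⟨v, hvD, hv⟩ := Finset.exists_max_image D (fun u => ∑ l, M e l * x u l) hne
    have heu : ∀ u ∈ D, e ∉ u := by
      intro u hu h
      have := hD1 u hu e h
      simp [e] at this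
    -- signs after inserting e
    have hxins : ∀ u : Finset (Fin n), ∀ l, l ≠ e → x (insert e u) l = x u l := by
      intro u l hl
      unfold x
      simp [hl]
    have hxe : ∀ u : Finset (Fin n), x (insert e u) e = 1 := by
      intro u; unfold x; simp
    have hxe' : ∀ u ∈ D, x u e = -1 := by
      intro u hu; unfold x; rw [if_neg (heu u hu)]
    have hinj : Set.InjOn (fun u => insert e u) (D : Set (Finset (Fin n))) := by
      intro u hu u' hu' h
      have h1 := heu u hu
      have h2 := heu u' hu'
      have : (insert e u).erase e = (insert e u').erase e := by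
        show Finset.erase ((fun u => insert e u) u) e = Finset.erase ((fun u => insert e u) u') e
        rw [h]
      rwa [Finset.erase_insert h1, Finset.erase_insert h2] at this
    let Dp : Finset (Finset (Fin n)) := insert (insert e v) D
    let Dm : Finset (Finset (Fin n)) := (D.erase v).image (fun u => insert e u)
    have hvnot : insert e v ∉ D := fun h => heu _ h (Finset.mem_insert_self e v)
    have hDpc : Dp.card = D.card + 1 := Finset.card_insert_of_notMem hvnot
    have hDmc : Dm.card = D.card - 1 := by
      rw [Finset.card_image_of_injOn, Finset.card_erase_of_mem hvD]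
      exact hinj.mono (by exact_mod_cast Finset.erase_subset v D)
    -- new pairs
    have hnew : ∀ u ∈ D, Inc M u (insert e v) := by
      intro u hu
      refine ⟨e, ?_, ?_⟩
      · rw [hxe' u hu, hxe]; norm_num
      · rw [hxe' u hu]
        have h1 : ∑ l, M e l * (x u l - x (insert e v) l) =
            ∑ l, M e l * (x u l - x v l) := by
          refine Finset.sum_congr rfl fun l _ => ?_
          by_cases hl : l = e
          · subst hl; rw [hM]; ring
          · rw [hxins v l hl]
        rw [h1]
        have h2 : ∑ l, M e l * (x u l - x v l) = (∑ l, M e l * x u l) - ∑ l, M e l * x v l := by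
          rw [← Finset.sum_sub_distrib]
          refine Finset.sum_congr rfl fun l _ => by ring
        rw [h2]
        have := hv u hu
        linarith
    have hp2 : ∀ u ∈ Dp, ∀ w ∈ Dp, u ≠ w → Inc M u w := by
      intro u hu w hw huw
      rcases Finset.mem_insert.mp hu with rfl | hu <;> rcases Finset.mem_insert.mp hw with rfl | hw
      · exact absurd rfl huw
      · exact (hnew w hw).symm
      · exact hnew u hu
      · exact hD2 u hu w hw huw
    have hm2 : ∀ u ∈ Dm, ∀ w ∈ Dm, u ≠ w → Inc M u w := by
      intro u hu w hw huw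
      obtain ⟨u', hu', rfl⟩ := Finset.mem_image.mp hu
      obtain ⟨w', hw', rfl⟩ := Finset.mem_image.mp hw
      have hu'' := Finset.mem_of_mem_erase hu'
      have hw'' := Finset.mem_of_mem_erase hw'
      have hne' : u' ≠ w' := fun h => huw (by rw [h])
      obtain ⟨i, h1, h2⟩ := hD2 u' hu'' w' hw'' hne'
      have hie : i ≠ e := by
        rintro rfl
        rw [hxe' u' hu'', hxe' w' hw''] at h1
        exact h1 rfl
      refine ⟨i, ?_, ?_⟩
      · rw [hxins u' i hie, hxins w' i hie]; exact h1
      · rw [hxins u' i hie]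
        have h3 : ∑ l, M i l * (x (insert e u') l - x (insert e w') l) =
            ∑ l, M i l * (x u' l - x w' l) := by
          refine Finset.sum_congr rfl fun l _ => ?_
          by_cases hl : l = e
          · subst hl; rw [hxe, hxe, hxe' u' hu'', hxe' w' hw'']; ring
          · rw [hxins u' l hl, hxins w' l hl]
        rw [h3]; exact h2
    have hp1 : ∀ u ∈ Dp, ∀ i ∈ u, (i : ℕ) < j + 1 := by
      intro u hu i hi
      rcases Finset.mem_insert.mp hu with rfl | hu
      · rcases Finset.mem_insert.mp hi with rfl | hi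
        · simp [e]
        · have := hD1 v hvD i hi; omega
      · have := hD1 u hu i hi; omega
    have hm1 : ∀ u ∈ Dm, ∀ i ∈ u, (i : ℕ) < j + 1 := by
      intro u hu i hi
      obtain ⟨u', hu', rfl⟩ := Finset.mem_image.mp hu
      rcases Finset.mem_insert.mp hi with rfl | hi
      · simp [e]
      · have := hD1 u' (Finset.mem_of_mem_erase hu') i hi; omega
    have ihp := ih (j + 1) (by omega) Dp hp1 hp2
    have ihm := ih (j + 1) (by omega) Dm hm1 hm2
    have hcover : X.filter (fun S => ∃ u ∈ D, ∀ i : Fin n, (i : ℕ) < j → (i ∈ S ↔ i ∈ u)) ⊆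
        X.filter (fun S => ∃ u ∈ Dp, ∀ i : Fin n, (i : ℕ) < j + 1 → (i ∈ S ↔ i ∈ u)) ∪
        X.filter (fun S => ∃ u ∈ Dm, ∀ i : Fin n, (i : ℕ) < j + 1 → (i ∈ S ↔ i ∈ u)) := by
      intro S hS
      rw [Finset.mem_filter] at hS
      obtain ⟨hSX, u, hu, hSu⟩ := hS
      rw [Finset.mem_union, Finset.mem_filter, Finset.mem_filter]
      by_cases heS : e ∈ S
      · have hagree : ∀ i : Fin n, (i : ℕ) < j + 1 → (i ∈ S ↔ i ∈ insert e u) := by
          intro i hi
          by_cases hie : i = e
          · subst hie; simp [heS]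
          · have : (i : ℕ) < j := by
              have : (i : ℕ) ≠ j := fun h => hie (Fin.ext h)
              omega
            rw [hSu i this, Finset.mem_insert]
            simp [hie]
        by_cases huv : u = v
        · left
          exact ⟨hSX, insert e v, Finset.mem_insert_self _ _, by rw [← huv]; exact hagree⟩
        · right
          exact ⟨hSX, insert e u, Finset.mem_image.mpr ⟨u, Finset.mem_erase.mpr ⟨huv, hu⟩, rfl⟩,
            hagree⟩
      · left
        refine ⟨hSX, u, Finset.mem_insert_of_mem hu, ?_⟩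
        intro i hi
        by_cases hie : i = e
        · subst hie
          exact ⟨fun h => absurd h heS, fun h => absurd h (heu u hu)⟩
        · have : (i : ℕ) < j := by
            have : (i : ℕ) ≠ j := fun h => hie (Fin.ext h)
            omega
          exact hSu i this
    calc _ ≤ _ := Finset.card_le_card hcover
      _ ≤ _ := Finset.card_union_le _ _
      _ ≤ T m Dp.card + T m Dm.card := Nat.add_le_add ihp ihm
      _ = T m (D.card + 1) + T m (D.card - 1) := by rw [hDpc, hDmc]
      _ ≤ T (m + 1) D.card := T_rec m D.card h0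

/-- A family of pairwise compatible points has at most `n.choose (n / 2)` members. -/
theorem card_le {M : Fin n → Fin n → ℝ} (hM : ∀ i, M i i = 0) (X : Finset (Finset (Fin n)))
    (hX : ∀ S ∈ X, ∀ S' ∈ X, S ≠ S' → ¬ Inc M S S') : X.card ≤ n.choose (n / 2) := by
  have h := main_aux hM X hX n 0 (by omega) {∅} (by simp) (by simp)
  rw [Finset.card_singleton, T_one] at h
  refine le_trans (Finset.card_le_card ?_) h
  intro S hS
  rw [Finset.mem_filter]
  exact ⟨hS, ∅, by simp, fun i hi => by omega⟩

/-- value of the quadratic function -/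
def q (c : ℝ) (a : Fin n → ℝ) (B : Fin n → Fin n → ℝ) (S : Finset (Fin n)) : ℝ :=
  c + (∑ i, a i * x S i) + ∑ i, ∑ j, B i j * x S i * x S j

lemma x_flip (S : Finset (Fin n)) (i l : Fin n) :
    x (symmDiff S {i}) l = x S l - (if l = i then 2 * x S i else 0) := by
  unfold x
  by_cases hl : l = i
  · subst hl
    by_cases h : l ∈ S <;> simp [Finset.mem_symmDiff, h] <;> norm_num
  · by_cases h : l ∈ S <;> simp [Finset.mem_symmDiff, h, hl]

lemma q_flip (c : ℝ) (a : Fin n → ℝ) (B : Fin n → Fin n → ℝ) (S : Finset (Fin n)) (i : Fin n) :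
    q c a B (symmDiff S {i}) = q c a B S -
      2 * x S i * (a i + ∑ l, (if l = i then 0 else B i l + B l i) * x S l) := by
  have hsq : x S i * x S i = 1 := by
    rcases x_cases S i with h | h <;> rw [h] <;> norm_num
  have h1 : ∑ l, a l * x (symmDiff S {i}) l = (∑ l, a l * x S l) - 2 * a i * x S i := by
    simp_rw [x_flip, mul_sub, Finset.sum_sub_distrib]
    congr 1
    simp only [mul_ite, mul_zero, Finset.sum_ite_eq', Finset.mem_univ, if_true]
    ring
  have h2 : ∑ k, ∑ l, B k l * x (symmDiff S {i}) k * x (symmDiff S {i}) l =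
      (∑ k, ∑ l, B k l * x S k * x S l) - 2 * x S i * (∑ l, B i l * x S l)
        - 2 * x S i * (∑ l, B l i * x S l) + 4 * B i i := by
    have h3 : ∀ k l, B k l * x (symmDiff S {i}) k * x (symmDiff S {i}) l =
        B k l * x S k * x S l - (if k = i then 2 * x S i * (B i l * x S l) else 0)
          - (if l = i then 2 * x S i * (B k i * x S k) else 0)
          + (if k = i then (if l = i then 4 * B i i else 0) else 0) := by
      intro k l
      rw [x_flip, x_flip]
      by_cases hk : k = i <;> by_cases hl : l = i
      · subst hk; subst hl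
        simp only [if_true]
        linear_combination (4 * B l l) * hsq
      · subst hk
        simp only [if_true, if_neg hl]; ring
      · subst hl
        simp only [if_true, if_neg hk]; ring
      · simp only [if_neg hk, if_neg hl]; ring
    simp_rw [h3, Finset.sum_add_distrib, Finset.sum_sub_distrib]
    have h4 : ∑ k, ∑ l, (if k = i then 2 * x S i * (B i l * x S l) else 0) =
        2 * x S i * ∑ l, B i l * x S l := by
      rw [Finset.sum_eq_single i]
      · simp only [if_true]; rw [Finset.mul_sum]
      · intro k _ hk; simp [hk]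
      · intro h; exact absurd (Finset.mem_univ i) h
    have h5 : ∑ k, ∑ l, (if l = i then 2 * x S i * (B k i * x S k) else 0) =
        2 * x S i * ∑ l, B l i * x S l := by
      rw [Finset.mul_sum]
      refine Finset.sum_congr rfl fun k _ => ?_
      rw [Finset.sum_eq_single i]
      · simp
      · intro l _ hl; simp [hl]
      · intro h; exact absurd (Finset.mem_univ i) h
    have h6 : ∑ k, ∑ l, (if k = i then (if l = i then 4 * B i i else 0) else 0) = 4 * B i i := by
      rw [Finset.sum_eq_single i]
      · simp
      · intro k _ hk; simp [hk]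
      · intro h; exact absurd (Finset.mem_univ i) h
    rw [h4, h5, h6]
  have h7 : ∑ l, (if l = i then 0 else B i l + B l i) * x S l =
      (∑ l, B i l * x S l) + (∑ l, B l i * x S l) - 2 * B i i * x S i := by
    have : ∀ l, (if l = i then 0 else B i l + B l i) * x S l =
        B i l * x S l + B l i * x S l - (if l = i then 2 * B i i * x S i else 0) := by
      intro l
      by_cases hl : l = i
      · subst hl; simp only [if_true]; ring
      · simp only [if_neg hl]; ring
    simp_rw [this, Finset.sum_sub_distrib, Finset.sum_add_distrib]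
    simp
  unfold q
  rw [h1, h2, h7]
  linear_combination (-4 * B i i) * hsq

/-- At most `n.choose (n / 2)` strict local minima. -/
theorem local_min (c : ℝ) (a : Fin n → ℝ) (B : Fin n → Fin n → ℝ) :
    {S : Finset (Fin n) | ∀ i : Fin n, q c a B S < q c a B (symmDiff S {i})}.ncard
      ≤ n.choose (n / 2) := by
  classical
  set M : Fin n → Fin n → ℝ := fun i l => if l = i then 0 else B i l + B l i with hM
  set X : Finset (Finset (Fin n)) := Finset.univ.filter
    (fun S => ∀ i : Fin n, q c a B S < q c a B (symmDiff S {i})) with hX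
  have hset : {S : Finset (Fin n) | ∀ i : Fin n, q c a B S < q c a B (symmDiff S {i})} =
      (X : Set (Finset (Fin n))) := by
    ext S; simp [hX]
  rw [hset, Set.ncard_coe_finset]
  apply card_le (M := M) (by intro i; simp [hM])
  intro S hS S' hS' _ hInc
  obtain ⟨i, h1, h2⟩ := hInc
  rw [hX, Finset.mem_filter] at hS hS'
  have h3 := hS.2 i
  have h4 := hS'.2 i
  rw [q_flip] at h3 h4
  rw [x_neg_of_ne h1] at h4
  have h5 : ∑ l, M i l * (x S l - x S' l) = (∑ l, M i l * x S l) - ∑ l, M i l * x S' l := by
    rw [← Finset.sum_sub_distrib]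
    refine Finset.sum_congr rfl fun l _ => by ring
  rw [h5] at h2
  have h6 : 2 * x S i * (a i + ∑ l, M i l * x S l) < 0 := by
    have : ∑ l, (if l = i then 0 else B i l + B l i) * x S l = ∑ l, M i l * x S l := rfl
    rw [this] at h3
    linarith
  have h7 : 2 * (- x S i) * (a i + ∑ l, M i l * x S' l) < 0 := by
    have : ∑ l, (if l = i then 0 else B i l + B l i) * x S' l = ∑ l, M i l * x S' l := rfl
    rw [this] at h4
    linarith
  nlinarith

end Pool.Agent.H800R3.LM
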