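import Mathlib

/-!
# Nilpotency of all elements of a Lie triple system of endomorphisms from pairs of generators
-/

set_option autoImplicit false

namespace Pool.Agent.H800R3.NilTest

open LieModule

universe u

section span

variable {K L : Type*} [Field K] [LieRing L] [LieAlgebra K L] [FiniteDimensional K L]

/-- The vectors annihilated by the ideal `D`. -/
def invariants (D : LieIdeal K L) (M : Type u) [AddCommGroup M] [Module K M] [LieRingModule L M]
    [LieModule K L M] : LieSubmodule K L M where
  carrier := {m | ∀ d ∈ D, ⁅d, m⁆ = 0}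
  zero_mem' := fun d _ => lie_zero d
  add_mem' := fun {a b} ha hb d hd => by rw [lie_add, ha d hd, hb d hd, add_zero]
  smul_mem' := fun c {m} hm d hd => by rw [lie_smul, hm d hd, smul_zero]
  lie_mem := fun {x m} hm d hd => by
    have h1 : ⁅d, ⁅x, m⁆⁆ = ⁅⁅d, x⁆, m⁆ + ⁅x, ⁅d, m⁆⁆ := leibniz_lie d x m
    have h2 : ⁅d, x⁆ ∈ D := lie_mem_left K L D d x hd
    rw [h1, hm _ h2, hm d hd, lie_zero, add_zero]

theorem nil_span (D : LieIdeal K L) (hD : ∀ a b : L, ⁅a, b⁆ ∈ D) (S : Set L) :
    ∀ (d : ℕ) (M : Type u) [AddCommGroup M] [Module K M] [LieRingModule L M] [LieModule K L M]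
      [FiniteDimensional K M], Module.finrank K M = d →
      (∀ x ∈ D, IsNilpotent (toEnd K L M x)) → (∀ s ∈ S, IsNilpotent (toEnd K L M s)) →
      ∀ y ∈ Submodule.span K S, IsNilpotent (toEnd K L M y) := by
  intro d
  induction d using Nat.strong_induction_on with
  | _ d ih =>
    intro M _ _ _ _ _ hd hDn hSn y hy
    rcases subsingleton_or_nontrivial M with hM | hM
    · exact ⟨1, Subsingleton.elim _ _⟩
    set N := invariants D M with hN
    -- the invariants are not zero
    have hnil : LieModule.IsNilpotent D M := by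
      rw [LieModule.isNilpotent_iff_forall' (R := K)]
      intro x
      exact hDn x x.2
    have hne : ∃ m ∈ N, m ≠ 0 := by
      have := nontrivial_max_triv_of_isNilpotent K D M
      obtain ⟨⟨m, hm⟩, hm0⟩ := exists_ne (0 : maxTrivSubmodule K D M)
      refine ⟨m, fun d hd => ?_, fun h => hm0 (Subtype.ext h)⟩
      exact (mem_maxTrivSubmodule K D M m).1 hm ⟨d, hd⟩
    -- nilpotent on the invariants
    have hcoe : ∀ (x : L) (k : ℕ) (m : N), (((toEnd K L N x ^ k) m : N) : M) =
        (toEnd K L M x ^ k) (m : M) := by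
      intro x k
      induction k with
      | zero => intro m; rfl
      | succ k ihk =>
        intro m
        rw [pow_succ, Module.End.mul_apply, ihk, pow_succ, Module.End.mul_apply]
        rfl
    have hcomm : ∀ a b : L, Commute (toEnd K L N a) (toEnd K L N b) := by
      intro a b
      apply LinearMap.ext
      intro m
      apply Subtype.ext
      have h1 : ⁅⁅a, b⁆, (m : M)⁆ = 0 := m.2 _ (hD a b)
      have h2 : ⁅⁅a, b⁆, (m : M)⁆ = ⁅a, ⁅b, (m : M)⁆⁆ - ⁅b, ⁅a, (m : M)⁆⁆ := lie_lie a b (m : M)
      rw [h2] at h1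
      exact sub_eq_zero.1 h1
    have hNn : ∀ s ∈ S, IsNilpotent (toEnd K L N s) := by
      intro s hs
      obtain ⟨k, hk⟩ := hSn s hs
      refine ⟨k, LinearMap.ext fun m => Subtype.ext ?_⟩
      rw [hcoe, hk]
      rfl
    have hNy : IsNilpotent (toEnd K L N y) := by
      induction hy using Submodule.span_induction with
      | mem s hs => exact hNn s hs
      | zero => rw [map_zero]; exact IsNilpotent.zero
      | add a b _ _ ha hb => rw [map_add]; exact (hcomm a b).isNilpotent_add ha hb
      | smul c a _ ha => rw [map_smul]; exact ha.smul c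
    -- nilpotent on the quotient
    have hmk : ∀ (x : L) (k : ℕ) (m : M), (toEnd K L (M ⧸ N) x ^ k) (LieSubmodule.Quotient.mk' N m) =
        LieSubmodule.Quotient.mk' N ((toEnd K L M x ^ k) m) := by
      intro x k
      induction k with
      | zero => intro m; rfl
      | succ k ihk =>
        intro m
        rw [pow_succ, Module.End.mul_apply, pow_succ, Module.End.mul_apply, ← ihk]
        rfl
    have hquot : ∀ x : L, IsNilpotent (toEnd K L M x) → IsNilpotent (toEnd K L (M ⧸ N) x) := by
      rintro x ⟨k, hk⟩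
      refine ⟨k, LinearMap.ext fun q => ?_⟩
      obtain ⟨m, rfl⟩ := LieSubmodule.Quotient.surjective_mk' N q
      rw [hmk, hk]
      exact map_zero _
    have hlt : Module.finrank K (M ⧸ N) < d := by
      have h1 := Submodule.finrank_quotient_add_finrank (N : Submodule K M)
      have h2 : 0 < Module.finrank K (N : Submodule K M) := by
        obtain ⟨m, hm, hm0⟩ := hne
        rw [Module.finrank_pos_iff]
        exact ⟨⟨m, hm⟩, 0, fun h => hm0 (congrArg Subtype.val h)⟩
      have h3 : Module.finrank K (M ⧸ N) = Module.finrank K (M ⧸ (N : Submodule K M)) := rfl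
      omega
    obtain ⟨p, hp⟩ := ih _ hlt (M ⧸ N) rfl (fun x hx => hquot x (hDn x hx))
      (fun s hs => hquot s (hSn s hs)) y hy
    obtain ⟨q, hq⟩ := hNy
    refine ⟨q + p, LinearMap.ext fun m => ?_⟩
    rw [pow_add, Module.End.mul_apply]
    have h1 : (toEnd K L M y ^ p) m ∈ N := by
      rw [← LieSubmodule.Quotient.mk_eq_zero, ← hmk, hp]
      rfl
    have h2 := hcoe y q ⟨_, h1⟩
    rw [hq] at h2
    exact h2.symm

end span

end Pool.Agent.H800R3.NilTest
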