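import Pool.Agent.H800R3.OMRoud

namespace Pool.Agent.H800R3.OM

variable {n : ℕ}

/-- The sign pattern with prescribed set `D` of sign changes and prescribed first sign. -/
def pat (n : ℕ) (b : Bool) (D : Finset ℕ) : Finset (Fin n) :=
  Finset.univ.filter (fun j => Odd ((D.filter (fun i => i < (j : ℕ))).card + b.toNat))

lemma mem_pat {b : Bool} {D : Finset ℕ} {j : Fin n} :
    j ∈ pat n b D ↔ Odd ((D.filter (fun i => i < (j : ℕ))).card + b.toNat) := by
  unfold pat; rw [Finset.mem_filter]; simp

lemma pat_inj (hn0 : 0 < n) {b b' : Bool} {D D' : Finset ℕ} (hD : D ⊆ Finset.range (n - 1))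
    (hD' : D' ⊆ Finset.range (n - 1)) (h : pat n b D = pat n b' D') : b = b' ∧ D = D' := by
  have key : ∀ j : Fin n, (Odd ((D.filter (fun i => i < (j : ℕ))).card + b.toNat) ↔
      Odd ((D'.filter (fun i => i < (j : ℕ))).card + b'.toNat)) := by
    intro j
    rw [← mem_pat, ← mem_pat, h]
  have hb : b = b' := by
    have h0 := key ⟨0, hn0⟩
    simp only [not_lt_zero, Finset.filter_false, Finset.card_empty, zero_add] at h0
    cases b <;> cases b' <;> simp_all
  subst hb
  refine ⟨rfl, ?_⟩
  have hstep : ∀ (E : Finset ℕ) (i : ℕ), (E.filter (fun x => x < i + 1)).card =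
      (E.filter (fun x => x < i)).card + (if i ∈ E then 1 else 0) := by
    intro E i
    have h1 : E.filter (fun x => x < i + 1) =
        E.filter (fun x => x < i) ∪ (if i ∈ E then {i} else ∅) := by
      ext x
      by_cases hi : i ∈ E
      · simp only [hi, if_true, Finset.mem_filter, Finset.mem_union, Finset.mem_singleton]
        constructor
        · rintro ⟨h1, h2⟩
          by_cases hx : x = i
          · exact Or.inr hx
          · exact Or.inl ⟨h1, by omega⟩
        · rintro (⟨h1, h2⟩ | rfl)
          · exact ⟨h1, by omega⟩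
          · exact ⟨hi, by omega⟩
      · simp only [hi, if_false, Finset.mem_filter, Finset.union_empty]
        constructor
        · rintro ⟨h1, h2⟩
          refine ⟨h1, ?_⟩
          have : x ≠ i := fun h => hi (h ▸ h1)
          omega
        · rintro ⟨h1, h2⟩
          exact ⟨h1, by omega⟩
    rw [h1, Finset.card_union_of_disjoint]
    · congr 1
      split_ifs <;> simp
    · rw [Finset.disjoint_left]
      intro x hx hx2
      rw [Finset.mem_filter] at hx
      by_cases hi : i ∈ E
      · rw [if_pos hi, Finset.mem_singleton] at hx2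
        omega
      · rw [if_neg hi] at hx2
        simp at hx2
  ext i
  by_cases hi : i + 1 < n
  · have k1 := key ⟨i, by omega⟩
    have k2 := key ⟨i + 1, hi⟩
    simp only [hstep] at k2
    simp only [Nat.odd_iff] at k1 k2
    by_cases h1 : i ∈ D <;> by_cases h2 : i ∈ D'
    · exact ⟨fun _ => h2, fun _ => h1⟩
    · exfalso
      rw [if_pos h1, if_neg h2] at k2
      omega
    · exfalso
      rw [if_neg h1, if_pos h2] at k2
      omega
    · exact ⟨fun h => absurd h h1, fun h => absurd h h2⟩
  · constructor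
    · intro h1
      have := Finset.mem_range.mp (hD h1); omega
    · intro h1
      have := Finset.mem_range.mp (hD' h1); omega

open Polynomial in
lemma alt_covector {r k : ℕ} {b : Bool} {D : Finset ℕ} (hD : D.card + 2 * k + 1 ≤ r)
    (F : Finset (Fin n)) (hF : F.card ≤ k) :
    ∃ X ∈ alternating r n, (∀ e ∈ F, X e = 0) ∧ ∀ e, e ∉ F → X e = sv (pat n b D) e := by
  classical
  let P : ℝ[X] := C ((-1 : ℝ) ^ b.toNat) * (∏ i ∈ D, (C ((i : ℝ) + 1 / 2) - X)) *
    ∏ f ∈ F, (X - C (((f : ℕ) : ℝ))) ^ 2
  have hdeg : P.natDegree < r := by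
    have h1 : (∏ i ∈ D, (C ((i : ℝ) + 1 / 2) - X) : ℝ[X]).natDegree ≤ D.card := by
      refine le_trans (Polynomial.natDegree_prod_le _ _) ?_
      refine le_trans (Finset.sum_le_card_nsmul _ _ 1 ?_) (by simp)
      intro i _
      refine le_trans (Polynomial.natDegree_sub_le _ _) ?_
      simp
    have h2 : (∏ f ∈ F, (X - C (((f : ℕ) : ℝ))) ^ 2 : ℝ[X]).natDegree ≤ 2 * F.card := by
      refine le_trans (Polynomial.natDegree_prod_le _ _) ?_
      refine le_trans (Finset.sum_le_card_nsmul _ _ 2 ?_) (by simp [mul_comm])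
      intro i _
      refine le_trans (Polynomial.natDegree_pow_le) ?_
      rw [Polynomial.natDegree_X_sub_C]
    have h3 : P.natDegree ≤ D.card + 2 * F.card := by
      refine le_trans (Polynomial.natDegree_mul_le) ?_
      refine Nat.add_le_add (le_trans (Polynomial.natDegree_C_mul_le _ _) h1) h2
    omega
  refine ⟨fun e => SignType.sign (P.eval ((e : ℕ) : ℝ)), ?_, ?_, ?_⟩
  · refine ⟨fun j => P.coeff j, fun i => ?_⟩
    simp only
    rw [Polynomial.eval_eq_sum_range' hdeg, Finset.sum_range]
  · intro e he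
    have : P.eval ((e : ℕ) : ℝ) = 0 := by
      simp only [P, Polynomial.eval_mul, Polynomial.eval_prod]
      rw [mul_eq_zero]; right
      exact Finset.prod_eq_zero he (by simp)
    simp only
    rw [this, sign_zero]
  · intro e he
    simp only
    have hev : P.eval ((e : ℕ) : ℝ) = (-1 : ℝ) ^ b.toNat * (∏ i ∈ D, ((i : ℝ) + 1 / 2 - ((e : ℕ) : ℝ))) *
        ∏ f ∈ F, (((e : ℕ) : ℝ) - ((f : ℕ) : ℝ)) ^ 2 := by
      simp only [P, Polynomial.eval_mul, Polynomial.eval_prod, Polynomial.eval_C,
        Polynomial.eval_sub, Polynomial.eval_X, Polynomial.eval_pow]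
    rw [hev, sign_mul, sign_mul]
    have h1 : SignType.sign (∏ f ∈ F, (((e : ℕ) : ℝ) - ((f : ℕ) : ℝ)) ^ 2) = 1 := by
      rw [sign_eq_one_iff]
      refine Finset.prod_pos fun f hf => ?_
      have : ((e : ℕ) : ℝ) - ((f : ℕ) : ℝ) ≠ 0 := by
        rw [sub_ne_zero]
        intro h
        apply he
        have : (e : ℕ) = (f : ℕ) := by exact_mod_cast h
        rw [Fin.ext this]; exact hf
      positivity
    have h2 : SignType.sign (∏ i ∈ D, ((i : ℝ) + 1 / 2 - ((e : ℕ) : ℝ))) =
        (-1) ^ (D.filter (fun i => i < (e : ℕ))).card := by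
      have h3 : SignType.sign (∏ i ∈ D, ((i : ℝ) + 1 / 2 - ((e : ℕ) : ℝ))) =
          ∏ i ∈ D, SignType.sign ((i : ℝ) + 1 / 2 - ((e : ℕ) : ℝ)) := by
        exact map_prod signHom _ _
      rw [h3]
      have h4 : ∀ i ∈ D, SignType.sign ((i : ℝ) + 1 / 2 - ((e : ℕ) : ℝ)) =
          if i < (e : ℕ) then -1 else 1 := by
        intro i _
        split_ifs with hi
        · rw [sign_eq_neg_one_iff]
          have : (i : ℝ) + 1 ≤ (e : ℕ) := by exact_mod_cast hi
          linarith
        · rw [sign_eq_one_iff]
          have : ((e : ℕ) : ℝ) ≤ i := by exact_mod_cast (not_lt.mp hi)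
          linarith
      rw [Finset.prod_congr rfl h4, Finset.prod_ite]
      simp
    have h5 : SignType.sign ((-1 : ℝ) ^ b.toNat) = (-1) ^ b.toNat := by
      cases b <;> simp
    rw [h1, h2, h5, mul_one, ← pow_add]
    unfold sv
    by_cases hodd : Odd ((D.filter (fun i => i < (e : ℕ))).card + b.toNat)
    · rw [if_pos (mem_pat.mpr hodd), add_comm]
      exact Odd.neg_one_pow hodd
    · rw [if_neg (fun h => hodd (mem_pat.mp h)), add_comm]
      exact Even.neg_one_pow (Nat.not_odd_iff_even.mp hodd)

/-- Lower bound for the alternating oriented matroid. -/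
theorem alt_ge (n r k : ℕ) (hn0 : 0 < n) (hk : 2 * k + 1 ≤ r) :
    2 * ∑ i ∈ Finset.range (r - 2 * k), (n - 1).choose i ≤ numNeighborly (alternating r n) k := by
  classical
  set U : Finset (Finset ℕ) := (Finset.range (n - 1)).powerset.filter
    (fun W => W.card < r - 2 * k) with hU
  have hUcard : U.card = ∑ i ∈ Finset.range (r - 2 * k), (n - 1).choose i := by
    have h1 : U = (Finset.range (r - 2 * k)).biUnion
        (fun i => (Finset.range (n - 1)).powersetCard i) := by
      ext W
      simp only [hU, Finset.mem_filter, Finset.mem_powerset, Finset.mem_biUnion, Finset.mem_range,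
        Finset.mem_powersetCard]
      constructor
      · rintro ⟨h1, h2⟩; exact ⟨W.card, h2, h1, rfl⟩
      · rintro ⟨i, hi, h1, h2⟩; exact ⟨h1, by omega⟩
    rw [h1, Finset.card_biUnion]
    · refine Finset.sum_congr rfl fun i _ => ?_
      rw [Finset.card_powersetCard, Finset.card_range]
    · intro i _ j _ hij
      rw [Function.onFun, Finset.disjoint_left]
      intro W h2 h3
      rw [Finset.mem_powersetCard] at h2 h3
      exact hij (h2.2.symm.trans h3.2)
  set V : Finset (Bool × Finset ℕ) := Finset.univ ×ˢ U with hV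
  have hVcard : V.card = 2 * ∑ i ∈ Finset.range (r - 2 * k), (n - 1).choose i := by
    rw [hV, Finset.card_product, hUcard]; simp
  have hinj : Set.InjOn (fun q : Bool × Finset ℕ => pat n q.1 q.2) V := by
    rintro ⟨b, D⟩ h1 ⟨b', D'⟩ h2 h
    simp only [hV, Finset.coe_product, Set.mem_prod, Finset.mem_coe, hU, Finset.mem_filter,
      Finset.mem_powerset] at h1 h2
    obtain ⟨h3, h4⟩ := pat_inj hn0 h1.2.1 h2.2.1 h
    have h3' : b = b' := h3
    rw [h3', h4]
  rw [← hVcard, ← Finset.card_image_of_injOn hinj, ← Set.ncard_coe_finset]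
  unfold numNeighborly
  apply Set.ncard_le_ncard
  · intro A hA
    rw [Finset.mem_coe, Finset.mem_image] at hA
    obtain ⟨⟨b, D⟩, hq, rfl⟩ := hA
    have hDc : D.card < r - 2 * k := by
      simp only [hV, Finset.mem_product, hU, Finset.mem_filter] at hq
      exact hq.2.2
    have hface : ∀ F : Finset (Fin n), F.card ≤ k →
        IsFace (reorient (pat n b D) (alternating r n)) F := by
      intro F hF
      obtain ⟨X, hX, hX0, hX1⟩ := alt_covector (n := n) (r := r) (k := k) (b := b) (D := D)
        (by omega) F hF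
      refine ⟨flipOn (pat n b D) X, ⟨X, hX, rfl⟩, ?_, ?_⟩
      · intro e he
        unfold flipOn
        rw [hX0 e he]; simp
      · intro e he
        unfold flipOn
        rw [hX1 e he]
        unfold sv
        split_ifs <;> simp
    refine ⟨?_, hface⟩
    obtain ⟨Y, hY, _, hY1⟩ := hface ∅ (by simp)
    have : Y = fun _ => 1 := by
      funext e; exact hY1 e (by simp)
    rw [this] at hY
    exact hY
  · exact Set.toFinite _

end Pool.Agent.H800R3.OM
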