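import Mathlib

/-!
Oriented matroids on `Fin n`, given by covectors, and `k`-neighborly reorientations.
-/

namespace Pool.Agent.H800R3.OM

/-- A sign vector on `Fin n`. -/
abbrev SVec (n : ℕ) := Fin n → SignType

/-- Composition of sign vectors. -/
def comp {n : ℕ} (X Y : SVec n) : SVec n := fun e => if X e = 0 then Y e else X e

/-- `e` separates `X` and `Y`: the two signs are opposite and nonzero. -/
def Separates {n : ℕ} (X Y : SVec n) (e : Fin n) : Prop := X e ≠ 0 ∧ X e = - Y e

/-- The covector axioms of an oriented matroid. -/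
structure IsOM {n : ℕ} (L : Set (SVec n)) : Prop where
  zero_mem : (fun _ => 0) ∈ L
  neg_mem : ∀ X ∈ L, (fun e => - X e) ∈ L
  comp_mem : ∀ X ∈ L, ∀ Y ∈ L, comp X Y ∈ L
  elim : ∀ X ∈ L, ∀ Y ∈ L, ∀ e, Separates X Y e →
    ∃ Z ∈ L, Z e = 0 ∧ ∀ f, ¬ Separates X Y f → Z f = comp X Y f

/-- `X ≤ Y` in the covector order: `X` is obtained from `Y` by changing some signs to zero. -/
def Conf {n : ℕ} (X Y : SVec n) : Prop := ∀ e, X e = 0 ∨ X e = Y e

/-- There is a strictly increasing chain of `m + 1` covectors. -/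
def HasChain {n : ℕ} (L : Set (SVec n)) (m : ℕ) : Prop :=
  ∃ Z : Fin (m + 1) → SVec n, (∀ i, Z i ∈ L) ∧
    ∀ i : Fin m, Conf (Z i.castSucc) (Z i.succ) ∧ Z i.castSucc ≠ Z i.succ

/-- The rank of an oriented matroid: the length of its longest chains of covectors
`0 < X₁ < ⋯ < X_r`. -/
def HasRank {n : ℕ} (L : Set (SVec n)) (r : ℕ) : Prop :=
  HasChain L r ∧ ∀ m, HasChain L m → m ≤ r

/-- Reversing the signs of a sign vector in the coordinates of `A`. -/
def flipOn {n : ℕ} (A : Finset (Fin n)) (X : SVec n) : SVec n :=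
  fun e => if e ∈ A then - X e else X e

/-- The reorientation of `L` by `A`. -/
def reorient {n : ℕ} (A : Finset (Fin n)) (L : Set (SVec n)) : Set (SVec n) :=
  {X | ∃ Y ∈ L, X = flipOn A Y}

/-- The all-plus vector is a covector. -/
def Acyclic {n : ℕ} (L : Set (SVec n)) : Prop := (fun _ => 1) ∈ L

/-- `F` is a face: some covector is zero on `F` and `+` off `F`. -/
def IsFace {n : ℕ} (L : Set (SVec n)) (F : Finset (Fin n)) : Prop :=
  ∃ Y ∈ L, (∀ e ∈ F, Y e = 0) ∧ ∀ e, e ∉ F → Y e = 1

/-- `k`-neighborly: acyclic, and every subset with at most `k` elements is a face. -/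
def KNeighborly {n : ℕ} (L : Set (SVec n)) (k : ℕ) : Prop :=
  Acyclic L ∧ ∀ F : Finset (Fin n), F.card ≤ k → IsFace L F

/-- The number of `A` such that the reorientation of `L` by `A` is `k`-neighborly. -/
noncomputable def numNeighborly {n : ℕ} (L : Set (SVec n)) (k : ℕ) : ℕ :=
  {A : Finset (Fin n) | KNeighborly (reorient A L) k}.ncard

/-- The covectors of the alternating oriented matroid of rank `r` on `n` elements, realized by the
vectors `(1, t, t ^ 2, …, t ^ (r - 1))` with `t = 0, 1, …, n - 1`. -/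
def alternating (r n : ℕ) : Set (SVec n) :=
  {X | ∃ c : Fin r → ℝ, ∀ i : Fin n,
    X i = SignType.sign (∑ j : Fin r, c j * ((i : ℕ) : ℝ) ^ (j : ℕ))}

end Pool.Agent.H800R3.OM
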