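import Pool.Agent.H800R3.Roudneff

/-!
# Balls of radius `k` inside a complement-closed family of small VC dimension

`S` is a family of subsets of `Fin n`, closed under complement and not shattering any set of size
`≥ d + 2`.  If `2 k ≤ d` and `2 d - 2 k + 3 ≤ n` then the number of `T` such that the whole Hamming
ball of radius `k` about `T` lies in `S` is at most `2 * ∑_{i ≤ d - 2k} (n - 1).choose i`.
-/

namespace Pool.Agent.H800R3.Roud

open Finset

variable {n : ℕ}

/-- the Hamming ball of radius `j` around `T` lies in `S` -/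
def Ball (S : Finset (Fin n) → Prop) (j : ℕ) (T : Finset (Fin n)) : Prop :=
  ∀ E : Finset (Fin n), E.card ≤ j → S (symmDiff T E)

lemma Ball.zero {S : Finset (Fin n) → Prop} {T : Finset (Fin n)} : Ball S 0 T ↔ S T := by
  constructor
  · intro h
    have h1 := h ∅ (by simp)
    have h2 : symmDiff T (∅ : Finset (Fin n)) = T := symmDiff_bot T
    rwa [h2] at h1
  · intro h E hE
    have : E = ∅ := Finset.card_eq_zero.mp (Nat.le_zero.mp hE)
    subst this
    have h2 : symmDiff T (∅ : Finset (Fin n)) = T := symmDiff_bot T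
    rwa [h2]

lemma Ball.mono {S : Finset (Fin n) → Prop} {T : Finset (Fin n)} {i j : ℕ} (hij : i ≤ j)
    (h : Ball S j T) : Ball S i T := fun E hE => h E (hE.trans hij)

lemma Ball.flip {S : Finset (Fin n) → Prop} {T : Finset (Fin n)} {j : ℕ}
    (h : Ball S (j + 1) T) (e : Fin n) : Ball S j (symmDiff T {e}) := by
  intro E hE
  rw [symmDiff_assoc]
  apply h
  have h1 : symmDiff {e} E ⊆ insert e E := by
    intro y hy
    simp only [Finset.mem_symmDiff, Finset.mem_singleton, Finset.mem_insert] at hy ⊢
    tauto
  have h2 := Finset.card_le_card h1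
  have h3 := Finset.card_insert_le e E
  omega

/-- `F` is supported on the centres of balls of radius `j` -/
def SuppB (S : Finset (Fin n) → Prop) (j : ℕ) (F : Finset (Fin n) → ℚ) : Prop :=
  ∀ T, ¬ Ball S j T → F T = 0

lemma SuppB.mono {S : Finset (Fin n) → Prop} {F : Finset (Fin n) → ℚ} {i j : ℕ} (hij : i ≤ j)
    (h : SuppB S j F) : SuppB S i F := fun T hT => h T fun hB => hT (hB.mono hij)

lemma SuppB.flip {S : Finset (Fin n) → Prop} {F : Finset (Fin n) → ℚ} {j : ℕ}
    (h : SuppB S (j + 1) F) {T : Finset (Fin n)} (hT : ¬ Ball S j T) (e : Fin n) :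
    F (symmDiff T {e}) = 0 := by
  apply h
  intro hB
  apply hT
  have := hB.flip e
  rwa [symmDiff_symmDiff_cancel_right] at this

lemma SuppB.self {S : Finset (Fin n) → Prop} {F : Finset (Fin n) → ℚ} {j : ℕ}
    (h : SuppB S (j + 1) F) {T : Finset (Fin n)} (hT : ¬ Ball S j T) : F T = 0 :=
  h T fun hB => hT (hB.mono (Nat.le_succ j))

/-- elimination operator -/
def opL (q : ℕ) (F : Finset (Fin n) → ℚ) (T : Finset (Fin n)) : ℚ :=
  (∑ e, F (symmDiff T {e})) - ((n : ℚ) - 2 * q) * F T

lemma ft_opL (q : ℕ) (F : Finset (Fin n) → ℚ) (W : Finset (Fin n)) :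
    ft (opL q F) W = 2 * ((q : ℚ) - W.card) * ft F W := by
  have e1 : ft (opL q F) W = (∑ e, ft (fun T => F (symmDiff T {e})) W) -
      ((n : ℚ) - 2 * q) * ft F W := by
    unfold ft
    rw [Finset.sum_comm, Finset.mul_sum, ← Finset.sum_sub_distrib]
    refine Finset.sum_congr rfl fun T _ => ?_
    unfold opL
    rw [← Finset.sum_mul]
    ring
  rw [e1]
  simp_rw [ft_flip]
  rw [← Finset.sum_mul]
  have e2 : ∑ e : Fin n, (if e ∈ W then (-1 : ℚ) else 1) = n - 2 * W.card := by
    have : ∀ e : Fin n, (if e ∈ W then (-1 : ℚ) else 1) = 1 - 2 * (if e ∈ W then 1 else 0) := by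
      intro e; split_ifs <;> norm_num
    simp_rw [this]
    rw [Finset.sum_sub_distrib, ← Finset.mul_sum]
    simp
  rw [e2]; ring

lemma supp_opL {S : Finset (Fin n) → Prop} {F : Finset (Fin n) → ℚ} {j : ℕ} (q : ℕ)
    (h : SuppB S (j + 1) F) : SuppB S j (opL q F) := by
  intro T hT
  unfold opL
  rw [Finset.sum_eq_zero fun e _ => h.flip hT e, h.self hT]; ring

lemma exists_kill {S : Finset (Fin n) → Prop} {g : Finset (Fin n) → ℚ} {k : ℕ}
    (hg : SuppB S k g) (Q : List ℕ) (hQ : Q.length ≤ k) :
    ∃ F : Finset (Fin n) → ℚ, SuppB S (k - Q.length) F ∧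
      ∀ W : Finset (Fin n), ft F W = (Q.map (fun q : ℕ => 2 * ((q : ℚ) - W.card))).prod * ft g W := by
  induction Q with
  | nil => exact ⟨g, by simpa using hg, fun W => by simp⟩
  | cons q Q ih =>
    obtain ⟨F, hF1, hF2⟩ := ih (by simp only [List.length_cons] at hQ; omega)
    refine ⟨opL q F, ?_, ?_⟩
    · apply supp_opL
      have : k - (q :: Q).length + 1 = k - Q.length := by
        simp only [List.length_cons] at hQ ⊢; omega
      rw [this]; exact hF1
    · intro W
      rw [ft_opL, hF2, List.map_cons, List.prod_cons]; ring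

/-- derivative in direction `e` -/
def opD (e : Fin n) (F : Finset (Fin n) → ℚ) (T : Finset (Fin n)) : ℚ :=
  sg T e * (F T - F (symmDiff T {e}))

/-- raising operator in direction `e` -/
def opR (e : Fin n) (F : Finset (Fin n) → ℚ) (T : Finset (Fin n)) : ℚ :=
  sg T e * (F T + F (symmDiff T {e}))

lemma chr_single (e : Fin n) (T : Finset (Fin n)) : chr {e} T = sg T e := by simp [chr]

lemma ft_opD (e : Fin n) (F : Finset (Fin n) → ℚ) (W : Finset (Fin n)) :
    ft (opD e F) W = (1 - (if e ∈ symmDiff W {e} then -1 else 1)) * ft F (symmDiff W {e}) := by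
  have e1 : ft (opD e F) W =
      ft F (symmDiff W {e}) - ft (fun T => F (symmDiff T {e})) (symmDiff W {e}) := by
    unfold ft opD
    rw [← Finset.sum_sub_distrib]
    refine Finset.sum_congr rfl fun T _ => ?_
    rw [chr_symmDiff, chr_single]; ring
  rw [e1, ft_flip]; ring

lemma ft_opR (e : Fin n) (F : Finset (Fin n) → ℚ) (W : Finset (Fin n)) :
    ft (opR e F) W = (1 + (if e ∈ symmDiff W {e} then -1 else 1)) * ft F (symmDiff W {e}) := by
  have e1 : ft (opR e F) W =
      ft F (symmDiff W {e}) + ft (fun T => F (symmDiff T {e})) (symmDiff W {e}) := by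
    unfold ft opR
    rw [← Finset.sum_add_distrib]
    refine Finset.sum_congr rfl fun T _ => ?_
    rw [chr_symmDiff, chr_single]; ring
  rw [e1, ft_flip]; ring

lemma mem_symmDiff_single {e : Fin n} {W : Finset (Fin n)} : e ∈ symmDiff W {e} ↔ e ∉ W := by
  simp [Finset.mem_symmDiff]

lemma card_symmDiff_of_notMem {e : Fin n} {W : Finset (Fin n)} (he : e ∉ W) :
    (symmDiff W {e}).card = W.card + 1 := by
  have : symmDiff W {e} = insert e W := by
    ext y; simp only [Finset.mem_symmDiff, Finset.mem_singleton, Finset.mem_insert]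
    constructor
    · rintro (⟨h1, h2⟩ | ⟨h1, h2⟩)
      · exact Or.inr h1
      · exact Or.inl h1
    · rintro (h1 | h1)
      · right; exact ⟨h1, by rw [h1]; exact he⟩
      · left; exact ⟨h1, fun h2 => he (h2 ▸ h1)⟩
  rw [this, Finset.card_insert_of_notMem he]

lemma card_symmDiff_of_mem {e : Fin n} {W : Finset (Fin n)} (he : e ∈ W) :
    (symmDiff W {e}).card + 1 = W.card := by
  have h1 : e ∉ symmDiff W {e} := by rw [mem_symmDiff_single]; exact not_not.mpr he
  have h2 := card_symmDiff_of_notMem h1
  rw [symmDiff_symmDiff_cancel_right] at h2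
  exact h2.symm

lemma supp_opD {S : Finset (Fin n) → Prop} {F : Finset (Fin n) → ℚ} {j : ℕ} (e : Fin n)
    (h : SuppB S (j + 1) F) : SuppB S j (opD e F) := by
  intro T hT
  unfold opD
  rw [h.flip hT e, h.self hT]; ring

lemma supp_opR {S : Finset (Fin n) → Prop} {F : Finset (Fin n) → ℚ} {j : ℕ} (e : Fin n)
    (h : SuppB S (j + 1) F) : SuppB S j (opR e F) := by
  intro T hT
  unfold opR
  rw [h.flip hT e, h.self hT]; ring

/-- low levels: a function supported on radius `s` centres with levels in `[s, s + n - d - 2]` -/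
lemma low {S : Finset (Fin n) → Prop} {d : ℕ} (hn : d + 2 ≤ n)
    (hS : ∀ Y : Finset (Fin n), d + 2 ≤ Y.card → NotShatter S Y) (s : ℕ) :
    ∀ F : Finset (Fin n) → ℚ, SuppB S s F →
      (∀ W, ft F W ≠ 0 → s ≤ W.card ∧ W.card + d + 2 ≤ n + s) → F = 0 := by
  induction s with
  | zero =>
    intro F hF hl
    refine lemmaB (k := d + 2) (m := n - d - 1) (by omega) hS F
      (fun T hT => hF T (by rw [Ball.zero]; exact hT)) ?_
    intro W hW
    by_contra hne
    have := (hl W hne).2
    omega
  | succ s ih =>
    intro F hF hl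
    apply eq_zero_of_ft_eq_zero
    intro W
    by_contra hne
    obtain ⟨h1, h2⟩ := hl W hne
    have hne' : W.Nonempty := by rw [← Finset.card_pos]; omega
    obtain ⟨e, he⟩ := hne'
    have h3 : opD e F = 0 := by
      refine ih _ (supp_opD e hF) ?_
      intro V hV
      rw [ft_opD] at hV
      have hV1 : e ∈ symmDiff V {e} := by
        by_contra hcon
        rw [if_neg hcon] at hV
        exact hV (by ring)
      have hV2 : e ∉ V := mem_symmDiff_single.mp hV1
      have hV3 : ft F (symmDiff V {e}) ≠ 0 := fun h => hV (by rw [h, mul_zero])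
      have hV4 := hl _ hV3
      rw [card_symmDiff_of_notMem hV2] at hV4
      omega
    have h4 := ft_opD e F (symmDiff W {e})
    rw [symmDiff_symmDiff_cancel_right, h3, if_pos he] at h4
    have h5 : ft (0 : Finset (Fin n) → ℚ) (symmDiff W {e}) = 0 := by simp [ft]
    rw [h5] at h4
    apply hne
    linarith

/-- high levels: a function supported on radius `s` centres with levels in `[d + 2 - s, n - s]` -/
lemma high {S : Finset (Fin n) → Prop} {d : ℕ}
    (hS : ∀ Y : Finset (Fin n), d + 2 ≤ Y.card → NotShatter S Y) (s : ℕ) :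
    ∀ F : Finset (Fin n) → ℚ, SuppB S s F →
      (∀ W, ft F W ≠ 0 → d + 2 ≤ W.card + s ∧ W.card + s ≤ n) → F = 0 := by
  induction s with
  | zero =>
    intro F hF hl
    refine lemmaA (k := d + 2) hS F
      (fun T hT => hF T (by rw [Ball.zero]; exact hT)) ?_
    intro W hW
    by_contra hne
    have := (hl W hne).1
    omega
  | succ s ih =>
    intro F hF hl
    apply eq_zero_of_ft_eq_zero
    intro W
    by_contra hne
    obtain ⟨h1, h2⟩ := hl W hne
    have hne' : ∃ e, e ∉ W := by
      by_contra hcon
      push Not at hcon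
      have : W = Finset.univ := Finset.eq_univ_of_forall hcon
      rw [this, Finset.card_univ, Fintype.card_fin] at h2
      omega
    obtain ⟨e, he⟩ := hne'
    have h3 : opR e F = 0 := by
      refine ih _ (supp_opR e hF) ?_
      intro V hV
      rw [ft_opR] at hV
      have hV1 : e ∉ symmDiff V {e} := by
        intro hcon
        rw [if_pos hcon] at hV
        exact hV (by ring)
      have hV2 : e ∈ V := by
        by_contra hcon
        exact hV1 (mem_symmDiff_single.mpr hcon)
      have hV3 : ft F (symmDiff V {e}) ≠ 0 := fun h => hV (by rw [h, mul_zero])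
      have hV4 := hl _ hV3
      have hV5 := card_symmDiff_of_mem hV2
      omega
    have h4 := ft_opR e F (symmDiff W {e})
    rw [symmDiff_symmDiff_cancel_right, h3, if_neg he] at h4
    have h5 : ft (0 : Finset (Fin n) → ℚ) (symmDiff W {e}) = 0 := by simp [ft]
    rw [h5] at h4
    apply hne
    linarith

lemma prod_ne_zero_aux (Q : List ℕ) (c : ℕ) (h : c ∉ Q) :
    (Q.map (fun q : ℕ => 2 * ((q : ℚ) - c))).prod ≠ 0 := by
  apply List.prod_ne_zero
  intro h0
  rw [List.mem_map] at h0
  obtain ⟨q, hq, hq0⟩ := h0
  apply h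
  have : (q : ℚ) = c := by linarith
  have : q = c := by exact_mod_cast this
  rwa [← this]

lemma prod_eq_zero_aux (Q : List ℕ) (c : ℕ) (h : c ∈ Q) :
    (Q.map (fun q : ℕ => 2 * ((q : ℚ) - c))).prod = 0 := by
  rw [List.prod_eq_zero_iff, List.mem_map]
  exact ⟨c, h, by ring⟩

theorem coreK {S : Finset (Fin n) → Prop} {d k : ℕ} (hk : 2 * k ≤ d)
    (hn : k = 0 ∨ 2 * d + 3 ≤ n + 2 * k)
    (hS : ∀ Y : Finset (Fin n), d + 2 ≤ Y.card → NotShatter S Y)
    (g : Finset (Fin n) → ℚ) (hg : SuppB S k g)
    (hpar : ∀ T, g Tᶜ = (-1) ^ d * g T)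
    (h0 : ∀ W : Finset (Fin n), W.card + 2 * k ≤ d → ft g W = 0) : g = 0 := by
  have hparity : ∀ W : Finset (Fin n), ft g W ≠ 0 → Even (d + W.card) := by
    intro W hW
    by_contra hcon
    exact hW (ft_parity g d hpar W hcon)
  -- the levels still possible
  have hst0 : ∀ W : Finset (Fin n), ft g W ≠ 0 → ∃ i, 0 ≤ i ∧ i + 0 < k ∧ W.card + 2 * i = d := by
    obtain ⟨F, hF1, hF2⟩ := exists_kill hg ((List.range k).map (fun i => d - 2 * i)) (by simp)
    have hF0 : F = 0 := by
      refine lemmaA (k := d + 2) hS F ?_ ?_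
      · intro T hT
        apply hF1
        have : k - ((List.range k).map (fun i => d - 2 * i)).length = 0 := by simp
        rw [this, Ball.zero]; exact hT
      · intro W hW
        rw [hF2]
        by_cases hW0 : ft g W = 0
        · rw [hW0, mul_zero]
        · have h1 : ¬ (W.card + 2 * k ≤ d) := fun h => hW0 (h0 W h)
          obtain ⟨r, hr⟩ := hparity W hW0
          rw [prod_eq_zero_aux, zero_mul]
          rw [List.mem_map]
          refine ⟨(d - W.card) / 2, ?_, ?_⟩
          · rw [List.mem_range]; omega
          · omega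
    intro W hW
    by_contra hcon
    push Not at hcon
    have h1 := hF2 W
    rw [hF0] at h1
    have h2 : ft (0 : Finset (Fin n) → ℚ) W = 0 := by simp [ft]
    rw [h2] at h1
    rcases mul_eq_zero.mp h1.symm with h3 | h3
    · refine prod_ne_zero_aux _ _ ?_ h3
      intro hmem
      rw [List.mem_map] at hmem
      obtain ⟨i, hi, hi2⟩ := hmem
      rw [List.mem_range] at hi
      exact hcon i (Nat.zero_le i) (by omega) (by omega)
    · exact hW h3
  rcases hn with hk0 | hn
  · apply eq_zero_of_ft_eq_zero
    intro W
    by_contra hne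
    obtain ⟨i, _, hi, _⟩ := hst0 W hne
    omega
  -- general step
  have step : ∀ a b : ℕ, a + b < k →
      (∀ W : Finset (Fin n), ft g W ≠ 0 → ∃ i, b ≤ i ∧ i + a < k ∧ W.card + 2 * i = d) →
      (a = b → ∀ W : Finset (Fin n), W.card + 2 * (k - a - 1) = d → ft g W = 0) ∧
      (a = b + 1 → ∀ W : Finset (Fin n), W.card + 2 * b = d → ft g W = 0) := by
    intro a b hab hst
    constructor
    · intro hab2
      subst hab2
      obtain ⟨F, hF1, hF2⟩ := exists_kill hg
        ((List.range (k - a - 1 - a)).map (fun i => d - 2 * (a + i))) (by simp; omega)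
      have hF0 : F = 0 := by
        refine low (d := d) (by omega) hS (2 * a + 1) F ?_ ?_
        · refine hF1.mono ?_
          simp; omega
        · intro W hW
          rw [hF2] at hW
          have hW1 : ft g W ≠ 0 := fun h => hW (by rw [h, mul_zero])
          have hW2 : (((List.range (k - a - 1 - a)).map (fun i => d - 2 * (a + i))).map
              (fun q : ℕ => 2 * ((q : ℚ) - W.card))).prod ≠ 0 := fun h => hW (by rw [h, zero_mul])
          obtain ⟨i, hi1, hi2, hi3⟩ := hst W hW1
          have hi4 : ¬ i < k - a - 1 := by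
            intro hlt
            apply hW2
            apply prod_eq_zero_aux
            rw [List.mem_map]
            exact ⟨i - a, by rw [List.mem_range]; omega, by omega⟩
          constructor <;> omega
      intro W hW
      have h1 := hF2 W
      rw [hF0] at h1
      have h2 : ft (0 : Finset (Fin n) → ℚ) W = 0 := by simp [ft]
      rw [h2] at h1
      rcases mul_eq_zero.mp h1.symm with h3 | h3
      · exfalso
        refine prod_ne_zero_aux _ _ ?_ h3
        intro hmem
        rw [List.mem_map] at hmem
        obtain ⟨i, hi, hi2⟩ := hmem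
        rw [List.mem_range] at hi
        omega
      · exact h3
    · intro hab2
      subst hab2
      obtain ⟨F, hF1, hF2⟩ := exists_kill hg
        ((List.range (k - (b + 1) - 1 - b)).map (fun i => d - 2 * (b + 1 + i))) (by simp; omega)
      have hF0 : F = 0 := by
        refine high (d := d) hS (2 * b + 2) F ?_ ?_
        · refine hF1.mono ?_
          simp; omega
        · intro W hW
          rw [hF2] at hW
          have hW1 : ft g W ≠ 0 := fun h => hW (by rw [h, mul_zero])
          have hW2 : (((List.range (k - (b + 1) - 1 - b)).map (fun i => d - 2 * (b + 1 + i))).map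
              (fun q : ℕ => 2 * ((q : ℚ) - W.card))).prod ≠ 0 := fun h => hW (by rw [h, zero_mul])
          obtain ⟨i, hi1, hi2, hi3⟩ := hst W hW1
          have hi4 : ¬ b < i := by
            intro hlt
            apply hW2
            apply prod_eq_zero_aux
            rw [List.mem_map]
            exact ⟨i - (b + 1), by rw [List.mem_range]; omega, by omega⟩
          constructor <;> omega
      intro W hW
      have h1 := hF2 W
      rw [hF0] at h1
      have h2 : ft (0 : Finset (Fin n) → ℚ) W = 0 := by simp [ft]
      rw [h2] at h1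
      rcases mul_eq_zero.mp h1.symm with h3 | h3
      · exfalso
        refine prod_ne_zero_aux _ _ ?_ h3
        intro hmem
        rw [List.mem_map] at hmem
        obtain ⟨i, hi, hi2⟩ := hmem
        rw [List.mem_range] at hi
        omega
      · exact h3
  have hst : ∀ a : ℕ, ∀ W : Finset (Fin n), ft g W ≠ 0 →
      ∃ i, a ≤ i ∧ i + a < k ∧ W.card + 2 * i = d := by
    intro a
    induction a with
    | zero => exact hst0
    | succ a ih =>
      -- first the lowest level
      have h1 : ∀ W : Finset (Fin n), ft g W ≠ 0 →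
          ∃ i, a ≤ i ∧ i + (a + 1) < k ∧ W.card + 2 * i = d := by
        intro W hW
        obtain ⟨i, hi1, hi2, hi3⟩ := ih W hW
        refine ⟨i, hi1, ?_, hi3⟩
        by_contra hcon
        have : i = k - a - 1 := by omega
        exact hW ((step a a (by omega) ih).1 rfl W (by rw [← this]; exact hi3))
      intro W hW
      obtain ⟨i, hi1, hi2, hi3⟩ := h1 W hW
      refine ⟨i, ?_, hi2, hi3⟩
      by_contra hcon
      have : i = a := by omega
      exact hW ((step (a + 1) a (by omega) h1).2 rfl W (by rw [← this]; exact hi3))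
  apply eq_zero_of_ft_eq_zero
  intro W
  by_contra hne
  obtain ⟨i, hi1, hi2, _⟩ := hst k W hne
  omega

open Classical in
/-- The counting theorem for balls of radius `k`. -/
theorem countK {S : Finset (Fin n) → Prop} {d k : ℕ} (hn0 : 0 < n) (hk : 2 * k ≤ d)
    (hn : k = 0 ∨ 2 * d + 3 ≤ n + 2 * k)
    (hcompl : ∀ T, S T → S Tᶜ)
    (hS : ∀ Y : Finset (Fin n), d + 2 ≤ Y.card → NotShatter S Y) :
    (Finset.univ.filter (fun T : Finset (Fin n) => Ball S k T)).card
      ≤ 2 * ∑ i ∈ Finset.range (d - 2 * k + 1), (n - 1).choose i := by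
  let z : Fin n := ⟨0, hn0⟩
  have hCc : ∀ T, Ball S k T → Ball S k Tᶜ := by
    intro T hT E hE
    have : symmDiff Tᶜ E = (symmDiff T E)ᶜ := by
      ext y; simp only [Finset.mem_symmDiff, Finset.mem_compl]; tauto
    rw [this]
    exact hcompl _ (hT E hE)
  set C0 : Finset (Finset (Fin n)) :=
    Finset.univ.filter (fun T : Finset (Fin n) => Ball S k T ∧ z ∉ T) with hC0
  set U0 : Finset (Finset (Fin n)) :=
    (Finset.univ.erase z).powerset.filter (fun W => W.card < d - 2 * k + 1) with hU0
  -- doubling
  have hdouble : (Finset.univ.filter (fun T : Finset (Fin n) => Ball S k T)).card = 2 * C0.card := by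
    have h1 : Finset.univ.filter (fun T : Finset (Fin n) => Ball S k T) =
        C0 ∪ Finset.univ.filter (fun T : Finset (Fin n) => Ball S k T ∧ z ∈ T) := by
      ext T; simp only [hC0, Finset.mem_filter, Finset.mem_univ, true_and, Finset.mem_union]; tauto
    have h2 : Disjoint C0 (Finset.univ.filter (fun T : Finset (Fin n) => Ball S k T ∧ z ∈ T)) := by
      rw [Finset.disjoint_left]
      intro T h3 h4
      simp only [hC0, Finset.mem_filter, Finset.mem_univ, true_and] at h3 h4
      exact h3.2 h4.2
    have h3 : (Finset.univ.filter (fun T : Finset (Fin n) => Ball S k T ∧ z ∈ T)).card = C0.card := by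
      refine Finset.card_bij' (fun T _ => Tᶜ) (fun T _ => Tᶜ) ?_ ?_ ?_ ?_
      · intro T hT
        simp only [hC0, Finset.mem_filter, Finset.mem_univ, true_and, Finset.mem_compl, not_not] at hT ⊢
        exact ⟨hCc T hT.1, hT.2⟩
      · intro T hT
        simp only [hC0, Finset.mem_filter, Finset.mem_univ, true_and, Finset.mem_compl] at hT ⊢
        exact ⟨hCc T hT.1, hT.2⟩
      · intro T _; exact compl_compl T
      · intro T _; exact compl_compl T
    rw [h1, Finset.card_union_of_disjoint h2, h3]; ring
  have hU0card : U0.card = ∑ i ∈ Finset.range (d - 2 * k + 1), (n - 1).choose i := by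
    have h1 : U0 = (Finset.range (d - 2 * k + 1)).biUnion
        (fun i => (Finset.univ.erase z).powersetCard i) := by
      ext W
      simp only [hU0, Finset.mem_filter, Finset.mem_powerset, Finset.mem_biUnion, Finset.mem_range,
        Finset.mem_powersetCard]
      constructor
      · rintro ⟨h1, h2⟩; exact ⟨W.card, h2, h1, rfl⟩
      · rintro ⟨i, hi, h1, h2⟩; exact ⟨h1, by omega⟩
    rw [h1, Finset.card_biUnion]
    · refine Finset.sum_congr rfl fun i _ => ?_
      rw [Finset.card_powersetCard, Finset.card_erase_of_mem (Finset.mem_univ z), Finset.card_univ,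
        Fintype.card_fin]
    · intro i _ j _ hij
      rw [Function.onFun, Finset.disjoint_left]
      intro W h2 h3
      rw [Finset.mem_powersetCard] at h2 h3
      exact hij (h2.2.symm.trans h3.2)
  -- the linear map
  let Φ : (C0 → ℚ) →ₗ[ℚ] (U0 → ℚ) :=
    { toFun := fun f W => ∑ T : C0, f T * chr W.1 T.1
      map_add' := by
        intro f g; funext W
        simp only [Pi.add_apply, add_mul, Finset.sum_add_distrib]
      map_smul' := by
        intro c f; funext W
        simp only [Pi.smul_apply, smul_eq_mul, RingHom.id_apply, Finset.mul_sum, mul_assoc] }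
  have hΦ : Function.Injective Φ := by
    rw [injective_iff_map_eq_zero]
    intro f hf
    set f' : Finset (Fin n) → ℚ := fun T => if h : T ∈ C0 then f ⟨T, h⟩ else 0 with hf'
    have hf'0 : ∀ T, T ∉ C0 → f' T = 0 := fun T hT => by simp only [hf']; rw [dif_neg hT]
    set g : Finset (Fin n) → ℚ := fun T => f' T + (-1) ^ d * f' Tᶜ with hg
    have hsq : ((-1 : ℚ)) ^ d * (-1) ^ d = 1 := by
      rw [← mul_pow]; norm_num
    have hgz : g = 0 := by
      refine coreK hk hn hS g ?_ ?_ ?_
      · intro T hT
        have h1 : T ∉ C0 := fun h => hT (Finset.mem_filter.mp h).2.1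
        have h2 : Tᶜ ∉ C0 := fun h => hT (by
          have := hCc _ (Finset.mem_filter.mp h).2.1
          rwa [compl_compl] at this)
        simp only [hg]
        rw [hf'0 T h1, hf'0 _ h2]; ring
      · intro T
        simp only [hg]
        rw [compl_compl]
        linear_combination (-(f' Tᶜ)) * hsq
      · intro W hW
        have hW2 : W.card < d - 2 * k + 1 := by omega
        have h1 : ft f' W = 0 := by
          have hmem : W.erase z ∈ U0 := by
            simp only [hU0, Finset.mem_filter, Finset.mem_powerset]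
            refine ⟨Finset.erase_subset_erase z (Finset.subset_univ W), ?_⟩
            exact lt_of_le_of_lt (Finset.card_le_card (Finset.erase_subset z W)) hW2
          have h2 := congrFun hf ⟨W.erase z, hmem⟩
          have h3 : ∑ T : C0, f T * chr (W.erase z) T.1 = 0 := h2
          have h4 : ft f' W = ∑ T ∈ C0, f' T * chr W T := by
            unfold ft
            symm
            apply Finset.sum_subset (Finset.subset_univ _)
            intro T _ hT
            rw [hf'0 T hT, zero_mul]
          rw [h4, ← Finset.sum_coe_sort C0 (fun T => f' T * chr W T), ← h3]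
          refine Finset.sum_congr rfl fun T _ => ?_
          have h5 : f' T.1 = f T := by
            simp only [hf']; rw [dif_pos T.2]
          rw [h5]
          congr 1
          have hz : z ∉ T.1 := (Finset.mem_filter.mp T.2).2.2
          unfold chr
          by_cases hzW : z ∈ W
          · rw [← Finset.mul_prod_erase W _ hzW]
            have : sg T.1 z = 1 := by unfold sg; rw [if_neg hz]
            rw [this, one_mul]
          · rw [Finset.erase_eq_of_notMem hzW]
        have h6 : ft g W = ft f' W + (-1) ^ d * ∑ T, f' Tᶜ * chr W T := by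
          unfold ft
          simp only [hg]
          rw [Finset.mul_sum, ← Finset.sum_add_distrib]
          refine Finset.sum_congr rfl fun T _ => ?_
          ring
        have h7 : ∑ T, f' Tᶜ * chr W T = ∑ T, f' T * chr W Tᶜ := by
          refine Finset.sum_nbij' (fun T => Tᶜ) (fun T => Tᶜ) ?_ ?_ ?_ ?_ ?_ <;> simp
        have h8 : ∑ T, f' T * chr W Tᶜ = (-1) ^ W.card * ft f' W := by
          unfold ft
          rw [Finset.mul_sum]
          refine Finset.sum_congr rfl fun T _ => ?_
          rw [chr_compl]; ring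
        rw [h6, h7, h8, h1]; ring
    funext T
    have h1 := congrFun hgz T.1
    simp only [hg, Pi.zero_apply] at h1
    have h2 : T.1ᶜ ∉ C0 := by
      intro h
      have h3 := (Finset.mem_filter.mp h).2.2
      have h4 := (Finset.mem_filter.mp T.2).2.2
      exact h3 (Finset.mem_compl.mpr h4)
    rw [hf'0 _ h2, mul_zero, add_zero] at h1
    have h5 : f' T.1 = f T := by
      simp only [hf']; rw [dif_pos T.2]
    rw [h5] at h1
    exact h1
  have hle := LinearMap.finrank_le_finrank_of_injective hΦ
  rw [Module.finrank_fintype_fun_eq_card, Module.finrank_fintype_fun_eq_card,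
    Fintype.card_coe, Fintype.card_coe] at hle
  rw [hdouble, ← hU0card]
  omega

end Pool.Agent.H800R3.Roud
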