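import Pool.Agent.H800R3.OMDef
import Pool.Agent.H800R3.RoudK

namespace Pool.Agent.H800R3.OM

open Pool.Agent.H800R3.Roud

variable {n : ℕ}

/-- sign vector with negative part `T` -/
def sv (T : Finset (Fin n)) : SVec n := fun e => if e ∈ T then -1 else 1

lemma sv_compl (T : Finset (Fin n)) : sv Tᶜ = fun e => - sv T e := by
  funext e; unfold sv
  by_cases h : e ∈ T <;> simp [h]

lemma sv_ne_zero (T : Finset (Fin n)) (e : Fin n) : sv T e ≠ 0 := by
  unfold sv; split_ifs <;> decide

/-- The tope predicate. -/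
def Tope (L : Set (SVec n)) (T : Finset (Fin n)) : Prop := sv T ∈ L

lemma tope_compl {L : Set (SVec n)} (hL : IsOM L) (T : Finset (Fin n)) (h : Tope L T) :
    Tope L Tᶜ := by
  unfold Tope
  rw [sv_compl]
  exact hL.neg_mem _ h

/-- If the topes shatter `Y`, then every partial sign pattern on `Y` extends to a covector. -/
lemma partial_pattern {L : Set (SVec n)} (hL : IsOM L) (Y : Finset (Fin n))
    (hY : ∀ p : Finset (Fin n), ∃ T, Tope L T ∧ ∀ y ∈ Y, (y ∈ T ↔ y ∈ p))
    (Z : Finset (Fin n)) (hZ : Z ⊆ Y) (p : Finset (Fin n)) :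
    ∃ X ∈ L, (∀ y ∈ Z, X y = 0) ∧ ∀ y ∈ Y, y ∉ Z → X y = sv p y := by
  classical
  induction Z using Finset.induction_on generalizing p with
  | empty =>
    obtain ⟨T, hT, hTp⟩ := hY p
    refine ⟨sv T, hT, by simp, ?_⟩
    intro y hy _
    unfold sv
    by_cases h : y ∈ T
    · rw [if_pos h, if_pos ((hTp y hy).mp h)]
    · rw [if_neg h, if_neg (fun h' => h ((hTp y hy).mpr h'))]
  | insert e Z he ih =>
    have hZ' : Z ⊆ Y := fun y hy => hZ (Finset.mem_insert_of_mem hy)
    have heY : e ∈ Y := hZ (Finset.mem_insert_self e Z)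
    obtain ⟨X1, h1L, h1Z, h1Y⟩ := ih hZ' (insert e p)
    obtain ⟨X2, h2L, h2Z, h2Y⟩ := ih hZ' (p.erase e)
    have hX1e : X1 e = -1 := by
      rw [h1Y e heY he]; unfold sv; rw [if_pos (Finset.mem_insert_self e p)]
    have hX2e : X2 e = 1 := by
      rw [h2Y e heY he]; unfold sv; rw [if_neg (Finset.notMem_erase e p)]
    have hsep : Separates X1 X2 e := ⟨by rw [hX1e]; decide, by rw [hX1e, hX2e]⟩
    obtain ⟨W, hWL, hWe, hW⟩ := hL.elim X1 h1L X2 h2L e hsep
    have hagree : ∀ y ∈ Y, y ≠ e → X1 y = X2 y := by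
      intro y hy hne
      by_cases hyZ : y ∈ Z
      · rw [h1Z y hyZ, h2Z y hyZ]
      · rw [h1Y y hy hyZ, h2Y y hy hyZ]
        unfold sv
        simp [hne]
    have hns : ∀ y ∈ Y, y ≠ e → ¬ Separates X1 X2 y := by
      intro y hy hne hs
      obtain ⟨h3, h4⟩ := hs
      rw [← hagree y hy hne] at h4
      revert h3 h4
      generalize X1 y = a
      revert a; decide
    refine ⟨W, hWL, ?_, ?_⟩
    · intro y hy
      rcases Finset.mem_insert.mp hy with rfl | hy
      · exact hWe
      · have hne : y ≠ e := fun h => he (h ▸ hy)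
        rw [hW y (hns y (hZ' hy) hne)]
        unfold comp
        rw [if_pos (h1Z y hy), h2Z y hy]
    · intro y hy hyZ
      rw [Finset.mem_insert, not_or] at hyZ
      rw [hW y (hns y hy hyZ.1)]
      have h5 := h1Y y hy hyZ.2
      have h6 : sv (insert e p) y = sv p y := by
        unfold sv; simp [hyZ.1]
      rw [h6] at h5
      unfold comp
      rw [if_neg (by rw [h5]; exact sv_ne_zero p y), h5]

/-- The topes of an oriented matroid of rank at most `r` shatter no set with more than `r`
elements. -/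
lemma notShatter {L : Set (SVec n)} (hL : IsOM L) {r : ℕ} (hr : ∀ m, HasChain L m → m ≤ r)
    (Y : Finset (Fin n)) (hYc : r + 1 ≤ Y.card) : NotShatter (Tope L) Y := by
  classical
  by_contra hcon
  unfold NotShatter at hcon
  push Not at hcon
  have hY : ∀ p : Finset (Fin n), ∃ T, Tope L T ∧ ∀ y ∈ Y, (y ∈ T ↔ y ∈ p) := hcon
  -- enumerate Y
  let y : Fin Y.card → Fin n := Y.orderEmbOfFin rfl
  have hyinj : Function.Injective y := (Y.orderEmbOfFin rfl).injective
  have hyY : ∀ i, y i ∈ Y := fun i => Finset.orderEmbOfFin_mem Y rfl i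
  -- partial vectors
  have hX : ∀ j : ℕ, ∃ X ∈ L, (∀ i : Fin Y.card, (i : ℕ) < j → X (y i) = 1) ∧
      ∀ i : Fin Y.card, j ≤ (i : ℕ) → X (y i) = 0 := by
    intro j
    obtain ⟨X, h1, h2, h3⟩ := partial_pattern hL Y hY
      ((Finset.univ.filter (fun i : Fin Y.card => j ≤ (i : ℕ))).image y) (by
        intro v hv
        rw [Finset.mem_image] at hv
        obtain ⟨i, _, rfl⟩ := hv
        exact hyY i) ∅
    refine ⟨X, h1, ?_, ?_⟩
    · intro i hi
      rw [h3 (y i) (hyY i)]
      · simp [sv]
      · intro hmem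
        rw [Finset.mem_image] at hmem
        obtain ⟨i', hi', hii⟩ := hmem
        rw [hyinj hii] at hi'
        rw [Finset.mem_filter] at hi'
        omega
    · intro i hi
      apply h2
      rw [Finset.mem_image]
      exact ⟨i, by rw [Finset.mem_filter]; exact ⟨Finset.mem_univ i, hi⟩, rfl⟩
  choose X hXL hX1 hX0 using hX
  -- chain
  let Z : ℕ → SVec n := fun j => Nat.rec (fun _ => 0) (fun j Zj => comp Zj (X (j + 1))) j
  have hZ0 : Z 0 = fun _ => 0 := rfl
  have hZs : ∀ j, Z (j + 1) = comp (Z j) (X (j + 1)) := fun j => rfl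
  have hZL : ∀ j, Z j ∈ L := by
    intro j
    induction j with
    | zero => exact hL.zero_mem
    | succ j ih => rw [hZs]; exact hL.comp_mem _ ih _ (hXL _)
  have hZzero : ∀ j, ∀ i : Fin Y.card, j ≤ (i : ℕ) → Z j (y i) = 0 := by
    intro j
    induction j with
    | zero => intro i _; rfl
    | succ j ih =>
      intro i hi
      rw [hZs]
      unfold comp
      rw [if_pos (ih i (by omega))]
      exact hX0 (j + 1) i hi
  have hchain : HasChain L Y.card := by
    refine ⟨fun i => Z i, fun i => hZL i, ?_⟩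
    intro i
    constructor
    · intro e
      show Z i.val e = 0 ∨ Z i.val e = Z (i.val + 1) e
      rcases eq_or_ne (Z i.val e) 0 with h | h
      · exact Or.inl h
      · right; rw [hZs]; unfold comp; rw [if_neg h]
    · intro heq
      have h1 : Z (i : ℕ) (y i) = Z ((i : ℕ) + 1) (y i) := congrFun heq (y i)
      rw [hZzero (i : ℕ) i le_rfl, hZs] at h1
      unfold comp at h1
      rw [if_pos (hZzero (i : ℕ) i le_rfl), hX1 ((i : ℕ) + 1) i (by omega)] at h1
      exact absurd h1 (by decide)
  have := hr _ hchain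
  omega

/-- A `k`-neighborly reorientation is the centre of a ball of topes. -/
lemma ball_of_kneighborly {L : Set (SVec n)} (hL : IsOM L) {k : ℕ} (A : Finset (Fin n))
    (h : KNeighborly (reorient A L) k) : Ball (Tope L) k A := by
  intro E hE
  obtain ⟨hac, hF⟩ := h
  -- the tope of A
  have hA : sv A ∈ L := by
    obtain ⟨Y, hY, hY1⟩ := hac
    have : sv A = Y := by
      funext e
      have h1 := congrFun hY1 e
      simp only [flipOn] at h1
      unfold sv
      by_cases h : e ∈ A
      · rw [if_pos h] at h1 ⊢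
        rw [h1, neg_neg]
      · rw [if_neg h] at h1 ⊢
        exact h1
    rw [this]; exact hY
  obtain ⟨Y, ⟨X, hX, hYX⟩, hY0, hY1⟩ := hF E hE
  have hneg := hL.neg_mem _ hA
  have hc := hL.comp_mem X hX _ hneg
  have : sv (symmDiff A E) = comp X (fun e => - sv A e) := by
    funext e
    unfold comp
    have hYe : Y e = flipOn A X e := congrFun hYX e
    simp only [flipOn] at hYe
    by_cases heE : e ∈ E
    · have h0 := hY0 e heE
      rw [h0] at hYe
      have hXe : X e = 0 := by
        by_cases h : e ∈ A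
        · rw [if_pos h] at hYe
          revert hYe; generalize X e = a; revert a; decide
        · rw [if_neg h] at hYe; exact hYe.symm
      rw [if_pos hXe]
      unfold sv
      by_cases h : e ∈ A <;> simp [Finset.mem_symmDiff, h, heE]
    · have h1 := hY1 e heE
      rw [h1] at hYe
      by_cases h : e ∈ A
      · rw [if_pos h] at hYe
        have hXe : X e = -1 := by
          revert hYe; generalize X e = a; revert a; decide
        rw [hXe]
        unfold sv
        simp [Finset.mem_symmDiff, h, heE]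
      · rw [if_neg h] at hYe
        rw [← hYe]
        unfold sv
        simp [Finset.mem_symmDiff, h, heE]
  show sv (symmDiff A E) ∈ L
  rw [this]; exact hc

/-- Upper bound on the number of `k`-neighborly reorientations. -/
theorem num_le {L : Set (SVec n)} (hL : IsOM L) {r k : ℕ} (hr : HasRank L r) (hn0 : 0 < n)
    (hk : 2 * k + 1 ≤ r) (hn : k = 0 ∨ 2 * (r - k) + 1 ≤ n) :
    numNeighborly L k ≤ 2 * ∑ i ∈ Finset.range (r - 2 * k), (n - 1).choose i := by
  classical
  obtain ⟨d, rfl⟩ : ∃ d, r = d + 1 := ⟨r - 1, by omega⟩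
  have h1 := countK (S := Tope L) (d := d) (k := k) hn0 (by omega)
    (by rcases hn with h | h
        · exact Or.inl h
        · right; omega)
    (fun T hT => tope_compl hL T hT)
    (fun Y hY => notShatter hL hr.2 Y (by omega))
  have h2 : d - 2 * k + 1 = d + 1 - 2 * k := by omega
  rw [h2] at h1
  refine le_trans ?_ h1
  unfold numNeighborly
  rw [← Set.ncard_coe_finset]
  apply Set.ncard_le_ncard
  · intro A hA
    simp only [Finset.coe_filter, Finset.mem_univ, true_and, Set.mem_ofPred_eq] at hA ⊢
    exact ball_of_kneighborly hL A hA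
  · exact Finset.finite_toSet _

end Pool.Agent.H800R3.OM
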