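import Mathlib

/-!
# Roudneff's conjecture (pseudohyperplane form): the Fourier-analytic core

`S` is a family of subsets of `Fin n` (the negative parts of the topes of a uniform oriented
matroid of rank `d + 1`), closed under complement and not shattering any set of size `d + 2`.
For `n ≥ 2 d + 1` the number of `T ∈ S` all of whose one-element flips lie in `S` is at most
`2 * ∑_{i ≤ d - 2} (n - 1).choose i`.
-/

namespace Pool.Agent.H800R3.Roud

open Finset

variable {n : ℕ}

/-- sign of `T` at `y` -/
def sg (T : Finset (Fin n)) (y : Fin n) : ℚ := if y ∈ T then -1 else 1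

/-- character -/
def chr (W T : Finset (Fin n)) : ℚ := ∏ y ∈ W, sg T y

/-- Fourier transform -/
def ft (f : Finset (Fin n) → ℚ) (W : Finset (Fin n)) : ℚ := ∑ T, f T * chr W T

lemma sg_sq (T : Finset (Fin n)) (y : Fin n) : sg T y * sg T y = 1 := by
  unfold sg; split_ifs <;> norm_num

lemma sg_ne_zero (T : Finset (Fin n)) (y : Fin n) : sg T y ≠ 0 := by
  unfold sg; split_ifs <;> norm_num

/-- The indicator expansion. -/
lemma prod_expand (Y p T : Finset (Fin n)) :
    ∏ y ∈ Y, (1 + sg p y * sg T y) = ∑ W ∈ Y.powerset, chr W p * chr W T := by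
  rw [Finset.prod_one_add]
  refine Finset.sum_congr rfl fun W _ => ?_
  unfold chr
  rw [Finset.prod_mul_distrib]

/-- if `T ∩ Y ≠ p ∩ Y` then the product vanishes -/
lemma prod_eq_zero_of_ne {Y p T : Finset (Fin n)} (h : ∃ y ∈ Y, ¬ (y ∈ T ↔ y ∈ p)) :
    ∏ y ∈ Y, (1 + sg p y * sg T y) = 0 := by
  obtain ⟨y, hy, hne⟩ := h
  refine Finset.prod_eq_zero hy ?_
  unfold sg
  by_cases h1 : y ∈ T <;> by_cases h2 : y ∈ p <;> simp_all

lemma ft_expand (f : Finset (Fin n) → ℚ) (Y p : Finset (Fin n)) :
    ∑ T, f T * ∏ y ∈ Y, (1 + sg p y * sg T y) = ∑ W ∈ Y.powerset, chr W p * ft f W := by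
  simp_rw [prod_expand, Finset.mul_sum]
  rw [Finset.sum_comm]
  refine Finset.sum_congr rfl fun W _ => ?_
  unfold ft
  rw [Finset.mul_sum]
  refine Finset.sum_congr rfl fun T _ => ?_
  ring

/-- Fourier inversion (vanishing form). -/
lemma eq_zero_of_ft_eq_zero (f : Finset (Fin n) → ℚ) (h : ∀ W, ft f W = 0) : f = 0 := by
  funext T0
  have h1 := ft_expand f Finset.univ T0
  have h2 : ∑ W ∈ (Finset.univ : Finset (Fin n)).powerset, chr W T0 * ft f W = 0 :=
    Finset.sum_eq_zero fun W _ => by rw [h W, mul_zero]
  rw [h2] at h1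
  have h3 : ∑ T, f T * ∏ y, (1 + sg T0 y * sg T y) = f T0 * 2 ^ n := by
    rw [Finset.sum_eq_single T0]
    · congr 1
      have : ∀ y ∈ (Finset.univ : Finset (Fin n)), (1 + sg T0 y * sg T0 y) = 2 := by
        intro y _; rw [sg_sq]; norm_num
      rw [Finset.prod_congr rfl this]
      simp
    · intro T _ hT
      rw [prod_eq_zero_of_ne, mul_zero]
      by_contra hcon
      push Not at hcon
      exact hT (Finset.ext fun y => hcon y (Finset.mem_univ y))
    · intro h; exact absurd (Finset.mem_univ _) h
  rw [h3] at h1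
  have h4 : (2 : ℚ) ^ n ≠ 0 := pow_ne_zero _ (by norm_num)
  simpa [h4] using h1

/-- `S` does not shatter `Y`. -/
def NotShatter (S : Finset (Fin n) → Prop) (Y : Finset (Fin n)) : Prop :=
  ∃ p : Finset (Fin n), ∀ T, S T → ∃ y ∈ Y, ¬ (y ∈ T ↔ y ∈ p)

lemma chr_ne_zero (W T : Finset (Fin n)) : chr W T ≠ 0 :=
  Finset.prod_ne_zero_iff.mpr fun y _ => sg_ne_zero T y

/-- Low Fourier coefficients determine a function supported on a family of small VC dimension. -/
lemma lemmaA {S : Finset (Fin n) → Prop} {k : ℕ}
    (hS : ∀ Y : Finset (Fin n), k ≤ Y.card → NotShatter S Y)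
    (f : Finset (Fin n) → ℚ) (hf : ∀ T, ¬ S T → f T = 0)
    (h0 : ∀ W : Finset (Fin n), W.card < k → ft f W = 0) : f = 0 := by
  apply eq_zero_of_ft_eq_zero
  intro Y
  induction Y using Finset.strongInduction with
  | H Y ih =>
    by_cases hY : Y.card < k
    · exact h0 Y hY
    · push Not at hY
      obtain ⟨p, hp⟩ := hS Y hY
      have h1 := ft_expand f Y p
      have h2 : ∑ T, f T * ∏ y ∈ Y, (1 + sg p y * sg T y) = 0 := by
        refine Finset.sum_eq_zero fun T _ => ?_
        by_cases hT : S T
        · rw [prod_eq_zero_of_ne (hp T hT), mul_zero]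
        · rw [hf T hT, zero_mul]
      rw [h2] at h1
      rw [Finset.sum_eq_single Y] at h1
      · have := chr_ne_zero Y p
        rcases mul_eq_zero.mp h1.symm with h | h
        · exact absurd h this
        · exact h
      · intro W hW hne
        have hss : W ⊂ Y := lt_of_le_of_ne (Finset.mem_powerset.mp hW) hne
        rw [ih W hss, mul_zero]
      · intro h; exact absurd (Finset.mem_powerset_self Y) h

lemma chr_symmDiff (W Z T : Finset (Fin n)) : chr (symmDiff W Z) T = chr W T * chr Z T := by
  unfold chr
  rw [← Finset.prod_filter_mul_prod_filter_not W (fun y => y ∈ Z),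
    ← Finset.prod_filter_mul_prod_filter_not Z (fun y => y ∈ W),
    ← Finset.prod_filter_mul_prod_filter_not (symmDiff W Z) (fun y => y ∈ W)]
  have e1 : (symmDiff W Z).filter (fun y => y ∈ W) = W.filter (fun y => ¬ y ∈ Z) := by
    ext y; simp only [Finset.mem_filter, Finset.mem_symmDiff]; tauto
  have e2 : (symmDiff W Z).filter (fun y => ¬ y ∈ W) = Z.filter (fun y => ¬ y ∈ W) := by
    ext y; simp only [Finset.mem_filter, Finset.mem_symmDiff]; tauto
  have e3 : Z.filter (fun y => y ∈ W) = W.filter (fun y => y ∈ Z) := by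
    ext y; simp only [Finset.mem_filter]; tauto
  rw [e1, e2, e3]
  have e4 : (∏ y ∈ W.filter (fun y => y ∈ Z), sg T y) * (∏ y ∈ W.filter (fun y => y ∈ Z), sg T y)
      = 1 := by
    rw [← Finset.prod_mul_distrib]
    exact Finset.prod_eq_one fun y _ => sg_sq T y
  calc _ = ((∏ y ∈ W.filter (fun y => y ∈ Z), sg T y) * (∏ y ∈ W.filter (fun y => y ∈ Z), sg T y))
        * ((∏ y ∈ W.filter (fun y => ¬ y ∈ Z), sg T y) *
          ∏ y ∈ Z.filter (fun y => ¬ y ∈ W), sg T y) := by rw [e4, one_mul]
    _ = _ := by ring

/-- A function supported on `S` of small degree vanishes. -/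
lemma lemmaB {S : Finset (Fin n) → Prop} {k m : ℕ} (hkm : k + m ≤ n + 1)
    (hS : ∀ Y : Finset (Fin n), k ≤ Y.card → NotShatter S Y)
    (f : Finset (Fin n) → ℚ) (hf : ∀ T, ¬ S T → f T = 0)
    (h0 : ∀ W : Finset (Fin n), m ≤ W.card → ft f W = 0) : f = 0 := by
  -- multiply by the character of the full set
  set F : Finset (Fin n) → ℚ := fun T => f T * chr Finset.univ T with hF
  have hFt : ∀ W, ft F W = ft f Wᶜ := by
    intro W
    unfold ft
    refine Finset.sum_congr rfl fun T _ => ?_
    have : Wᶜ = symmDiff Finset.univ W := by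
      ext y; simp [Finset.mem_symmDiff]
    rw [this, chr_symmDiff]
    simp only [hF]; ring
  have hF0 : F = 0 := by
    refine lemmaA hS F (fun T hT => by simp only [hF]; rw [hf T hT, zero_mul]) ?_
    intro W hW
    rw [hFt]
    apply h0
    rw [Finset.card_compl, Fintype.card_fin]
    omega
  funext T
  have h1 : f T * chr Finset.univ T = 0 := congrFun hF0 T
  rcases mul_eq_zero.mp h1 with h | h
  · exact h
  · exact absurd h (chr_ne_zero _ _)

lemma sg_flip (T : Finset (Fin n)) (e y : Fin n) :
    sg (symmDiff T {e}) y = (if y = e then -1 else 1) * sg T y := by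
  unfold sg
  by_cases h1 : y ∈ T <;> by_cases h2 : y = e <;>
    first
      | (subst h2; simp [Finset.mem_symmDiff, h1])
      | simp [Finset.mem_symmDiff, h1, h2]

lemma chr_flip (W T : Finset (Fin n)) (e : Fin n) :
    chr W (symmDiff T {e}) = (if e ∈ W then -1 else 1) * chr W T := by
  unfold chr
  simp_rw [sg_flip]
  rw [Finset.prod_mul_distrib]
  congr 1
  rw [Finset.prod_ite_eq' W e (fun _ => (-1 : ℚ))]

lemma ft_flip (f : Finset (Fin n) → ℚ) (W : Finset (Fin n)) (e : Fin n) :
    ft (fun T => f (symmDiff T {e})) W = (if e ∈ W then -1 else 1) * ft f W := by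
  unfold ft
  have : ∑ T, f (symmDiff T {e}) * chr W T =
      ∑ T, f T * chr W (symmDiff T {e}) := by
    refine Finset.sum_nbij' (fun T => symmDiff T {e}) (fun T => symmDiff T {e}) ?_ ?_ ?_ ?_ ?_
    · intro T _; exact Finset.mem_univ _
    · intro T _; exact Finset.mem_univ _
    · intro T _; exact symmDiff_symmDiff_cancel_right _ _
    · intro T _; exact symmDiff_symmDiff_cancel_right _ _
    · intro T _; rw [symmDiff_symmDiff_cancel_right]
  rw [this, Finset.mul_sum]
  refine Finset.sum_congr rfl fun T _ => ?_
  rw [chr_flip]; ring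

lemma sg_compl (T : Finset (Fin n)) (y : Fin n) : sg Tᶜ y = - sg T y := by
  unfold sg; by_cases h : y ∈ T <;> simp [h]

lemma chr_compl (W T : Finset (Fin n)) : chr W Tᶜ = (-1) ^ W.card * chr W T := by
  unfold chr
  simp_rw [sg_compl]
  rw [Finset.prod_neg]

/-- parity kills half of the Fourier coefficients -/
lemma ft_parity (f : Finset (Fin n) → ℚ) (d : ℕ) (hf : ∀ T, f Tᶜ = (-1) ^ d * f T)
    (W : Finset (Fin n)) (hW : ¬ (Even (d + W.card))) : ft f W = 0 := by
  have h1 : ft f W = ∑ T, f Tᶜ * chr W Tᶜ := by
    unfold ft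
    refine Finset.sum_nbij' (fun T => Tᶜ) (fun T => Tᶜ) ?_ ?_ ?_ ?_ ?_ <;> simp
  have h2 : ∑ T, f Tᶜ * chr W Tᶜ = - ft f W := by
    unfold ft
    rw [← Finset.sum_neg_distrib]
    refine Finset.sum_congr rfl fun T _ => ?_
    rw [hf, chr_compl]
    have : ((-1 : ℚ)) ^ d * (-1) ^ W.card = -1 := by
      rw [← pow_add]
      exact Odd.neg_one_pow (Nat.not_even_iff_odd.mp hW)
    calc (-1) ^ d * f T * ((-1) ^ W.card * chr W T)
        = ((-1 : ℚ) ^ d * (-1) ^ W.card) * (f T * chr W T) := by ring
      _ = - (f T * chr W T) := by rw [this]; ring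
  rw [h2] at h1
  linarith

/-- complete members of the family -/
def Compl (S : Finset (Fin n) → Prop) (T : Finset (Fin n)) : Prop :=
  S T ∧ ∀ e, S (symmDiff T {e})

lemma core {S : Finset (Fin n) → Prop} {d : ℕ} (hd : 1 ≤ d) (hn : 2 * d + 1 ≤ n)
    (hS : ∀ Y : Finset (Fin n), d + 2 ≤ Y.card → NotShatter S Y)
    (g : Finset (Fin n) → ℚ) (hg : ∀ T, ¬ Compl S T → g T = 0)
    (hpar : ∀ T, g Tᶜ = (-1) ^ d * g T)
    (h0 : ∀ W : Finset (Fin n), W.card < d → ft g W = 0) : g = 0 := by
  -- step 1
  have hnb : ∀ T, ¬ S T → ∀ e, g (symmDiff T {e}) = 0 := by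
    intro T hT e
    apply hg
    intro hC
    apply hT
    have := hC.2 e
    rwa [symmDiff_symmDiff_cancel_right] at this
  have hgS : ∀ T, ¬ S T → g T = 0 := fun T hT => hg T fun hC => hT hC.1
  set h : Finset (Fin n) → ℚ := fun T => (∑ e, g (symmDiff T {e})) - ((n : ℚ) - 2 * d) * g T with hh
  have hht : ∀ W, ft h W = 2 * ((d : ℚ) - W.card) * ft g W := by
    intro W
    have e1 : ft h W = (∑ e, ft (fun T => g (symmDiff T {e})) W) - ((n : ℚ) - 2 * d) * ft g W := by
      unfold ft
      rw [Finset.sum_comm, Finset.mul_sum, ← Finset.sum_sub_distrib]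
      refine Finset.sum_congr rfl fun T _ => ?_
      simp only [hh]
      rw [← Finset.sum_mul]
      ring
    rw [e1]
    simp_rw [ft_flip]
    rw [← Finset.sum_mul]
    have e2 : ∑ e : Fin n, (if e ∈ W then (-1 : ℚ) else 1) = n - 2 * W.card := by
      have : ∀ e : Fin n, (if e ∈ W then (-1 : ℚ) else 1) = 1 - 2 * (if e ∈ W then 1 else 0) := by
        intro e; split_ifs <;> norm_num
      simp_rw [this]
      rw [Finset.sum_sub_distrib, ← Finset.mul_sum]
      simp
    rw [e2]; ring
  have hh0 : h = 0 := by
    refine lemmaA (k := d + 2) hS h ?_ ?_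
    · intro T hT
      simp only [hh]
      rw [Finset.sum_eq_zero fun e _ => hnb T hT e, hgS T hT]; ring
    · intro W hW
      rw [hht]
      rcases lt_trichotomy W.card d with h1 | h1 | h1
      · rw [h0 W h1, mul_zero]
      · rw [h1]; ring
      · have h2 : W.card = d + 1 := by omega
        rw [ft_parity g d hpar W (by rw [h2]; intro hE; obtain ⟨r, hr⟩ := hE; omega), mul_zero]
  have hlev : ∀ W : Finset (Fin n), W.card ≠ d → ft g W = 0 := by
    intro W hW
    have h1 := hht W
    rw [hh0] at h1
    have h2 : ft (0 : Finset (Fin n) → ℚ) W = 0 := by simp [ft]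
    rw [h2] at h1
    have h3 : ((d : ℚ) - W.card) ≠ 0 := by
      intro h4
      apply hW
      have : (d : ℚ) = W.card := by linarith
      exact_mod_cast this.symm
    rcases mul_eq_zero.mp h1.symm with h4 | h4
    · rcases mul_eq_zero.mp h4 with h5 | h5
      · norm_num at h5
      · exact absurd h5 h3
    · exact h4
  -- step 2
  have hder : ∀ e : Fin n, (fun T => sg T e * (g T - g (symmDiff T {e}))) = (0 : Finset (Fin n) → ℚ) := by
    intro e
    refine lemmaB (k := d + 2) (m := d) (by omega) hS _ ?_ ?_
    · intro T hT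
      show sg T e * (g T - g (symmDiff T {e})) = 0
      rw [hgS T hT, hnb T hT e]; ring
    · intro W hW
      have key : ft (fun T => sg T e * (g T - g (symmDiff T {e}))) W =
          (1 - (if e ∈ symmDiff W {e} then -1 else 1)) * ft g (symmDiff W {e}) := by
        have e1 : ft (fun T => sg T e * (g T - g (symmDiff T {e}))) W =
            ft g (symmDiff W {e}) - ft (fun T => g (symmDiff T {e})) (symmDiff W {e}) := by
          unfold ft
          rw [← Finset.sum_sub_distrib]
          refine Finset.sum_congr rfl fun T _ => ?_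
          rw [chr_symmDiff]
          have : chr {e} T = sg T e := by simp [chr]
          rw [this]; ring
        rw [e1, ft_flip]; ring
      rw [key]
      by_cases he : e ∈ W
      · have : e ∉ symmDiff W {e} := by simp [Finset.mem_symmDiff, he]
        simp [this]
      · have hc : (symmDiff W {e}).card = W.card + 1 := by
          have : symmDiff W {e} = insert e W := by
            ext y; simp only [Finset.mem_symmDiff, Finset.mem_singleton, Finset.mem_insert]
            constructor
            · rintro (⟨h1, h2⟩ | ⟨h1, h2⟩)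
              · exact Or.inr h1
              · exact Or.inl h1
            · rintro (h1 | h1)
              · right; exact ⟨h1, by rw [h1]; exact he⟩
              · left; exact ⟨h1, fun h2 => he (h2 ▸ h1)⟩
          rw [this, Finset.card_insert_of_notMem he]
        rw [hlev _ (by rw [hc]; omega), mul_zero]
  apply eq_zero_of_ft_eq_zero
  intro W
  by_cases hW : W.card = d
  · have hne : W.Nonempty := by
      rw [← Finset.card_pos]; omega
    obtain ⟨e, he⟩ := hne
    have h1 : ft (fun T => g (symmDiff T {e})) W = ft g W := by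
      unfold ft
      refine Finset.sum_congr rfl fun T _ => ?_
      have h2 := congrFun (hder e) T
      simp only [Pi.zero_apply] at h2
      rcases mul_eq_zero.mp h2 with h3 | h3
      · exact absurd h3 (sg_ne_zero _ _)
      · rw [sub_eq_zero.mp h3]
    rw [ft_flip, if_pos he] at h1
    linarith
  · exact hlev W hW

open Classical in
/-- The abstract counting theorem. -/
theorem count {S : Finset (Fin n) → Prop} {d : ℕ} (hd : 1 ≤ d) (hn : 2 * d + 1 ≤ n)
    (hcompl : ∀ T, S T → S Tᶜ)
    (hS : ∀ Y : Finset (Fin n), d + 2 ≤ Y.card → NotShatter S Y) :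
    (Finset.univ.filter (fun T : Finset (Fin n) => Compl S T)).card
      ≤ 2 * ∑ i ∈ Finset.range (d - 1), (n - 1).choose i := by
  have hn0 : 0 < n := by omega
  let z : Fin n := ⟨0, hn0⟩
  have hCc : ∀ T, Compl S T → Compl S Tᶜ := by
    intro T hT
    refine ⟨hcompl T hT.1, fun e => ?_⟩
    have : symmDiff Tᶜ {e} = (symmDiff T {e})ᶜ := by
      ext y; simp only [Finset.mem_symmDiff, Finset.mem_compl]; tauto
    rw [this]
    exact hcompl _ (hT.2 e)
  set C0 : Finset (Finset (Fin n)) :=
    Finset.univ.filter (fun T : Finset (Fin n) => Compl S T ∧ z ∉ T) with hC0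
  set U0 : Finset (Finset (Fin n)) :=
    (Finset.univ.erase z).powerset.filter (fun W => W.card < d - 1) with hU0
  -- doubling
  have hdouble : (Finset.univ.filter (fun T : Finset (Fin n) => Compl S T)).card = 2 * C0.card := by
    have h1 : Finset.univ.filter (fun T : Finset (Fin n) => Compl S T) =
        C0 ∪ Finset.univ.filter (fun T : Finset (Fin n) => Compl S T ∧ z ∈ T) := by
      ext T; simp only [hC0, Finset.mem_filter, Finset.mem_univ, true_and, Finset.mem_union]; tauto
    have h2 : Disjoint C0 (Finset.univ.filter (fun T : Finset (Fin n) => Compl S T ∧ z ∈ T)) := by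
      rw [Finset.disjoint_left]
      intro T h3 h4
      simp only [hC0, Finset.mem_filter, Finset.mem_univ, true_and] at h3 h4
      exact h3.2 h4.2
    have h3 : (Finset.univ.filter (fun T : Finset (Fin n) => Compl S T ∧ z ∈ T)).card = C0.card := by
      refine Finset.card_bij' (fun T _ => Tᶜ) (fun T _ => Tᶜ) ?_ ?_ ?_ ?_
      · intro T hT
        simp only [hC0, Finset.mem_filter, Finset.mem_univ, true_and, Finset.mem_compl, not_not] at hT ⊢
        exact ⟨hCc T hT.1, hT.2⟩
      · intro T hT
        simp only [hC0, Finset.mem_filter, Finset.mem_univ, true_and, Finset.mem_compl] at hT ⊢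
        exact ⟨hCc T hT.1, hT.2⟩
      · intro T _; exact compl_compl T
      · intro T _; exact compl_compl T
    rw [h1, Finset.card_union_of_disjoint h2, h3]; ring
  have hU0card : U0.card = ∑ i ∈ Finset.range (d - 1), (n - 1).choose i := by
    have h1 : U0 = (Finset.range (d - 1)).biUnion (fun i => (Finset.univ.erase z).powersetCard i) := by
      ext W
      simp only [hU0, Finset.mem_filter, Finset.mem_powerset, Finset.mem_biUnion, Finset.mem_range,
        Finset.mem_powersetCard]
      constructor
      · rintro ⟨h1, h2⟩; exact ⟨W.card, h2, h1, rfl⟩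
      · rintro ⟨i, hi, h1, h2⟩; exact ⟨h1, by omega⟩
    rw [h1, Finset.card_biUnion]
    · refine Finset.sum_congr rfl fun i _ => ?_
      rw [Finset.card_powersetCard, Finset.card_erase_of_mem (Finset.mem_univ z), Finset.card_univ,
        Fintype.card_fin]
    · intro i _ j _ hij
      rw [Function.onFun, Finset.disjoint_left]
      intro W h2 h3
      rw [Finset.mem_powersetCard] at h2 h3
      exact hij (h2.2.symm.trans h3.2)
  -- the linear map
  let Φ : (C0 → ℚ) →ₗ[ℚ] (U0 → ℚ) :=
    { toFun := fun f W => ∑ T : C0, f T * chr W.1 T.1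
      map_add' := by
        intro f g; funext W
        simp only [Pi.add_apply, add_mul, Finset.sum_add_distrib]
      map_smul' := by
        intro c f; funext W
        simp only [Pi.smul_apply, smul_eq_mul, RingHom.id_apply, Finset.mul_sum, mul_assoc] }
  have hΦ : Function.Injective Φ := by
    rw [injective_iff_map_eq_zero]
    intro f hf
    set f' : Finset (Fin n) → ℚ := fun T => if h : T ∈ C0 then f ⟨T, h⟩ else 0 with hf'
    have hf'0 : ∀ T, T ∉ C0 → f' T = 0 := fun T hT => by simp only [hf']; rw [dif_neg hT]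
    set g : Finset (Fin n) → ℚ := fun T => f' T + (-1) ^ d * f' Tᶜ with hg
    have hsq : ((-1 : ℚ)) ^ d * (-1) ^ d = 1 := by
      rw [← mul_pow]; norm_num
    have hgz : g = 0 := by
      refine core hd hn hS g ?_ ?_ ?_
      · intro T hT
        have h1 : T ∉ C0 := fun h => hT (Finset.mem_filter.mp h).2.1
        have h2 : Tᶜ ∉ C0 := fun h => hT (by
          have := hCc _ (Finset.mem_filter.mp h).2.1
          rwa [compl_compl] at this)
        simp only [hg]
        rw [hf'0 T h1, hf'0 _ h2]; ring
      · intro T
        simp only [hg]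
        rw [compl_compl]
        linear_combination (-(f' Tᶜ)) * hsq
      · intro W hW
        by_cases hpar : Even (d + W.card)
        · -- W.card ≤ d - 2
          have hW2 : W.card < d - 1 := by
            rcases hpar with ⟨r, hr⟩; omega
          have h1 : ft f' W = 0 := by
            have hmem : W.erase z ∈ U0 := by
              simp only [hU0, Finset.mem_filter, Finset.mem_powerset]
              refine ⟨Finset.erase_subset_erase z (Finset.subset_univ W), ?_⟩
              exact lt_of_le_of_lt (Finset.card_le_card (Finset.erase_subset z W)) hW2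
            have h2 := congrFun hf ⟨W.erase z, hmem⟩
            have h3 : ∑ T : C0, f T * chr (W.erase z) T.1 = 0 := h2
            have h4 : ft f' W = ∑ T ∈ C0, f' T * chr W T := by
              unfold ft
              symm
              apply Finset.sum_subset (Finset.subset_univ _)
              intro T _ hT
              rw [hf'0 T hT, zero_mul]
            rw [h4, ← Finset.sum_coe_sort C0 (fun T => f' T * chr W T), ← h3]
            refine Finset.sum_congr rfl fun T _ => ?_
            have h5 : f' T.1 = f T := by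
              simp only [hf']; rw [dif_pos T.2]
            rw [h5]
            congr 1
            have hz : z ∉ T.1 := (Finset.mem_filter.mp T.2).2.2
            unfold chr
            by_cases hzW : z ∈ W
            · rw [← Finset.mul_prod_erase W _ hzW]
              have : sg T.1 z = 1 := by unfold sg; rw [if_neg hz]
              rw [this, one_mul]
            · rw [Finset.erase_eq_of_notMem hzW]
          have h6 : ft g W = ft f' W + (-1) ^ d * ∑ T, f' Tᶜ * chr W T := by
            unfold ft
            simp only [hg]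
            rw [Finset.mul_sum, ← Finset.sum_add_distrib]
            refine Finset.sum_congr rfl fun T _ => ?_
            ring
          have h7 : ∑ T, f' Tᶜ * chr W T = ∑ T, f' T * chr W Tᶜ := by
            refine Finset.sum_nbij' (fun T => Tᶜ) (fun T => Tᶜ) ?_ ?_ ?_ ?_ ?_ <;> simp
          have h8 : ∑ T, f' T * chr W Tᶜ = (-1) ^ W.card * ft f' W := by
            unfold ft
            rw [Finset.mul_sum]
            refine Finset.sum_congr rfl fun T _ => ?_
            rw [chr_compl]; ring
          rw [h6, h7, h8, h1]; ring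
        · apply ft_parity g d _ W hpar
          intro T
          simp only [hg]
          rw [compl_compl]
          linear_combination (-(f' Tᶜ)) * hsq
    funext T
    have h1 := congrFun hgz T.1
    simp only [hg, Pi.zero_apply] at h1
    have h2 : T.1ᶜ ∉ C0 := by
      intro h
      have h3 := (Finset.mem_filter.mp h).2.2
      have h4 := (Finset.mem_filter.mp T.2).2.2
      exact h3 (Finset.mem_compl.mpr h4)
    rw [hf'0 _ h2, mul_zero, add_zero] at h1
    have h5 : f' T.1 = f T := by
      simp only [hf']; rw [dif_pos T.2]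
    rw [h5] at h1
    exact h1
  have hle := LinearMap.finrank_le_finrank_of_injective hΦ
  rw [Module.finrank_fintype_fun_eq_card, Module.finrank_fintype_fun_eq_card,
    Fintype.card_coe, Fintype.card_coe] at hle
  rw [hdouble, ← hU0card]
  omega

end Pool.Agent.H800R3.Roud
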