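import Mathlib

/-!
# Slices of matrix spaces for the symbolic determinant
-/

set_option autoImplicit false

namespace Pool.Agent.H800R3.Slice

open Matrix Polynomial Finset

section jacobi

variable {A : Type*} [CommRing A] {n : Type*} [Fintype n] [DecidableEq n]

/-- Jacobi's formula over a polynomial ring. -/
theorem derivative_det (M : Matrix n n A[X]) :
    derivative M.det = (M.adjugate * M.map derivative).trace := by
  have h1 : (M.adjugate * M.map derivative).trace =
      ∑ i, (M.updateCol i (fun k => derivative (M k i))).det := by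
    unfold Matrix.trace
    refine Finset.sum_congr rfl fun i _ => ?_
    rw [Matrix.diag_apply, Matrix.mul_apply, ← Matrix.cramer_apply, Matrix.cramer_eq_adjugate_mulVec]
    rfl
  rw [h1, Matrix.det_apply', map_sum]
  simp_rw [Matrix.det_apply']
  rw [Finset.sum_comm]
  refine Finset.sum_congr rfl fun σ _ => ?_
  rw [← Finset.mul_sum]
  have h2 : derivative (((Equiv.Perm.sign σ : ℤ) : A[X]) * ∏ i, M (σ i) i) =
      ((Equiv.Perm.sign σ : ℤ) : A[X]) * derivative (∏ i, M (σ i) i) := by
    rw [derivative_mul, derivative_intCast, zero_mul, zero_add]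
  rw [h2]
  congr 1
  rw [derivative_prod_finset]
  refine Finset.sum_congr rfl fun i _ => ?_
  rw [← Finset.mul_prod_erase Finset.univ (fun j => (M.updateCol i fun k => derivative (M k i)) (σ j) j)
    (Finset.mem_univ i), mul_comm]
  congr 1
  · simp
  · refine Finset.prod_congr rfl fun j hj => ?_
    rw [Matrix.updateCol_ne (Finset.ne_of_mem_erase hj)]

/-- Infinitesimal invariance of the determinant. -/
theorem det_invariant (z Z Z' : Matrix n n A) :
    (z.adjugate * (Z * z - z * Z')).trace = z.det * (Z.trace - Z'.trace) := by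
  have h1 : (z.adjugate * (Z * z)).trace = z.det * Z.trace := by
    rw [Matrix.trace_mul_comm, Matrix.mul_assoc, Matrix.mul_adjugate, Matrix.mul_smul,
      Matrix.mul_one, Matrix.trace_smul, smul_eq_mul]
  have h2 : (z.adjugate * (z * Z')).trace = z.det * Z'.trace := by
    rw [← Matrix.mul_assoc, Matrix.adjugate_mul, Matrix.smul_mul, Matrix.one_mul,
      Matrix.trace_smul, smul_eq_mul]
  rw [Matrix.mul_sub, Matrix.trace_sub, h1, h2, mul_sub]

end jacobi

section poly

variable {K : Type*} [Field K] {n : Type*} [Fintype n] [DecidableEq n]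

/-- The coefficients of `det (z + c a)` are polynomials in `c`. -/
theorem exists_poly (z a : Matrix n n K[X]) (j : ℕ) :
    ∃ g : K[X], (∀ c : K, g.eval c = ((z + C c • a).det).coeff j) ∧
      g.coeff 1 = ((z.adjugate * a).trace).coeff j := by
  classical
  let Z : Matrix n n K[X][X] := z.map C + (X : K[X][X]) • a.map C
  let G : K[X][X] := Z.det
  refine ⟨∑ k ∈ Finset.range (G.natDegree + 2), C ((G.coeff k).coeff j) * X ^ k, fun c => ?_, ?_⟩
  · have h1 : (z + C c • a).det = G.eval (C c) := by
      have : (z + C c • a) = Z.map (evalRingHom (C c : K[X])) := by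
        refine Matrix.ext fun i k => ?_
        show z i k + C c * a i k = eval (C c) (C (z i k) + X * C (a i k))
        rw [eval_add, eval_C, eval_mul, eval_X, eval_C]
      rw [this, ← RingHom.mapMatrix_apply, ← RingHom.map_det]
      rfl
    rw [h1, Polynomial.eval_eq_sum_range' (p := G) (n := G.natDegree + 2) (by omega),
      eval_finsetSum, finsetSum_coeff]
    refine Finset.sum_congr rfl fun k _ => ?_
    rw [eval_mul, eval_C, eval_pow, eval_X, ← C_pow, coeff_mul_C]
  · have h2 : G.coeff 1 = (z.adjugate * a).trace := by
      have hd : (derivative G).eval 0 = G.coeff 1 := by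
        rw [← coeff_zero_eq_eval_zero, coeff_derivative]
        simp
      rw [← hd, derivative_det]
      have hZ' : Z.map derivative = a.map C := by
        ext i k : 2
        simp [Z, derivative_mul]
      rw [hZ']
      have hz : Z.map (evalRingHom (0 : K[X])) = z := by
        ext i k : 2
        simp [Z]
      have ha : (a.map (C : K[X] →+* K[X][X])).map (evalRingHom (0 : K[X])) = a := by
        ext i k : 2
        simp
      have : (evalRingHom (0 : K[X])) ((Z.adjugate * a.map C).trace) = (z.adjugate * a).trace := by
        have ht := AddMonoidHom.map_trace (evalRingHom (0 : K[X])).toAddMonoidHom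
          (Z.adjugate * a.map C)
        refine ht.trans ?_
        congr 1
        show ((Z.adjugate * a.map C).map (evalRingHom (0 : K[X]))) = _
        rw [Matrix.map_mul, ha]
        congr 1
        conv_rhs => rw [← hz]
        exact (RingHom.map_adjugate (evalRingHom (0 : K[X])) Z)
      exact this
    rw [finsetSum_coeff]
    rw [Finset.sum_eq_single 1]
    · rw [coeff_C_mul, coeff_X_pow, h2]
      simp
    · intro k _ hk
      rw [coeff_C_mul, coeff_X_pow, if_neg (Ne.symm hk), mul_zero]
    · intro h
      exact absurd (Finset.mem_range.2 (by omega)) h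

variable [CharZero K]

/-- If a coefficient of `det (z + c a)` vanishes for all but finitely many constants `c`, it
vanishes for all, and so does the coefficient of the derivative. -/
theorem coeff_zero_of_finite (z a : Matrix n n K[X]) (j : ℕ) (F : Set K) (hF : F.Finite)
    (h : ∀ c, c ∉ F → ((z + C c • a).det).coeff j = 0) :
    (∀ c : K, ((z + C c • a).det).coeff j = 0) ∧ ((z.adjugate * a).trace).coeff j = 0 := by
  obtain ⟨g, hg, hg1⟩ := exists_poly z a j
  have : g = 0 := by
    refine Polynomial.eq_zero_of_infinite_isRoot g ?_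
    refine Set.Infinite.mono (s := Fᶜ) ?_ hF.infinite_compl
    intro c hc
    show g.eval c = 0
    rw [hg]
    exact h c hc
  subst this
  refine ⟨fun c => ?_, ?_⟩
  · rw [← hg, eval_zero]
  · rw [← hg1, coeff_zero]

/-- The matrix space has the slice property at `x`. -/
def SliceAt (B S : Submodule K (Matrix n n K)) (x : Matrix n n K) : Prop :=
  ∀ b ∈ B, ∃ s ∈ S, ∃ Z Z' : Matrix n n K, (∀ y ∈ B, Z * y - y * Z' ∈ B) ∧
    b = s + (Z * x - x * Z')

/-- One step at a point where the slice property holds. -/
theorem step {B S : Submodule K (Matrix n n K)} {x : Matrix n n K} {m : ℕ}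
    (hQ : ∀ s ∈ S, ∀ b ∈ B, ((((x + s).map C : Matrix n n K[X]) + (X : K[X]) • b.map C).det).coeff m
      = 0) {s : Matrix n n K} (hs : s ∈ S) (hsl : SliceAt B S (x + s)) {b : Matrix n n K}
    (hb : b ∈ B) :
    ((((x + s).map C : Matrix n n K[X]) + (X : K[X]) • b.map C).det).coeff (m + 1) = 0 := by
  obtain ⟨s', hs', Z, Z', hZ, hbs⟩ := hsl b hb
  set z : Matrix n n K[X] := (x + s).map C + (X : K[X]) • b.map C with hz
  -- Jacobi
  have hder : derivative z.det = (z.adjugate * b.map C).trace := by
    have hd : z.map derivative = b.map C := by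
      refine Matrix.ext fun i k => ?_
      have : z i k = C ((x + s) i k) + X * C (b i k) := rfl
      rw [Matrix.map_apply, Matrix.map_apply, this, derivative_add, derivative_C, zero_add,
        derivative_mul, derivative_X, derivative_C, mul_zero, add_zero, one_mul]
    rw [derivative_det, hd]
  -- invariance
  have hinv : (z.adjugate * (Z.map C * z - z * Z'.map C)).trace =
      z.det * ((Z.map C).trace - (Z'.map C).trace) := det_invariant _ _ _
  have hexp : Z.map C * z - z * Z'.map C =
      b.map C + ((-s').map C + (X : K[X]) • (Z * b - b * Z').map C) := by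
    have h1 : Z.map C * z = (Z * (x + s)).map C + (X : K[X]) • (Z * b).map C := by
      rw [hz, Matrix.mul_add, Matrix.mul_smul, Matrix.map_mul, Matrix.map_mul]
    have h2 : z * Z'.map C = ((x + s) * Z').map C + (X : K[X]) • (b * Z').map C := by
      rw [hz, Matrix.add_mul, Matrix.smul_mul, Matrix.map_mul, Matrix.map_mul]
    have h3 : (Z * (x + s)).map (C : K →+* K[X]) - ((x + s) * Z').map C =
        b.map C + (-s').map C := by
      have : Z * (x + s) - (x + s) * Z' = b + -s' := by rw [hbs]; abel
      refine Matrix.ext fun i k => ?_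
      have h4 := congrFun (congrFun this i) k
      show C ((Z * (x + s)) i k) - C (((x + s) * Z') i k) = C (b i k) + C ((-s') i k)
      rw [← C_sub, ← C_add]
      exact congrArg C h4
    have h5 : (Z * b - b * Z').map (C : K →+* K[X]) = (Z * b).map C - (b * Z').map C := by
      refine Matrix.ext fun i k => ?_
      show C ((Z * b - b * Z') i k) = C ((Z * b) i k) - C ((b * Z') i k)
      rw [← C_sub]
      rfl
    rw [h1, h2, h5, smul_sub, ← add_assoc, ← h3]
    abel
  -- the two lower order terms
  have e1 : ((z.adjugate * (-s').map C).trace).coeff m = 0 := by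
    refine (coeff_zero_of_finite z ((-s').map C) m ∅ Set.finite_empty fun c _ => ?_).2
    have : z + C c • ((-s').map C : Matrix n n K[X]) =
        (x + (s + c • (-s'))).map C + (X : K[X]) • b.map C := by
      refine Matrix.ext fun i k => ?_
      show C ((x + s) i k) + X * C (b i k) + C c * C ((-s') i k) =
        C ((x + (s + c • (-s'))) i k) + X * C (b i k)
      simp only [Matrix.add_apply, Matrix.smul_apply, smul_eq_mul, C_add, C_mul]
      ring
    rw [this]
    exact hQ _ (S.add_mem hs (S.smul_mem c (S.neg_mem hs'))) b hb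
  have e2 : ((z.adjugate * ((X : K[X]) • (Z * b - b * Z').map C)).trace).coeff m = 0 := by
    refine (coeff_zero_of_finite z _ m ∅ Set.finite_empty fun c _ => ?_).2
    have : z + C c • ((X : K[X]) • (Z * b - b * Z').map C : Matrix n n K[X]) =
        (x + s).map C + (X : K[X]) • (b + c • (Z * b - b * Z')).map C := by
      refine Matrix.ext fun i k => ?_
      show C ((x + s) i k) + X * C (b i k) + C c * (X * C ((Z * b - b * Z') i k)) =
        C ((x + s) i k) + X * C ((b + c • (Z * b - b * Z')) i k)
      simp only [Matrix.add_apply, Matrix.smul_apply, smul_eq_mul, C_add, C_mul]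
      ring
    rw [this]
    exact hQ s hs _ (B.add_mem hb (B.smul_mem c (hZ b hb)))
  have e3 : (z.det * ((Z.map C).trace - (Z'.map C).trace)).coeff m = 0 := by
    have : ((Z.map (C : K →+* K[X])).trace - (Z'.map C).trace) = C (Z.trace - Z'.trace) := by
      rw [C_sub]
      congr 1 <;>
      · unfold Matrix.trace
        rw [map_sum]
        rfl
    rw [this, coeff_mul_C, hQ s hs b hb, zero_mul]
  -- conclusion
  have hmain : (derivative z.det).coeff m = 0 := by
    have : (z.adjugate * (Z.map C * z - z * Z'.map C)).trace.coeff m =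
        (z.det * ((Z.map C).trace - (Z'.map C).trace)).coeff m := by rw [hinv]
    rw [hexp, Matrix.mul_add, Matrix.mul_add, Matrix.trace_add, Matrix.trace_add, coeff_add,
      coeff_add, e1, e2, e3, add_zero, add_zero, ← hder] at this
    exact this
  rw [coeff_derivative] at hmain
  have hm : ((m : K) + 1) ≠ 0 := by exact_mod_cast Nat.succ_ne_zero m
  exact (mul_eq_zero.1 hmain).resolve_right hm

omit [CharZero K] in
/-- The slice property persists on a line, with finitely many exceptions. -/
theorem slice_line {B S : Submodule K (Matrix n n K)} {x : Matrix n n K}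
    (hsl : SliceAt B S x) {s : Matrix n n K} (hs : s ∈ B) :
    ∃ F : Set K, F.Finite ∧ ∀ c, c ∉ F → SliceAt B S (x + c • s) := by
  classical
  let bas := Module.finBasis K B
  have hch : ∀ i, ∃ q : Matrix n n K × Matrix n n K × Matrix n n K, q.1 ∈ S ∧
      (∀ y ∈ B, q.2.1 * y - y * q.2.2 ∈ B) ∧
      (bas i : Matrix n n K) = q.1 + (q.2.1 * x - x * q.2.2) := by
    intro i
    obtain ⟨s', hs', Z, Z', h1, h2⟩ := hsl (bas i) (bas i).2
    exact ⟨(s', Z, Z'), hs', h1, h2⟩
  choose q hq1 hq2 hq3 using hch
  let N : Module.End K B := bas.constr K fun i => ⟨(q i).2.1 * s - s * (q i).2.2, hq2 i s hs⟩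
  refine ⟨(fun μ => -μ⁻¹) '' {μ | Module.End.HasEigenvalue N μ}, (Module.End.finite_hasEigenvalue N).image _,
    fun c hc b hb => ?_⟩
  have hinj : Function.Injective (LinearMap.id + c • N : B →ₗ[K] B) := by
    rw [← LinearMap.ker_eq_bot, LinearMap.ker_eq_bot']
    intro v hv
    by_contra hv0
    apply hc
    have hc0 : c ≠ 0 := by
      rintro rfl
      apply hv0
      simpa using hv
    refine ⟨-c⁻¹, ?_, by simp⟩
    refine Module.End.hasEigenvalue_of_hasEigenvector (x := v) ⟨?_, hv0⟩
    rw [Module.End.mem_eigenspace_iff]
    have h1 : v + c • N v = 0 := hv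
    have h2 : c • N v = -v := by
      rw [eq_neg_iff_add_eq_zero, add_comm]; exact h1
    calc N v = c⁻¹ • (c • N v) := by rw [smul_smul, inv_mul_cancel₀ hc0, one_smul]
      _ = (-c⁻¹) • v := by rw [h2, smul_neg]; exact (neg_smul _ _).symm
  obtain ⟨v, hv⟩ := (LinearMap.injective_iff_surjective.1 hinj) ⟨b, hb⟩
  set co := fun i => bas.repr v i with hco
  have hv1 : (v : Matrix n n K) = ∑ i, co i • (bas i : Matrix n n K) := by
    conv_lhs => rw [← bas.sum_repr v]
    rw [Submodule.coe_sum]
    exact Finset.sum_congr rfl fun i _ => rfl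
  have hv2 : (N v : Matrix n n K) = ∑ i, co i • ((q i).2.1 * s - s * (q i).2.2) := by
    rw [Module.Basis.constr_apply_fintype, Submodule.coe_sum]
    exact Finset.sum_congr rfl fun i _ => rfl
  have hb1 : b = (v : Matrix n n K) + c • (N v : Matrix n n K) := by
    have := congrArg (fun w : B => (w : Matrix n n K)) hv
    exact this.symm
  refine ⟨∑ i, co i • (q i).1, S.sum_mem fun i _ => S.smul_mem _ (hq1 i),
    ∑ i, co i • (q i).2.1, ∑ i, co i • (q i).2.2, fun y hy => ?_, ?_⟩
  · rw [Finset.sum_mul, Finset.mul_sum, ← Finset.sum_sub_distrib]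
    refine B.sum_mem fun i _ => ?_
    rw [Matrix.smul_mul, Matrix.mul_smul, ← smul_sub]
    exact B.smul_mem _ (hq2 i y hy)
  · rw [hb1, hv1, hv2, Finset.smul_sum, ← Finset.sum_add_distrib, Finset.sum_mul, Finset.mul_sum,
      ← Finset.sum_sub_distrib, ← Finset.sum_add_distrib]
    refine Finset.sum_congr rfl fun i _ => ?_
    rw [hq3 i, Matrix.smul_mul, Matrix.mul_smul, ← smul_sub, smul_comm c, ← smul_add, ← smul_add]
    congr 1
    rw [Matrix.mul_add, Matrix.add_mul, Matrix.mul_smul, Matrix.smul_mul, smul_sub]
    abel

/-- **Slice theorem**: if the slice property holds at `x ∈ B`, then `det` vanishes on `B` if it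
vanishes on `x + S`. -/
theorem slice {B S : Submodule K (Matrix n n K)} (hSB : S ≤ B) {x : Matrix n n K} (hx : x ∈ B)
    (hsl : SliceAt B S x) (h0 : ∀ s ∈ S, (x + s).det = 0) : ∀ b ∈ B, b.det = 0 := by
  have key : ∀ m : ℕ, ∀ s ∈ S, ∀ b ∈ B,
      ((((x + s).map C : Matrix n n K[X]) + (X : K[X]) • b.map C).det).coeff m = 0 := by
    intro m
    induction m with
    | zero =>
      intro s hs b _
      rw [coeff_zero_eq_eval_zero]
      have : (evalRingHom (0 : K)) (((x + s).map C + (X : K[X]) • b.map C).det) = (x + s).det := by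
        rw [RingHom.map_det]
        congr 1
        refine Matrix.ext fun i k => ?_
        show eval 0 (C ((x + s) i k) + X * C (b i k)) = (x + s) i k
        rw [eval_add, eval_C, eval_mul, eval_X, zero_mul, add_zero]
      exact this.trans (h0 s hs)
    | succ m ih =>
      intro s hs b hb
      obtain ⟨F, hF, hF2⟩ := slice_line hsl (hSB hs)
      have h := (coeff_zero_of_finite (x.map C + (X : K[X]) • b.map C) (s.map C) (m + 1) F hF
        fun c hc => ?_).1 1
      · have e : (x.map C + (X : K[X]) • b.map C) + C (1 : K) • (s.map C : Matrix n n K[X]) =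
            (x + s).map C + (X : K[X]) • b.map C := by
          refine Matrix.ext fun i k => ?_
          show C (x i k) + X * C (b i k) + C 1 * C (s i k) = C (x i k + s i k) + X * C (b i k)
          rw [C_1, one_mul, C_add]
          ring
        rw [e] at h
        exact h
      · have e : (x.map C + (X : K[X]) • b.map C) + C c • (s.map C : Matrix n n K[X]) =
            (x + c • s).map C + (X : K[X]) • b.map C := by
          refine Matrix.ext fun i k => ?_
          show C (x i k) + X * C (b i k) + C c * C (s i k) = C (x i k + c * s i k) + X * C (b i k)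
          rw [C_add, C_mul]
          ring
        rw [e]
        exact step ih (S.smul_mem c hs) (hF2 c hc) hb
  intro b hb
  have h1 : (((x + 0).map C : Matrix n n K[X]) + (X : K[X]) • (b - x).map C).det = 0 := by
    ext m
    rw [coeff_zero]
    exact key m 0 S.zero_mem (b - x) (B.sub_mem hb hx)
  have h2 : (evalRingHom (1 : K)) (((x + 0).map C + (X : K[X]) • (b - x).map C).det) = b.det := by
    rw [RingHom.map_det]
    congr 1
    refine Matrix.ext fun i k => ?_
    show eval 1 (C (x i k + 0) + X * C (b i k - x i k)) = b i k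
    rw [eval_add, eval_C, eval_mul, eval_X, eval_C]
    ring
  rw [← h2, h1, map_zero]

end poly

end Pool.Agent.H800R3.Slice
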