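import Pool.Agent.H800R3.Slice

/-!
# Tools: symbolic matrices, evaluation at small integer points
-/

set_option autoImplicit false

namespace Pool.Agent.H800R3.Slice

open Matrix Finset

variable {K n σ : Type*} [Field K] [Fintype n] [DecidableEq n]

/-- A pencil which is nonsingular at some value of the parameter is nonsingular at one of the
parameters `0, …, card n`. -/
theorem pencil [CharZero K] (z a : Matrix n n K) (c : K) (h : (z + c • a).det ≠ 0) :
    ∃ y : ℕ, y ≤ Fintype.card n ∧ (z + (y : K) • a).det ≠ 0 := by
  classical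
  by_contra hcon
  push Not at hcon
  let P : Polynomial K := (z.map Polynomial.C + (Polynomial.X : Polynomial K) • a.map Polynomial.C).det
  have hev : ∀ c : K, P.eval c = (z + c • a).det := by
    intro c
    have : (Polynomial.evalRingHom c) P = (z + c • a).det := by
      show (Polynomial.evalRingHom c) (Matrix.det _) = _
      rw [RingHom.map_det]
      congr 1
      refine Matrix.ext fun i k => ?_
      show Polynomial.eval c (Polynomial.C (z i k) + Polynomial.X * Polynomial.C (a i k)) =
        z i k + c * a i k
      rw [Polynomial.eval_add, Polynomial.eval_C, Polynomial.eval_mul, Polynomial.eval_X,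
        Polynomial.eval_C]
    exact this
  have hdeg : P.natDegree ≤ Fintype.card n := by
    have := Polynomial.natDegree_det_X_add_C_le a z
    rw [add_comm] at this
    exact this
  have hP : P = 0 := by
    refine Polynomial.eq_zero_of_natDegree_lt_card_of_eval_eq_zero P
      (f := fun i : Fin (Fintype.card n + 1) => ((i : ℕ) : K)) ?_ ?_ ?_
    · intro i j hij
      exact Fin.ext (Nat.cast_injective hij)
    · intro i
      rw [hev]
      exact hcon i (Nat.lt_succ_iff.1 i.2)
    · rw [Fintype.card_fin]
      omega
  apply h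
  rw [← hev, hP, Polynomial.eval_zero]

/-- The same for several parameters. -/
theorem grid [CharZero K] [DecidableEq σ] (B : σ → Matrix n n K) (J : Finset σ) :
    ∀ z : Matrix n n K, (∃ c : σ → K, (z + ∑ j ∈ J, c j • B j).det ≠ 0) →
      ∃ y : σ → ℕ, (∀ j, y j ≤ Fintype.card n) ∧ (∀ j, j ∉ J → y j = 0) ∧
        (z + ∑ j ∈ J, (y j : K) • B j).det ≠ 0 := by
  induction J using Finset.induction_on with
  | empty =>
    rintro z ⟨c, hc⟩
    exact ⟨fun _ => 0, fun _ => Nat.zero_le _, fun _ _ => rfl, by simpa using hc⟩
  | insert a J ha ih =>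
    rintro z ⟨c, hc⟩
    rw [Finset.sum_insert ha, ← add_assoc] at hc
    obtain ⟨y, hy1, hy2, hy3⟩ := ih (z + c a • B a) ⟨c, hc⟩
    have h1 : ((z + ∑ j ∈ J, (y j : K) • B j) + c a • B a).det ≠ 0 := by
      convert hy3 using 2
      abel
    obtain ⟨t, ht1, ht2⟩ := pencil _ _ _ h1
    refine ⟨Function.update y a t, fun j => ?_, fun j hj => ?_, ?_⟩
    · by_cases h : j = a
      · subst h; simpa using ht1
      · rw [Function.update_of_ne h]; exact hy1 j
    · rw [Finset.mem_insert, not_or] at hj
      rw [Function.update_of_ne hj.1]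
      exact hy2 j hj.2
    · have h2 : ∑ j ∈ insert a J, ((Function.update y a t j : ℕ) : K) • B j =
          (t : K) • B a + ∑ j ∈ J, (y j : K) • B j := by
        rw [Finset.sum_insert ha, Function.update_self]
        congr 1
        refine Finset.sum_congr rfl fun j hj => ?_
        rw [Function.update_of_ne (fun h => ha (by rw [← h]; exact hj))]
      rw [h2]
      convert ht2 using 2
      abel

/-- The symbolic matrix `∑ i, x_i B_i`. -/
noncomputable def symbolicMatrix [Fintype σ] (B : σ → Matrix n n K) :
    Matrix n n (MvPolynomial σ K) :=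
  ∑ i, (MvPolynomial.X i : MvPolynomial σ K) • (B i).map MvPolynomial.C

omit [Fintype n] [DecidableEq n] in
theorem mem_span [Fintype σ] {B : σ → Matrix n n K} {b : Matrix n n K} :
    b ∈ Submodule.span K (Set.range B) ↔ ∃ c : σ → K, ∑ i, c i • B i = b :=
  Submodule.mem_span_range_iff_exists_fun K

theorem eval_symbolic [Fintype σ] (B : σ → Matrix n n K) (c : σ → K) :
    MvPolynomial.eval c (symbolicMatrix B).det = (∑ i, c i • B i).det := by
  rw [RingHom.map_det]
  congr 1
  refine Matrix.ext fun a b => ?_
  rw [RingHom.mapMatrix_apply, Matrix.map_apply, symbolicMatrix, Matrix.sum_apply, map_sum,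
    Matrix.sum_apply]
  refine Finset.sum_congr rfl fun i _ => ?_
  rw [Matrix.smul_apply, Matrix.smul_apply, smul_eq_mul, smul_eq_mul, Matrix.map_apply, map_mul,
    MvPolynomial.eval_X, MvPolynomial.eval_C]

theorem symbolic_ne_zero_iff [CharZero K] [Fintype σ] (B : σ → Matrix n n K) :
    (symbolicMatrix B).det ≠ 0 ↔ ∃ b ∈ Submodule.span K (Set.range B), b.det ≠ 0 := by
  constructor
  · intro h
    by_contra hcon
    push Not at hcon
    apply h
    apply MvPolynomial.funext
    intro c
    rw [eval_symbolic, map_zero]
    exact hcon _ (mem_span.2 ⟨c, rfl⟩)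
  · rintro ⟨b, hb, hdet⟩ h
    obtain ⟨c, rfl⟩ := mem_span.1 hb
    apply hdet
    rw [← eval_symbolic, h, map_zero]

end Pool.Agent.H800R3.Slice
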