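import Mathlib

/-!
# Polynomial vector fields, stable ideals and slices
-/

set_option autoImplicit false

namespace Pool.Agent.H800R3.VF

open MvPolynomial

variable {F : Type*} [Field F] {σ : Type*} [Fintype σ]

/-- the action of the polynomial vector field `∑ i, v i ∂/∂x_i` -/
noncomputable def act (v : σ → MvPolynomial σ F) (f : MvPolynomial σ F) : MvPolynomial σ F :=
  ∑ i, v i * pderiv i f

theorem act_add (v : σ → MvPolynomial σ F) (f g : MvPolynomial σ F) :
    act v (f + g) = act v f + act v g := by
  simp only [act, map_add, mul_add, Finset.sum_add_distrib]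

theorem act_zero (v : σ → MvPolynomial σ F) : act v (0 : MvPolynomial σ F) = 0 := by
  simp [act]

theorem act_mul (v : σ → MvPolynomial σ F) (f g : MvPolynomial σ F) :
    act v (f * g) = act v f * g + f * act v g := by
  simp only [act, pderiv_mul, Finset.sum_mul, Finset.mul_sum, ← Finset.sum_add_distrib]
  refine Finset.sum_congr rfl fun i _ => ?_
  ring

theorem act_sum {ι : Type*} (v : σ → MvPolynomial σ F) (s : Finset ι)
    (f : ι → MvPolynomial σ F) : act v (∑ k ∈ s, f k) = ∑ k ∈ s, act v (f k) := by
  classical
  induction s using Finset.induction_on with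
  | empty => simp [act_zero]
  | insert a s ha ih => rw [Finset.sum_insert ha, Finset.sum_insert ha, act_add, ih]

omit [Fintype σ] in
theorem pderiv_comm (i j : σ) (f : MvPolynomial σ F) :
    pderiv i (pderiv j f) = pderiv j (pderiv i f) := by
  classical
  have h : (⁅(pderiv i : Derivation F (MvPolynomial σ F) (MvPolynomial σ F)),
      (pderiv j : Derivation F (MvPolynomial σ F) (MvPolynomial σ F))⁆) = 0 := by
    refine MvPolynomial.derivation_ext fun k => ?_
    rw [Derivation.commutator_apply]
    have e : ∀ a b : σ, (pderiv a : Derivation F _ _) ((pderiv b : Derivation F _ _)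
        (X k : MvPolynomial σ F)) = 0 := by
      intro a b
      rw [pderiv_X, Pi.single_apply]
      split_ifs <;> simp
    rw [e, e]
    simp
  have h2 := congrArg (fun D : Derivation F (MvPolynomial σ F) (MvPolynomial σ F) => D f) h
  simp only [Derivation.commutator_apply, Derivation.coe_zero, Pi.zero_apply] at h2
  exact sub_eq_zero.1 h2

theorem act_pderiv (v : σ → MvPolynomial σ F) (k : σ) (f : MvPolynomial σ F) :
    act v (pderiv k f) = pderiv k (act v f) - ∑ i, pderiv k (v i) * pderiv i f := by
  simp only [act, map_sum, pderiv_mul, Finset.sum_add_distrib]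
  rw [add_sub_cancel_left]
  exact Finset.sum_congr rfl fun i _ => by rw [pderiv_comm]

/-- the ideals of derivatives -/
noncomputable def Jn (I : Ideal (MvPolynomial σ F)) : ℕ → Ideal (MvPolynomial σ F)
  | 0 => I
  | n + 1 => Jn I n ⊔ Ideal.span {h | ∃ i, ∃ g ∈ Jn I n, h = pderiv i g}

omit [Fintype σ] in
theorem Jn_le_succ (I : Ideal (MvPolynomial σ F)) (n : ℕ) : Jn I n ≤ Jn I (n + 1) := le_sup_left

omit [Fintype σ] in
theorem pderiv_mem (I : Ideal (MvPolynomial σ F)) (n : ℕ) (i : σ) {g : MvPolynomial σ F}
    (hg : g ∈ Jn I n) : pderiv i g ∈ Jn I (n + 1) :=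
  (le_sup_right : _ ≤ Jn I (n + 1)) (Ideal.subset_span ⟨i, g, hg, rfl⟩)

theorem act_mem (I : Ideal (MvPolynomial σ F)) (v : σ → MvPolynomial σ F)
    (hv : ∀ g ∈ I, act v g ∈ I) (n : ℕ) : ∀ g ∈ Jn I n, act v g ∈ Jn I n := by
  induction n with
  | zero => exact hv
  | succ n ih =>
    intro g hg
    obtain ⟨a, ha, b, hb, rfl⟩ := Submodule.mem_sup.1 hg
    rw [act_add]
    refine Ideal.add_mem _ (Jn_le_succ I n (ih a ha)) ?_
    clear hg
    induction hb using Submodule.span_induction with
    | mem x hx =>
      obtain ⟨i, g, hg, rfl⟩ := hx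
      rw [act_pderiv]
      refine Ideal.sub_mem _ (pderiv_mem I n i (ih g hg)) ?_
      exact Ideal.sum_mem _ fun k _ => Ideal.mul_mem_left _ _ (pderiv_mem I n k hg)
    | zero => rw [act_zero]; exact Ideal.zero_mem _
    | add x y _ _ hx hy => rw [act_add]; exact Ideal.add_mem _ hx hy
    | smul c x hx' hx =>
      rw [smul_eq_mul, act_mul]
      refine Ideal.add_mem _ (Ideal.mul_mem_left _ _ ?_) (Ideal.mul_mem_left _ _ hx)
      exact (le_sup_right : _ ≤ Jn I (n + 1)) hx'

/-- restriction to a line -/
noncomputable def ln (x w : σ → F) : MvPolynomial σ F →ₐ[F] Polynomial F :=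
  aeval fun i => Polynomial.C (x i) + Polynomial.C (w i) * Polynomial.X

omit [Fintype σ] in
theorem eval_ln (x w : σ → F) (t : F) (g : MvPolynomial σ F) :
    (ln x w g).eval t = eval (x + t • w) g := by
  induction g using MvPolynomial.induction_on with
  | C a => simp [ln]
  | add p q hp hq => rw [map_add, Polynomial.eval_add, hp, hq, map_add]
  | mul_X p i hp =>
    rw [map_mul, Polynomial.eval_mul, hp, map_mul, eval_X]
    congr 1
    have h1 : ln x w (X i) = Polynomial.C (x i) + Polynomial.C (w i) * Polynomial.X := by
      simp [ln]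
    rw [h1, Polynomial.eval_add, Polynomial.eval_mul, Polynomial.eval_C, Polynomial.eval_C,
      Polynomial.eval_X, Pi.add_apply, Pi.smul_apply, smul_eq_mul, mul_comm]

theorem derivative_ln (x w : σ → F) (g : MvPolynomial σ F) :
    Polynomial.derivative (ln x w g) = ∑ i, Polynomial.C (w i) * ln x w (pderiv i g) := by
  classical
  induction g using MvPolynomial.induction_on with
  | C a => simp [ln]
  | add p q hp hq =>
    simp only [map_add, hp, hq, mul_add, Finset.sum_add_distrib]
  | mul_X p j hp =>
    have h1 : ln x w (X j) = Polynomial.C (x j) + Polynomial.C (w j) * Polynomial.X := by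
      simp [ln]
    rw [map_mul, Polynomial.derivative_mul, hp]
    have h2 : Polynomial.derivative (ln x w (X j)) = Polynomial.C (w j) := by
      rw [h1]; simp
    rw [h2]
    have h3 : ∀ i, Polynomial.C (w i) * ln x w (pderiv i (p * X j)) =
        Polynomial.C (w i) * ln x w (pderiv i p) * ln x w (X j) +
          (if i = j then ln x w p * Polynomial.C (w j) else 0) := by
      intro i
      rw [pderiv_mul, map_add, map_mul, map_mul, pderiv_X, mul_add]
      congr 1
      · ring
      · by_cases h : i = j
        · subst h; simp; ring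
        · rw [if_neg h, Pi.single_eq_of_ne (Ne.symm h)]; simp
    simp only [h3, Finset.sum_add_distrib, ← Finset.sum_mul]
    simp

variable [CharZero F]

/-- A polynomial all of whose partial derivatives vanish is constant. -/
theorem eq_C_of_pderiv (g : MvPolynomial σ F) (h : ∀ i, pderiv i g = 0) (p : σ → F) :
    g = C (eval p g) := by
  apply MvPolynomial.funext
  intro x
  rw [eval_C]
  have h1 : Polynomial.derivative (ln p (x - p) g) = 0 := by
    rw [derivative_ln]
    simp [h]
  have h2 := Polynomial.derivative_eq_zero.1 h1
  have h3 := Polynomial.eq_C_of_natDegree_eq_zero h2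
  have h4 : (ln p (x - p) g).eval 1 = (ln p (x - p) g).eval 0 := by
    rw [h3]; simp
  rw [eval_ln, eval_ln] at h4
  simpa using h4

omit [CharZero F] [Fintype σ] in
theorem totalDegree_pderiv_lt (g : MvPolynomial σ F) (i : σ) (d : ℕ)
    (h : g.totalDegree ≤ d + 1) : (pderiv i g).totalDegree ≤ d := by
  classical
  refine Finset.sup_le fun m hm => ?_
  rw [mem_support_iff, coeff_pderiv] at hm
  have h1 : m + Finsupp.single i 1 ∈ g.support := by
    rw [mem_support_iff]
    intro h0
    apply hm
    rw [h0]
    simp
  have h2 := le_totalDegree h1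
  rw [Finsupp.sum_add_index' (fun _ => rfl) (fun _ _ _ => rfl), Finsupp.sum_single_index rfl] at h2
  have h3 : (m.sum fun _ e => e) + 1 ≤ d + 1 := h2.trans h
  exact Nat.le_of_succ_le_succ h3

/-- If all the derivatives of the elements of `I` vanish at `p`, then `I = 0`. -/
theorem Jn_zero (I : Ideal (MvPolynomial σ F)) (p : σ → F)
    (h : ∀ n, ∀ g ∈ Jn I n, eval p g = 0) : ∀ g ∈ I, g = 0 := by
  have key : ∀ d n, ∀ g ∈ Jn I n, g.totalDegree ≤ d → g = 0 := by
    intro d
    induction d with
    | zero =>
      intro n g hg hd
      have h1 := MvPolynomial.totalDegree_eq_zero_iff_eq_C.1 (Nat.le_zero.1 hd)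
      rw [h1] at hg ⊢
      have := h n _ hg
      rw [eval_C] at this
      rw [this, C_0]
    | succ d ih =>
      intro n g hg hd
      have h1 : ∀ i, pderiv i g = 0 := fun i =>
        ih (n + 1) _ (pderiv_mem I n i hg) (totalDegree_pderiv_lt g i d hd)
      rw [eq_C_of_pderiv g h1 p, h n g hg, C_0]
  intro g hg
  exact key _ 0 g hg le_rfl


omit [CharZero F] in
/-- A family of vectors which spans contains a square matrix with nonzero determinant. -/
theorem exists_det_ne_zero {κ : Type*} [DecidableEq σ] (u : κ → σ → F)
    (h : Submodule.span F (Set.range u) = ⊤) :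
    ∃ b : σ → κ, (Matrix.of fun i => u (b i)).det ≠ 0 := by
  obtain ⟨τ, a, ha, hspan, hli⟩ := exists_linearIndependent' F u
  have : Finite τ := hli.finite
  have : Fintype τ := Fintype.ofFinite τ
  have hcard : Fintype.card τ = Fintype.card σ := by
    have h1 := finrank_span_eq_card hli
    rw [hspan, h, finrank_top, Module.finrank_fintype_fun_eq_card] at h1
    exact h1.symm
  let e : σ ≃ τ := (Fintype.equivOfCardEq hcard).symm
  refine ⟨a ∘ e, ?_⟩
  have h2 : LinearIndependent F (fun i => u (a (e i))) := hli.comp e e.injective
  have h3 : IsUnit (Matrix.of fun i => u (a (e i))) := by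
    rw [← Matrix.linearIndependent_rows_iff_isUnit]
    exact h2
  exact ((Matrix.isUnit_iff_isUnit_det _).1 h3).ne_zero

/-- **Slices.** An ideal stable under vector fields which together with the coordinate
directions in `J` span all directions at `p` is zero as soon as it vanishes on the slice
`p + F^J`. -/
theorem slice {ι : Type*} [DecidableEq σ] (v : ι → σ → MvPolynomial σ F)
    (I : Ideal (MvPolynomial σ F))
    (hv : ∀ s, ∀ g ∈ I, act (v s) g ∈ I) (p : σ → F) (J : Set σ)
    (hp : Submodule.span F ((Set.range fun s i => eval p (v s i)) ∪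
      (fun j => Pi.single j (1 : F)) '' J) = ⊤)
    (hI : ∀ g ∈ I, ∀ y : σ → F, (∀ i, i ∉ J → y i = 0) → eval (p + y) g = 0) :
    ∀ g ∈ I, g = 0 := by
  classical
  let U : ι ⊕ J → σ → MvPolynomial σ F := Sum.elim v fun j => Pi.single j.1 1
  have hU : Submodule.span F (Set.range fun k i => eval p (U k i)) = ⊤ := by
    rw [← hp]
    congr 1
    ext w
    constructor
    · rintro ⟨k | j, rfl⟩
      · exact Or.inl ⟨k, rfl⟩
      · refine Or.inr ⟨j.1, j.2, ?_⟩
        funext i
        simp only [U, Sum.elim_inr]
        by_cases h : i = j.1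
        · rw [h]; simp
        · rw [Pi.single_eq_of_ne h, Pi.single_eq_of_ne h, map_zero]
    · rintro (⟨k, rfl⟩ | ⟨j, hj, rfl⟩)
      · exact ⟨Sum.inl k, rfl⟩
      · refine ⟨Sum.inr ⟨j, hj⟩, ?_⟩
        funext i
        simp only [U, Sum.elim_inr]
        by_cases h : i = j
        · rw [h]; simp
        · rw [Pi.single_eq_of_ne h, Pi.single_eq_of_ne h, map_zero]
  obtain ⟨b, hb⟩ := exists_det_ne_zero _ hU
  let δ : MvPolynomial σ F := (Matrix.of fun i => U (b i)).det
  have hδ : ∀ x : σ → F, eval x δ = (Matrix.of fun i j => eval x (U (b i) j)).det := by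
    intro x
    show eval x (Matrix.det _) = _
    rw [RingHom.map_det]
    rfl
  have main : ∀ n, ∀ y : σ → F, (∀ i, i ∉ J → y i = 0) → eval (p + y) δ ≠ 0 →
      ∀ g ∈ Jn I n, eval (p + y) g = 0 := by
    intro n
    induction n with
    | zero => exact fun y hy _ g hg => hI g hg y hy
    | succ n ih =>
      intro y hy hd g hg
      obtain ⟨a, ha, c, hc, rfl⟩ := Submodule.mem_sup.1 hg
      rw [map_add, ih y hy hd a ha, zero_add]
      have grad : ∀ g ∈ Jn I n, ∀ i, eval (p + y) (pderiv i g) = 0 := by
        intro g hg
        have h1 : (Matrix.of fun i j => eval (p + y) (U (b i) j)).mulVec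
            (fun i => eval (p + y) (pderiv i g)) = 0 := by
          funext k
          rw [Matrix.mulVec, dotProduct, Pi.zero_apply]
          show ∑ i, eval (p + y) (U (b k) i) * eval (p + y) (pderiv i g) = 0
          rcases b k with s | j
          · have := ih y hy hd _ (act_mem I (v s) (hv s) n g hg)
            rw [act, map_sum] at this
            simp only [map_mul] at this
            exact this
          · have hz : ln (p + y) (Pi.single j.1 1) g = 0 := by
              have h2 : ln (p + y) (Pi.single j.1 1) g * ln (p + y) (Pi.single j.1 1) δ = 0 := by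
                apply Polynomial.funext
                intro t
                rw [Polynomial.eval_mul, eval_ln, eval_ln, Polynomial.eval_zero, add_assoc]
                by_cases h3 : eval (p + (y + t • Pi.single j.1 1)) δ = 0
                · rw [h3, mul_zero]
                · rw [ih _ _ h3 g hg, zero_mul]
                  intro i hi
                  have : i ≠ j.1 := fun h => hi (h ▸ j.2)
                  rw [Pi.add_apply, hy i hi, Pi.smul_apply, Pi.single_eq_of_ne this, smul_zero,
                    add_zero]
              rcases mul_eq_zero.1 h2 with h3 | h3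
              · exact h3
              · exfalso
                apply hd
                have h4 := eval_ln (p + y) (Pi.single j.1 1) 0 δ
                rw [h3, Polynomial.eval_zero, zero_smul, add_zero] at h4
                exact h4.symm
            have h5 := derivative_ln (p + y) (Pi.single j.1 1) g
            rw [hz, Polynomial.derivative_zero] at h5
            have h6 := congrArg (Polynomial.eval 0) h5
            rw [Polynomial.eval_zero, Polynomial.eval_finsetSum] at h6
            rw [h6]
            refine Finset.sum_congr rfl fun i _ => ?_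
            rw [Polynomial.eval_mul, Polynomial.eval_C, eval_ln, zero_smul, add_zero]
            congr 1
            simp only [U, Sum.elim_inr]
            by_cases h : i = j.1
            · rw [h]; simp
            · rw [Pi.single_eq_of_ne h, Pi.single_eq_of_ne h, map_zero]
        have h7 : (Matrix.of fun i j => eval (p + y) (U (b i) j)).det ≠ 0 := by
          rw [← hδ]; exact hd
        have h8 := Matrix.eq_zero_of_mulVec_eq_zero h7 h1
        exact fun i => congrFun h8 i
      clear hg
      induction hc using Submodule.span_induction with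
      | mem x hx =>
        obtain ⟨i, g, hg, rfl⟩ := hx
        exact grad g hg i
      | zero => simp
      | add x z _ _ hx hz => rw [map_add, hx, hz, add_zero]
      | smul c x _ hx => rw [smul_eq_mul, map_mul, hx, mul_zero]
  refine Jn_zero I p fun n g hg => ?_
  have := main n 0 (fun _ _ => rfl) (by rw [add_zero, hδ]; exact hb) g hg
  rwa [add_zero] at this

end Pool.Agent.H800R3.VF
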