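import Pool.Agent.H800R3.VF

/-!
# Slices: restriction to coordinate subspaces, grids and towers
-/

set_option autoImplicit false

namespace Pool.Agent.H800R3.VF

open MvPolynomial

variable {F : Type*} [Field F] {σ : Type*}

/-- substitute `p i` for all the variables `X i` with `i ∉ J` -/
noncomputable def restrict [DecidableEq σ] (p : σ → F) (J : Finset σ) :
    MvPolynomial σ F →ₐ[F] MvPolynomial σ F :=
  aeval fun i => if i ∈ J then X i else C (p i)

/-- the point with coordinates `y i` for `i ∈ J` and `p i` for `i ∉ J` -/
def glue [DecidableEq σ] (p : σ → F) (J : Finset σ) (y : σ → F) : σ → F :=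
  fun i => if i ∈ J then y i else p i

theorem eval_restrict [DecidableEq σ] (p : σ → F) (J : Finset σ) (y : σ → F)
    (f : MvPolynomial σ F) : eval y (restrict p J f) = eval (glue p J y) f := by
  induction f using MvPolynomial.induction_on with
  | C a => simp [restrict, algebraMap_eq]
  | add p q hp hq => rw [map_add, map_add, hp, hq, map_add]
  | mul_X f i hf =>
    rw [map_mul, map_mul, hf, map_mul, eval_X]
    congr 1
    rw [restrict, aeval_X, glue]
    split_ifs <;> simp

theorem natDegree_ln_le [Fintype σ] [DecidableEq σ] (x : σ → F) (j : σ) (g : MvPolynomial σ F) :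
    (ln x (Pi.single j 1) g).natDegree ≤ g.degreeOf j := by
  have h1 : ln x (Pi.single j 1) g = ∑ m ∈ g.support, Polynomial.C (coeff m g) *
      ∏ i, (Polynomial.C (x i) + Polynomial.C ((Pi.single j 1 : σ → F) i) * Polynomial.X) ^ m i := by
    conv_lhs => rw [g.as_sum]
    rw [map_sum]
    refine Finset.sum_congr rfl fun m _ => ?_
    rw [ln, aeval_monomial, Finsupp.prod_fintype _ _ (fun _ => pow_zero _)]
    rfl
  rw [h1]
  refine Polynomial.natDegree_sum_le_of_forall_le _ _ fun m hm => ?_
  refine (Polynomial.natDegree_C_mul_le _ _).trans ?_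
  refine (Polynomial.natDegree_prod_le _ _).trans ?_
  rw [Finset.sum_eq_single j]
  · refine Polynomial.natDegree_pow_le.trans ?_
    have h2 : (Polynomial.C (x j) + Polynomial.C ((Pi.single j 1 : σ → F) j) *
        Polynomial.X).natDegree ≤ 1 := by
      rw [Pi.single_eq_same]
      refine (Polynomial.natDegree_add_le _ _).trans ?_
      simp
    calc m j * _ ≤ m j * 1 := Nat.mul_le_mul_left _ h2
      _ = m j := mul_one _
      _ ≤ g.degreeOf j := monomial_le_degreeOf j hm
  · intro i _ hi
    rw [Pi.single_eq_of_ne hi, map_zero, zero_mul, add_zero, ← Polynomial.C_pow,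
      Polynomial.natDegree_C]
  · intro h
    exact absurd (Finset.mem_univ j) h

/-- A nonzero value on a coordinate subspace gives a nonzero value on a grid. -/
theorem grid [Fintype σ] [DecidableEq σ] [CharZero F] (g : MvPolynomial σ F) (J : Finset σ) :
    ∀ p y : σ → F, eval (glue p J y) g ≠ 0 →
      ∃ z : σ → ℕ, (∀ j, z j ≤ g.degreeOf j) ∧ eval (glue p J fun i => (z i : F)) g ≠ 0 := by
  induction J using Finset.induction_on with
  | empty =>
    intro p y h
    refine ⟨fun _ => 0, fun _ => Nat.zero_le _, ?_⟩
    have : ∀ y : σ → F, glue p ∅ y = p := fun y => by funext i; simp [glue]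
    rw [this] at h ⊢
    exact h
  | insert a J ha ih =>
    intro p y h
    have h0 : glue p (insert a J) y = glue (Function.update p a (y a)) J y := by
      funext i
      by_cases hi : i = a
      · subst hi
        simp [glue, ha]
      · simp [glue, hi, Finset.mem_insert]
    rw [h0] at h
    obtain ⟨z, hz1, hz2⟩ := ih _ y h
    set x : σ → F := glue (Function.update p a 0) J (fun i => (z i : F)) with hx
    have h1 : ∀ t : F, glue (Function.update p a t) J (fun i => (z i : F)) =
        x + t • Pi.single a 1 := by
      intro t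
      funext i
      by_cases hi : i = a
      · subst hi
        simp [hx, glue, ha]
      · simp [hx, glue, hi]
    have h2 : ln x (Pi.single a 1) g ≠ 0 := by
      intro h3
      apply hz2
      rw [h1, ← eval_ln, h3, Polynomial.eval_zero]
    have h3 : ∃ t : ℕ, t ≤ g.degreeOf a ∧ (ln x (Pi.single a 1) g).eval (t : F) ≠ 0 := by
      by_contra hcon
      push Not at hcon
      apply h2
      refine Polynomial.eq_zero_of_natDegree_lt_card_of_eval_eq_zero _
        (f := fun i : Fin (g.degreeOf a + 1) => ((i : ℕ) : F)) ?_ ?_ ?_
      · intro i j hij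
        exact Fin.ext (Nat.cast_injective hij)
      · intro i
        exact hcon i (Nat.lt_succ_iff.1 i.2)
      · rw [Fintype.card_fin]
        exact Nat.lt_succ_of_le (natDegree_ln_le x a g)
    obtain ⟨t, ht1, ht2⟩ := h3
    refine ⟨Function.update z a t, fun j => ?_, ?_⟩
    · by_cases hj : j = a
      · subst hj; simpa using ht1
      · rw [Function.update_of_ne hj]; exact hz1 j
    · rw [eval_ln, ← h1] at ht2
      have e : glue p (insert a J) (fun i => ((Function.update z a t i : ℕ) : F)) =
          glue (Function.update p a (t : F)) J fun i => (z i : F) := by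
        funext i
        by_cases hi : i = a
        · subst hi
          simp [glue, ha]
        · simp [glue, hi, Finset.mem_insert]
      rw [e]
      exact ht2

/-- **Slices for families.** -/
theorem slice_family [Fintype σ] [DecidableEq σ] [CharZero F] {ι κ : Type*}
    (v : ι → σ → MvPolynomial σ F) (f : κ → MvPolynomial σ F)
    (hf : ∀ s k, ∑ i, v s i * pderiv i (f k) ∈ Ideal.span (Set.range f)) (p : σ → F)
    (J : Finset σ)
    (hp : Submodule.span F ((Set.range fun s i => eval p (v s i)) ∪
      (fun j => Pi.single j (1 : F)) '' (J : Set σ)) = ⊤)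
    (hI : ∀ k, ∀ y : σ → F, eval (glue p J y) (f k) = 0) : ∀ k, f k = 0 := by
  have hI' : ∀ g ∈ Ideal.span (Set.range f), ∀ y : σ → F, eval (glue p J y) g = 0 := by
    intro g hg y
    induction hg using Submodule.span_induction with
    | mem x hx => obtain ⟨k, rfl⟩ := hx; exact hI k y
    | zero => simp
    | add x z _ _ hx hz => rw [map_add, hx, hz, add_zero]
    | smul c x _ hx => rw [smul_eq_mul, map_mul, hx, mul_zero]
  intro k
  refine slice v (Ideal.span (Set.range f)) ?_ p (J : Set σ) hp ?_ (f k)
    (Ideal.subset_span ⟨k, rfl⟩)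
  · intro s g hg
    induction hg using Submodule.span_induction with
    | mem x hx => obtain ⟨k, rfl⟩ := hx; exact hf s k
    | zero => rw [act_zero]; exact Ideal.zero_mem _
    | add x y _ _ hx hy => rw [act_add]; exact Ideal.add_mem _ hx hy
    | smul c x hx' hx =>
      rw [smul_eq_mul, act_mul]
      exact Ideal.add_mem _ (Ideal.mul_mem_left _ _ hx') (Ideal.mul_mem_left _ _ hx)
  · intro g hg y hy
    have : p + y = glue p J (p + y) := by
      funext i
      unfold glue
      split_ifs with h
      · rfl
      · rw [Pi.add_apply, hy i h, add_zero]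
    rw [this]
    exact hI' g hg _

/-- A subspace has a complement spanned by coordinate vectors. -/
theorem exists_compl [Fintype σ] [DecidableEq σ] (T : Submodule F (σ → F)) :
    ∃ J : Finset σ, J.card + Module.finrank F T = Fintype.card σ ∧
      T ⊔ Submodule.span F ((fun j => Pi.single j (1 : F)) '' (J : Set σ)) = ⊤ ∧
      ∀ j ∈ J, (Pi.single j (1 : F) : σ → F) ∉ T := by
  classical
  have htop : Submodule.span F (Set.range fun j : σ => (Pi.single j (1 : F) : σ → F)) = ⊤ := by
    have := (Pi.basisFun F σ).span_eq
    rw [← this]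
    congr 1
    ext x
    simp [Pi.basisFun_apply]
  obtain ⟨κ, a, ha, hspan, hli⟩ :=
    exists_linearIndependent' F (fun j : σ => T.mkQ (Pi.single j (1 : F)))
  have : Finite κ := Finite.of_injective a ha
  have : Fintype κ := Fintype.ofFinite κ
  have hmap : Submodule.span F (Set.range (fun j : σ => T.mkQ (Pi.single j (1 : F)))) = ⊤ := by
    have h1 := congrArg (Submodule.map T.mkQ) htop
    rw [Submodule.map_span, ← Set.range_comp, Submodule.map_top, Submodule.range_mkQ] at h1
    exact h1
  have hcard : Fintype.card κ = Module.finrank F ((σ → F) ⧸ T) := by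
    rw [← finrank_top, ← hmap, ← hspan]
    exact (finrank_span_eq_card hli).symm
  refine ⟨Finset.univ.image a, ?_, ?_, ?_⟩
  · rw [Finset.card_image_of_injective _ ha, Finset.card_univ, hcard,
      Submodule.finrank_quotient_add_finrank, Module.finrank_fintype_fun_eq_card]
  · rw [eq_top_iff]
    intro b _
    have hb' : T.mkQ b ∈ Submodule.span F
        (Set.range ((fun j : σ => T.mkQ (Pi.single j (1 : F))) ∘ a)) := by
      rw [hspan, hmap]
      exact Submodule.mem_top
    have hr : Set.range ((fun j : σ => T.mkQ (Pi.single j (1 : F))) ∘ a) =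
        T.mkQ '' ((fun j => Pi.single j (1 : F)) '' ((Finset.univ.image a : Finset σ) : Set σ)) := by
      ext q
      constructor
      · rintro ⟨k, rfl⟩
        exact ⟨_, ⟨a k, by simp, rfl⟩, rfl⟩
      · rintro ⟨_, ⟨j, hj, rfl⟩, rfl⟩
        rw [Finset.mem_coe, Finset.mem_image] at hj
        obtain ⟨k, _, rfl⟩ := hj
        exact ⟨k, rfl⟩
    rw [hr, ← Submodule.map_span] at hb'
    obtain ⟨s, hs, hse⟩ := hb'
    have : b - s ∈ T := by
      rw [← Submodule.ker_mkQ T, LinearMap.mem_ker, map_sub, hse, sub_self]
    rw [Submodule.mem_sup]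
    exact ⟨b - s, this, s, hs, by abel⟩
  · intro j hj hT
    rw [Finset.mem_image] at hj
    obtain ⟨k, _, rfl⟩ := hj
    refine hli.ne_zero k ?_
    show T.mkQ (Pi.single (a k) (1 : F)) = 0
    rw [← LinearMap.mem_ker, Submodule.ker_mkQ]
    exact hT

end Pool.Agent.H800R3.VF
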