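import Pool.Agent.H800R3.VF2

/-!
# Determinantal ideals and vector fields
-/

set_option autoImplicit false

namespace Pool.Agent.H800R3.VF

open MvPolynomial Matrix

section det

variable {F : Type*} [Field F] {σ : Type*} [Fintype σ]

theorem act_C (v : σ → MvPolynomial σ F) (a : F) : act v (C a) = 0 := by
  simp [act]

theorem act_intCast (v : σ → MvPolynomial σ F) (a : ℤ) : act v (a : MvPolynomial σ F) = 0 := by
  rw [← map_intCast (C : F →+* MvPolynomial σ F)]
  exact act_C v _

theorem act_prod {ι : Type*} [DecidableEq ι] (v : σ → MvPolynomial σ F) (s : Finset ι)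
    (g : ι → MvPolynomial σ F) :
    act v (∏ i ∈ s, g i) = ∑ i ∈ s, (∏ j ∈ s.erase i, g j) * act v (g i) := by
  induction s using Finset.induction_on with
  | empty =>
    rw [Finset.prod_empty, Finset.sum_empty, ← C_1, act_C]
  | insert a s ha ih =>
    rw [Finset.prod_insert ha, act_mul, ih, Finset.sum_insert ha, Finset.erase_insert ha,
      Finset.mul_sum, mul_comm (act v (g a))]
    congr 1
    refine Finset.sum_congr rfl fun i hi => ?_
    have hia : a ≠ i := fun h => ha (h ▸ hi)
    rw [Finset.erase_insert_of_ne hia, Finset.prod_insert (fun h => ha (Finset.mem_of_mem_erase h))]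
    ring

variable {n : Type*} [Fintype n] [DecidableEq n]

theorem act_det (v : σ → MvPolynomial σ F) (N : Matrix n n (MvPolynomial σ F)) :
    act v N.det = ∑ i, (N.updateCol i fun k => act v (N k i)).det := by
  rw [Matrix.det_apply', act_sum]
  simp_rw [Matrix.det_apply']
  rw [Finset.sum_comm]
  refine Finset.sum_congr rfl fun τ _ => ?_
  rw [← Finset.mul_sum]
  rw [act_mul, act_intCast, zero_mul, zero_add]
  congr 1
  rw [act_prod]
  refine Finset.sum_congr rfl fun i _ => ?_
  rw [← Finset.mul_prod_erase Finset.univ (fun j => (N.updateCol i fun k => act v (N k i)) (τ j) j)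
    (Finset.mem_univ i), mul_comm]
  congr 1
  · simp
  · refine Finset.prod_congr rfl fun j hj => ?_
    rw [Matrix.updateCol_ne (Finset.ne_of_mem_erase hj)]

theorem sum_updateCol {R : Type*} [CommRing R] (N X : Matrix n n R) :
    ∑ i, (N.updateCol i fun k => X k i).det = (N.adjugate * X).trace := by
  unfold Matrix.trace
  refine Finset.sum_congr rfl fun i _ => ?_
  rw [Matrix.diag_apply, Matrix.mul_apply, ← Matrix.cramer_apply, Matrix.cramer_eq_adjugate_mulVec]
  rfl

theorem sum_updateRow {R : Type*} [CommRing R] (N X : Matrix n n R) :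
    ∑ i, (N.updateRow i (X i)).det = (N.adjugate * X).trace := by
  have h : ∀ i, (N.updateRow i (X i)).det = (Nᵀ.updateCol i fun k => Xᵀ k i).det := by
    intro i
    have e : (fun k => Xᵀ k i) = X i := rfl
    rw [e, Matrix.updateCol_transpose, Matrix.det_transpose]
  simp_rw [h]
  rw [sum_updateCol, ← Matrix.adjugate_transpose, ← Matrix.transpose_mul, Matrix.trace_transpose,
    Matrix.trace_mul_comm]

end det

section ideal

variable {F : Type*} [Field F] {σ : Type*} [Fintype σ] {m n : Type*} [Fintype m] [Fintype n]
  {r : ℕ}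

theorem act_matrix_mul {l : Type*} {k : Type*} (v : σ → MvPolynomial σ F)
    (X : Matrix l m (MvPolynomial σ F)) (Y : Matrix m k (MvPolynomial σ F)) :
    (X * Y).map (act v) = X.map (act v) * Y + X * Y.map (act v) := by
  refine Matrix.ext fun i j => ?_
  show act v ((X * Y) i j) = (X.map (act v) * Y) i j + (X * Y.map (act v)) i j
  rw [Matrix.mul_apply, Matrix.mul_apply, Matrix.mul_apply, act_sum, ← Finset.sum_add_distrib]
  refine Finset.sum_congr rfl fun k _ => ?_
  rw [act_mul]
  rfl

/-- The determinants `det (A M B)`. -/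
noncomputable def dets (r : ℕ) (M : Matrix m n (MvPolynomial σ F)) :
    Matrix (Fin r) m (MvPolynomial σ F) × Matrix n (Fin r) (MvPolynomial σ F) →
      MvPolynomial σ F :=
  fun AB => (AB.1 * M * AB.2).det

theorem dets_stable (M : Matrix m n (MvPolynomial σ F)) (v : σ → MvPolynomial σ F)
    (P : Matrix m m (MvPolynomial σ F)) (Q : Matrix n n (MvPolynomial σ F))
    (h : M.map (act v) = P * M + M * Q)
    (AB : Matrix (Fin r) m (MvPolynomial σ F) × Matrix n (Fin r) (MvPolynomial σ F)) :
    act v (dets r M AB) ∈ Ideal.span (Set.range (dets r M)) := by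
  obtain ⟨A, B⟩ := AB
  set A₂ := A.map (act v) + A * P with hA
  set B₂ := B.map (act v) + Q * B with hB
  have h1 : (A * M * B).map (act v) = A₂ * M * B + A * M * B₂ := by
    rw [act_matrix_mul, act_matrix_mul, h, hA, hB]
    simp only [Matrix.mul_add, Matrix.add_mul, Matrix.mul_assoc]
    abel
  show act v (A * M * B).det ∈ _
  have h2 : act v (A * M * B).det = ((A * M * B).adjugate * (A * M * B).map (act v)).trace := by
    rw [act_det, ← sum_updateCol]
    rfl
  rw [h2, h1, Matrix.mul_add, Matrix.trace_add, ← sum_updateRow, ← sum_updateCol]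
  refine Ideal.add_mem _ (Ideal.sum_mem _ fun i _ => ?_) (Ideal.sum_mem _ fun i _ => ?_)
  · have h3 : (A * M * B).updateRow i ((A₂ * M * B) i) = A.updateRow i (A₂ i) * M * B := by
      ext a b : 2
      by_cases ha : a = i
      · subst ha
        rw [Matrix.updateRow_self]
        simp only [Matrix.mul_apply, Matrix.updateRow_self]
      · rw [Matrix.updateRow_ne ha]
        simp only [Matrix.mul_apply, Matrix.updateRow_ne ha]
    rw [h3]
    exact Ideal.subset_span ⟨(A.updateRow i (A₂ i), B), rfl⟩
  · have h3 : ((A * M * B).updateCol i fun k => (A * M * B₂) k i) =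
        A * M * B.updateCol i (fun k => B₂ k i) := by
      ext a b : 2
      by_cases hb : b = i
      · subst hb
        rw [Matrix.updateCol_self]
        simp only [Matrix.mul_apply, Matrix.updateCol_self]
      · rw [Matrix.updateCol_ne hb]
        simp only [Matrix.mul_apply, Matrix.updateCol_ne hb]
    rw [h3]
    exact Ideal.subset_span ⟨(A, B.updateCol i (fun k => B₂ k i)), rfl⟩

end ideal

section rank

variable {K : Type*} [Field K] {m n : Type*} [Fintype m] [Fintype n]

theorem exists_det_of_rank [DecidableEq m] [DecidableEq n] {r : ℕ} (N : Matrix m n K)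
    (h : r ≤ N.rank) :
    ∃ (A : Matrix (Fin r) m K) (B : Matrix n (Fin r) K), (A * N * B).det ≠ 0 := by
  classical
  -- `r` independent vectors in the range
  let b := Module.finBasis K (LinearMap.range N.mulVecLin)
  have hb : Module.finrank K (LinearMap.range N.mulVecLin) = N.rank := rfl
  have hr : r ≤ Module.finrank K (LinearMap.range N.mulVecLin) := by rw [hb]; exact h
  let u : Fin r → (m → K) := fun i => (b (Fin.castLE hr i)).1
  have hu : LinearIndependent K u := by
    have h1 : LinearIndependent K (fun i => b (Fin.castLE hr i)) :=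
      b.linearIndependent.comp _ (Fin.castLE_injective hr)
    exact h1.map' (LinearMap.range N.mulVecLin).subtype (Submodule.ker_subtype _)
  have hx : ∀ i, ∃ x : n → K, N *ᵥ x = u i := by
    intro i
    exact (b (Fin.castLE hr i)).2
  choose x hx using hx
  let B : Matrix n (Fin r) K := Matrix.of fun j i => x i j
  let L : (Fin r → K) →ₗ[K] (m → K) := (N * B).mulVecLin
  have hL : Function.Injective L := by
    have h1 : LinearIndependent K (fun i => (N * B).col i) := by
      have : (fun i => (N * B).col i) = u := by
        funext i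
        rw [← hx i]
        funext k
        simp only [Matrix.col_apply, Matrix.mul_apply, Matrix.mulVec, dotProduct, B,
          Matrix.of_apply]
      rw [this]
      exact hu
    exact Matrix.mulVec_injective_iff.2 h1
  obtain ⟨g, hg⟩ := L.exists_leftInverse_of_injective (LinearMap.ker_eq_bot.2 hL)
  refine ⟨LinearMap.toMatrix' g, B, ?_⟩
  have h2 : LinearMap.toMatrix' g * (N * B) = 1 := by
    have h3 : N * B = LinearMap.toMatrix' L := by
      show N * B = LinearMap.toMatrix' (N * B).mulVecLin
      rw [← Matrix.toLin'_apply', LinearMap.toMatrix'_toLin']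
    rw [h3, ← LinearMap.toMatrix'_comp, hg, LinearMap.toMatrix'_id]
  rw [Matrix.mul_assoc, h2, Matrix.det_one]
  exact one_ne_zero

theorem rank_of_det {r : ℕ} (N : Matrix m n K) (A : Matrix (Fin r) m K)
    (B : Matrix n (Fin r) K) (h : (A * N * B).det ≠ 0) : r ≤ N.rank := by
  have h1 : (A * N * B).rank = r := by
    rw [Matrix.rank_of_isUnit _ ((Matrix.isUnit_iff_isUnit_det _).2 (IsUnit.mk0 _ h)),
      Fintype.card_fin]
  rw [← h1]
  exact (Matrix.rank_mul_le_left _ _).trans (Matrix.rank_mul_le_right _ _)

end rank

end Pool.Agent.H800R3.VF
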