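import Pool.Agent.H800R3.VF2

/-!
# Polynomials annihilated by differential operators: jets at a point
-/

set_option autoImplicit false

namespace Pool.Agent.H800R3.VF

open MvPolynomial

variable {F : Type*} [Field F] {σ : Type*}

/-- iterated partial derivatives -/
noncomputable def dl (l : List σ) (f : MvPolynomial σ F) : MvPolynomial σ F :=
  l.foldr (fun i g => pderiv i g) f

theorem dl_cons (i : σ) (l : List σ) (f : MvPolynomial σ F) :
    dl (i :: l) f = pderiv i (dl l f) := rfl

theorem dl_append (l l' : List σ) (f : MvPolynomial σ F) : dl (l ++ l') f = dl l (dl l' f) := by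
  simp [dl, List.foldr_append]

theorem dl_perm {l l' : List σ} (h : l.Perm l') (f : MvPolynomial σ F) : dl l f = dl l' f := by
  induction h with
  | nil => rfl
  | cons i _ ih => rw [dl_cons, dl_cons, ih]
  | swap i j l => rw [dl_cons, dl_cons, dl_cons, dl_cons, pderiv_comm]
  | trans _ _ h1 h2 => rw [h1, h2]

theorem dl_add (l : List σ) (f g : MvPolynomial σ F) : dl l (f + g) = dl l f + dl l g := by
  induction l with
  | nil => rfl
  | cons i l ih => rw [dl_cons, dl_cons, dl_cons, ih, map_add]

theorem dl_zero (l : List σ) : dl l (0 : MvPolynomial σ F) = 0 := by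
  induction l with
  | nil => rfl
  | cons i l ih => rw [dl_cons, ih, map_zero]

theorem dl_sum {ι : Type*} (l : List σ) (s : Finset ι) (f : ι → MvPolynomial σ F) :
    dl l (∑ k ∈ s, f k) = ∑ k ∈ s, dl l (f k) := by
  classical
  induction s using Finset.induction_on with
  | empty => rw [Finset.sum_empty, Finset.sum_empty, dl_zero]
  | insert a s ha ih => rw [Finset.sum_insert ha, Finset.sum_insert ha, dl_add, ih]

/-- the ideal generated by the derivatives of `f` of order at most `k` -/
noncomputable def lower (f : MvPolynomial σ F) (k : ℕ) : Ideal (MvPolynomial σ F) :=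
  Ideal.span {h | ∃ l : List σ, l.length ≤ k ∧ h = dl l f}

theorem lower_mono (f : MvPolynomial σ F) {k k' : ℕ} (h : k ≤ k') : lower f k ≤ lower f k' := by
  refine Ideal.span_mono ?_
  rintro _ ⟨l, hl, rfl⟩
  exact ⟨l, hl.trans h, rfl⟩

theorem dl_mem_lower (f : MvPolynomial σ F) {k : ℕ} {l : List σ} (h : l.length ≤ k) :
    dl l f ∈ lower f k := Ideal.subset_span ⟨l, h, rfl⟩

theorem pderiv_mem_lower (f : MvPolynomial σ F) (k : ℕ) (i : σ) {h : MvPolynomial σ F}
    (hh : h ∈ lower f k) : pderiv i h ∈ lower f (k + 1) := by
  unfold lower at hh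
  induction hh using Submodule.span_induction with
  | mem x hx =>
    obtain ⟨l, hl, rfl⟩ := hx
    exact dl_mem_lower f (l := i :: l) (by simpa using hl)
  | zero => rw [map_zero]; exact Ideal.zero_mem _
  | add x y _ _ hx hy => rw [map_add]; exact Ideal.add_mem _ hx hy
  | smul c x hx' hx =>
    rw [smul_eq_mul, pderiv_mul]
    exact Ideal.add_mem _ (Ideal.mul_mem_left _ _ (lower_mono f (Nat.le_succ k) hx'))
      (Ideal.mul_mem_left _ _ hx)

theorem dl_lower (f : MvPolynomial σ F) (k : ℕ) (μ : List σ) {h : MvPolynomial σ F}
    (hh : h ∈ lower f k) : dl μ h ∈ lower f (k + μ.length) := by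
  induction μ with
  | nil => exact hh
  | cons i μ ih =>
    rw [dl_cons, List.length_cons, ← Nat.add_assoc]
    exact pderiv_mem_lower f _ i ih

theorem dl_mul_mem (f a : MvPolynomial σ F) (μ l : List σ) (r : ℕ) (hl : l.length = r + 1) :
    dl μ (a * dl l f) - a * dl (μ ++ l) f ∈ lower f (μ.length + r) := by
  induction μ with
  | nil =>
    have : dl [] (a * dl l f) - a * dl ([] ++ l) f = 0 := by
      simp [dl]
    rw [this]
    exact Ideal.zero_mem _
  | cons i μ ih =>
    have h1 : dl (i :: μ) (a * dl l f) - a * dl (i :: μ ++ l) f =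
        pderiv i (dl μ (a * dl l f) - a * dl (μ ++ l) f) + pderiv i a * dl (μ ++ l) f := by
      rw [List.cons_append, dl_cons, dl_cons, map_sub, pderiv_mul]
      ring
    rw [h1]
    refine Ideal.add_mem _ ?_ (Ideal.mul_mem_left _ _ (dl_mem_lower f ?_))
    · have := pderiv_mem_lower f _ i ih
      rw [List.length_cons]
      convert this using 2
      ring
    · rw [List.length_append, hl, List.length_cons]
      omega

theorem eval_lower (f : MvPolynomial σ F) (p : σ → F) (k : ℕ)
    (h : ∀ l : List σ, l.length ≤ k → eval p (dl l f) = 0) : ∀ g ∈ lower f k, eval p g = 0 := by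
  intro g hg
  unfold lower at hg
  induction hg using Submodule.span_induction with
  | mem x hx => obtain ⟨l, hl, rfl⟩ := hx; exact h l hl
  | zero => rw [map_zero]
  | add x y _ _ hx hy => rw [map_add, hx, hy, add_zero]
  | smul c x _ hx => rw [smul_eq_mul, map_mul, hx, mul_zero]

/-- the monomial of a word -/
noncomputable def word (F : Type*) [Field F] {σ : Type*} (l : List σ) : MvPolynomial σ F :=
  (l.map X).prod

theorem word_cons (i : σ) (l : List σ) : word F (i :: l) = X i * word F l := by
  simp [word]

theorem word_append (l l' : List σ) : word F (l ++ l') = word F l * word F l' := by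
  simp [word]

theorem word_eq [DecidableEq σ] (l : List σ) :
    word F l = monomial (Multiset.toFinsupp (l : Multiset σ)) 1 := by
  induction l with
  | nil => simp [word]
  | cons i l ih =>
    rw [word_cons, ih, X, monomial_mul, one_mul]
    congr 1
    rw [← Multiset.cons_coe, ← Multiset.singleton_add, map_add, Multiset.toFinsupp_singleton]

/-- the functional of derivatives at `p` -/
noncomputable def Lam (f : MvPolynomial σ F) (p : σ → F) : MvPolynomial σ F →ₗ[F] F :=
  (basisMonomials σ F).constr F fun m => eval p (dl (Finsupp.toMultiset m).toList f)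

theorem Lam_word [DecidableEq σ] (f : MvPolynomial σ F) (p : σ → F) (l : List σ) :
    Lam f p (word F l) = eval p (dl l f) := by
  rw [word_eq]
  have h1 : (monomial (Multiset.toFinsupp (l : Multiset σ)) (1 : F)) =
      basisMonomials σ F (Multiset.toFinsupp (l : Multiset σ)) := rfl
  rw [h1, Lam, Module.Basis.constr_basis, Multiset.toFinsupp_toMultiset]
  congr 1
  apply dl_perm
  rw [← Multiset.coe_eq_coe, Multiset.coe_toList]

/-- A homogeneous differential operator of order `r + 1` with polynomial coefficients. -/
structure DiffOp (F σ : Type*) [Field F] where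
  /-- the order is `r + 1` -/
  r : ℕ
  /-- the coefficient of the derivative along `w` -/
  a : (Fin (r + 1) → σ) → MvPolynomial σ F

variable [Fintype σ]

/-- the operator applied to `f` -/
noncomputable def DiffOp.apply (L : DiffOp F σ) (f : MvPolynomial σ F) : MvPolynomial σ F :=
  ∑ w, L.a w * dl (List.ofFn w) f

/-- the symbol at `p` -/
noncomputable def DiffOp.symbol (L : DiffOp F σ) (p : σ → F) : MvPolynomial σ F :=
  ∑ w, C (eval p (L.a w)) * word F (List.ofFn w)

theorem key [DecidableEq σ] (f : MvPolynomial σ F) (p : σ → F) (L : DiffOp F σ)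
    (hL : L.apply f ∈ lower f L.r) (μ : List σ)
    (h : ∀ l : List σ, l.length ≤ μ.length + L.r → eval p (dl l f) = 0) :
    Lam f p (word F μ * L.symbol p) = 0 := by
  have h1 : word F μ * L.symbol p =
      ∑ w, (eval p (L.a w)) • word F (μ ++ List.ofFn w) := by
    rw [DiffOp.symbol, Finset.mul_sum]
    refine Finset.sum_congr rfl fun w _ => ?_
    rw [word_append, smul_eq_C_mul]
    ring
  rw [h1, map_sum]
  have h2 : ∑ w, Lam f p ((eval p (L.a w)) • word F (μ ++ List.ofFn w)) =
      eval p (∑ w, L.a w * dl (μ ++ List.ofFn w) f) := by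
    rw [map_sum]
    refine Finset.sum_congr rfl fun w _ => ?_
    rw [map_smul, Lam_word, map_mul, smul_eq_mul]
  rw [h2]
  have h3 : ∑ w, L.a w * dl (μ ++ List.ofFn w) f = dl μ (L.apply f) -
      ∑ w, (dl μ (L.a w * dl (List.ofFn w) f) - L.a w * dl (μ ++ List.ofFn w) f) := by
    rw [Finset.sum_sub_distrib, DiffOp.apply, dl_sum]
    ring
  rw [h3]
  refine eval_lower f p _ h _ (Ideal.sub_mem _ ?_ (Ideal.sum_mem _ fun w _ => ?_))
  · rw [Nat.add_comm]
    exact dl_lower f _ μ hL
  · exact dl_mul_mem f _ μ _ _ (List.length_ofFn)

theorem Jn_le_lower (f : MvPolynomial σ F) (n : ℕ) :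
    Jn (Ideal.span {f}) n ≤ lower f n := by
  induction n with
  | zero =>
    show Ideal.span {f} ≤ _
    rw [Ideal.span_le]
    intro g hg
    have hg' : g = f := hg
    have h0 : dl [] f ∈ lower f 0 := dl_mem_lower f (by simp)
    rw [hg']
    exact h0
  | succ n ih =>
    refine sup_le (ih.trans (lower_mono f (Nat.le_succ n))) ?_
    rw [Ideal.span_le]
    rintro _ ⟨i, g, hg, rfl⟩
    exact pderiv_mem_lower f n i (ih hg)

/-- **Jets.** -/
theorem jets [DecidableEq σ] [CharZero F] (f : MvPolynomial σ F) (p : σ → F)
    (V : Set (DiffOp F σ)) (hV : ∀ L ∈ V, L.apply f ∈ lower f L.r) (N : ℕ)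
    (hN : ∀ l : List σ, l.length = N → word F l ∈ Submodule.span F
      {q | ∃ L ∈ V, ∃ μ : List σ, μ.length + (L.r + 1) = N ∧ q = word F μ * L.symbol p})
    (h : ∀ l : List σ, l.length < N → eval p (dl l f) = 0) : f = 0 := by
  have main : ∀ n, ∀ l : List σ, l.length ≤ n → eval p (dl l f) = 0 := by
    intro n
    induction n with
    | zero =>
      intro l hl
      rcases Nat.lt_or_ge l.length N with h1 | h1
      · exact h l h1
      · exfalso
        have h2 : N = 0 := by omega
        have h3 := hN [] (by rw [h2]; rfl)
        have h4 : {q | ∃ L ∈ V, ∃ μ : List σ, μ.length + (L.r + 1) = N ∧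
            q = word F μ * L.symbol p} = (∅ : Set (MvPolynomial σ F)) := by
          ext q
          simp only [Set.mem_ofPred_eq, Set.mem_empty_iff_false, iff_false]
          rintro ⟨L, _, μ, h5, _⟩
          omega
        rw [h4, Submodule.span_empty, Submodule.mem_bot] at h3
        simp [word] at h3
    | succ n ih =>
      intro l hl
      rcases Nat.lt_or_ge l.length N with h1 | h1
      · exact h l h1
      · rcases Nat.lt_or_ge l.length (n + 1) with h2 | h2
        · exact ih l (by omega)
        · have hlen : l.length = n + 1 := by omega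
          have hsplit : l = l.take (n + 1 - N) ++ l.drop (n + 1 - N) :=
            (List.take_append_drop _ _).symm
          have hdrop : (l.drop (n + 1 - N)).length = N := by
            rw [List.length_drop]; omega
          have htake : (l.take (n + 1 - N)).length = n + 1 - N := by
            rw [List.length_take]; omega
          rw [← Lam_word, hsplit, word_append]
          have h3 := hN _ hdrop
          generalize l.take (n + 1 - N) = ν at htake ⊢
          generalize word F (l.drop (n + 1 - N)) = q at h3 ⊢
          induction h3 using Submodule.span_induction with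
          | mem x hx =>
            obtain ⟨L, hL, μ, hμ, rfl⟩ := hx
            rw [← mul_assoc, ← word_append]
            refine key f p L (hV L hL) (ν ++ μ) fun l hl => ih l ?_
            rw [List.length_append] at hl
            omega
          | zero => rw [mul_zero, map_zero]
          | add x y _ _ hx hy => rw [mul_add, map_add, hx, hy, add_zero]
          | smul c x _ hx => rw [mul_smul_comm, map_smul, hx, smul_zero]
  refine Jn_zero (Ideal.span {f}) p (fun n g hg => ?_) f (Ideal.subset_span rfl)
  exact eval_lower f p n (main n) g (Jn_le_lower f n hg)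

omit [Fintype σ] in
theorem pderiv_restrict [DecidableEq σ] (p : σ → F) (S : Finset σ) (i : σ) (hi : i ∈ S)
    (f : MvPolynomial σ F) : pderiv i (restrict p S f) = restrict p S (pderiv i f) := by
  induction f using MvPolynomial.induction_on with
  | C a => simp [restrict, algebraMap_eq]
  | add f g hf hg => rw [map_add, map_add, hf, hg, map_add, map_add]
  | mul_X f j hf =>
    rw [map_mul, pderiv_mul, hf, pderiv_mul, map_add, map_mul, map_mul]
    congr 2
    by_cases hj : j ∈ S
    · have h1 : restrict p S (X j) = X j := by simp [restrict, hj]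
      rw [h1, pderiv_X]
      by_cases hij : i = j
      · subst hij; simp
      · rw [Pi.single_eq_of_ne (Ne.symm hij), map_zero]
    · have h1 : restrict p S (X j) = C (p j) := by simp [restrict, hj]
      have hij : i ≠ j := fun h => hj (h ▸ hi)
      rw [h1, pderiv_C, pderiv_X, Pi.single_eq_of_ne (Ne.symm hij), map_zero]

omit [Fintype σ] in
theorem dl_restrict [DecidableEq σ] (p : σ → F) (S : Finset σ) (l : List σ)
    (hl : ∀ i ∈ l, i ∈ S) (f : MvPolynomial σ F) : dl l (restrict p S f) = restrict p S (dl l f) := by
  induction l with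
  | nil => rfl
  | cons i l ih =>
    rw [dl_cons, dl_cons, ih (fun j hj => hl j (List.mem_cons_of_mem _ hj)),
      pderiv_restrict p S i (hl i List.mem_cons_self)]

theorem small_subspaces [DecidableEq σ] [CharZero F] (f : MvPolynomial σ F) (p : σ → F) (N : ℕ)
    (h : ∀ S : Finset σ, S.card < N → ∀ y : σ → F, eval (glue p S y) f = 0) :
    ∀ l : List σ, l.length < N → eval p (dl l f) = 0 := by
  intro l hl
  have h1 : restrict p l.toFinset f = 0 := by
    apply MvPolynomial.funext
    intro y
    rw [eval_restrict, map_zero]
    exact h _ (lt_of_le_of_lt (List.toFinset_card_le l) hl) y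
  have h2 := dl_restrict p l.toFinset l (fun i hi => List.mem_toFinset.2 hi) f
  rw [h1, dl_zero] at h2
  have h3 := eval_restrict p l.toFinset p (dl l f)
  rw [← h2, map_zero] at h3
  have h4 : glue p l.toFinset p = p := by
    funext i
    simp [glue]
  rw [h4] at h3
  exact h3.symm

end Pool.Agent.H800R3.VF
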