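import Pool.Agent.H800R3.VF4

/-!
# Homogeneous components of the symbol ideal
-/

set_option autoImplicit false

namespace Pool.Agent.H800R3.VF

open MvPolynomial

variable {F : Type*} [Field F] {σ : Type*}

theorem word_isHomogeneous (l : List σ) : (word F l).IsHomogeneous l.length := by
  induction l with
  | nil => simpa [word] using isHomogeneous_one σ F
  | cons i l ih =>
    rw [word_cons, List.length_cons, Nat.add_comm]
    exact (isHomogeneous_X F i).mul ih

variable [Fintype σ]

theorem symbol_isHomogeneous (L : DiffOp F σ) (p : σ → F) :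
    (L.symbol p).IsHomogeneous (L.r + 1) := by
  refine IsHomogeneous.sum _ _ _ fun w _ => ?_
  have h1 := (isHomogeneous_C σ (eval p (L.a w))).mul (word_isHomogeneous (F := F) (List.ofFn w))
  rw [List.length_ofFn, Nat.zero_add] at h1
  exact h1

omit [Fintype σ] in
theorem mem_span_word [DecidableEq σ] (q : MvPolynomial σ F) (n : ℕ) (hq : q.IsHomogeneous n) :
    q ∈ Submodule.span F {w | ∃ μ : List σ, μ.length = n ∧ w = word F μ} := by
  rw [q.as_sum]
  refine Submodule.sum_mem _ fun m hm => ?_
  have h1 : monomial m (coeff m q) = coeff m q • word F (Finsupp.toMultiset m).toList := by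
    rw [word_eq, Multiset.coe_toList, Finsupp.toMultiset_toFinsupp, smul_monomial, smul_eq_mul,
      mul_one]
  rw [h1]
  refine Submodule.smul_mem _ _ (Submodule.subset_span ⟨_, ?_, rfl⟩)
  rw [Multiset.length_toList, Finsupp.card_toMultiset]
  have h2 := hq (mem_support_iff.1 hm)
  rw [Finsupp.weight_apply] at h2
  have h3 : (m.sum fun _ c => c • (1 : ℕ)) = m.sum fun _ c => c := by simp
  exact h3.symm.trans h2

theorem homogeneous_span [DecidableEq σ] (V : Set (DiffOp F σ)) (p : σ → F) (N : ℕ)
    (l : List σ) (hl : l.length = N)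
    (h : word F l ∈ Ideal.span {q | ∃ L ∈ V, q = L.symbol p}) :
    word F l ∈ Submodule.span F
      {q | ∃ L ∈ V, ∃ μ : List σ, μ.length + (L.r + 1) = N ∧ q = word F μ * L.symbol p} := by
  have key : ∀ g ∈ Ideal.span {q | ∃ L ∈ V, q = L.symbol p},
      homogeneousComponent N g ∈ Submodule.span F
        {q | ∃ L ∈ V, ∃ μ : List σ, μ.length + (L.r + 1) = N ∧ q = word F μ * L.symbol p} := by
    intro g hg
    rw [Ideal.span, Submodule.mem_span_set'] at hg
    obtain ⟨n, c, s, rfl⟩ := hg
    rw [map_sum]
    refine Submodule.sum_mem _ fun i _ => ?_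
    obtain ⟨L, hL, hs⟩ := (s i).2
    rw [smul_eq_mul, hs, ← sum_homogeneousComponent (c i), Finset.sum_mul, map_sum]
    refine Submodule.sum_mem _ fun k _ => ?_
    have h2 : (homogeneousComponent k (c i) * L.symbol p).IsHomogeneous (k + (L.r + 1)) :=
      (homogeneousComponent_isHomogeneous k _).mul (symbol_isHomogeneous L p)
    rw [homogeneousComponent_of_mem ((mem_homogeneousSubmodule _ _).2 h2)]
    split_ifs with h3
    · have h4 := mem_span_word (homogeneousComponent k (c i)) k
        (homogeneousComponent_isHomogeneous _ _)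
      generalize homogeneousComponent k (c i) = x at h4 ⊢
      clear h2
      induction h4 using Submodule.span_induction with
      | mem x hx =>
        obtain ⟨μ, hμ, rfl⟩ := hx
        exact Submodule.subset_span ⟨L, hL, μ, by omega, rfl⟩
      | zero => rw [zero_mul]; exact Submodule.zero_mem _
      | add x y _ _ hx hy => rw [add_mul]; exact Submodule.add_mem _ hx hy
      | smul a x _ hx => rw [smul_mul_assoc]; exact Submodule.smul_mem _ _ hx
    · exact Submodule.zero_mem _
  have h1 := key _ h
  rw [homogeneousComponent_of_mem ((mem_homogeneousSubmodule _ _).2 (hl ▸ word_isHomogeneous l)),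
    if_pos rfl] at h1
  exact h1

end Pool.Agent.H800R3.VF
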