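import Pool.Agent.H800R3.VF5

/-!
# Noncharacteristic coordinate subspaces
-/

set_option autoImplicit false

namespace Pool.Agent.H800R3.VF

open MvPolynomial

variable {F : Type*} [Field F] {σ : Type*} [Fintype σ] [DecidableEq σ]

/-- multiples of degree `N` of symbols and variables -/
abbrev Idx (V : Set (DiffOp F σ)) (J : Finset σ) (N : ℕ) : Type _ :=
  {q : DiffOp F σ × List σ // q.1 ∈ V ∧ q.2.length + (q.1.r + 1) = N} ⊕
    {q : σ × List σ // q.1 ∈ J ∧ q.2.length + 1 = N}

/-- multiples of degree `N` of symbols and variables -/
noncomputable def U (V : Set (DiffOp F σ)) (J : Finset σ) (N : ℕ) (y : σ → F) :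
    Idx V J N → MvPolynomial σ F :=
  Sum.elim (fun k => word F k.1.2 * k.1.1.symbol y) fun k => word F (k.1.1 :: k.1.2)

/-- values of a functional on the multiples, as polynomials in the point -/
noncomputable def E (V : Set (DiffOp F σ)) (J : Finset σ) (N : ℕ)
    (φ : MvPolynomial σ F →ₗ[F] F) : Idx V J N → MvPolynomial σ F :=
  Sum.elim (fun k => ∑ w, k.1.1.a w * C (φ (word F (k.1.2 ++ List.ofFn w))))
    fun k => C (φ (word F (k.1.1 :: k.1.2)))

omit [DecidableEq σ] in
theorem word_mul_symbol (L : DiffOp F σ) (μ : List σ) (y : σ → F) :
    word F μ * L.symbol y = ∑ w, (eval y (L.a w)) • word F (μ ++ List.ofFn w) := by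
  rw [DiffOp.symbol, Finset.mul_sum]
  refine Finset.sum_congr rfl fun w _ => ?_
  rw [word_append, smul_eq_C_mul]
  ring

omit [DecidableEq σ] in
theorem eval_E (V : Set (DiffOp F σ)) (J : Finset σ) (N : ℕ)
    (φ : MvPolynomial σ F →ₗ[F] F) (y : σ → F) (k : Idx V J N) :
    eval y (E V J N φ k) = φ (U V J N y k) := by
  rcases k with k | k
  · simp only [E, U, Sum.elim_inl]
    rw [word_mul_symbol, map_sum, map_sum]
    refine Finset.sum_congr rfl fun w _ => ?_
    rw [map_mul, eval_C, map_smul, smul_eq_mul]
  · simp only [E, U, Sum.elim_inr, eval_C]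

omit [Fintype σ] [DecidableEq σ] in
theorem exists_ofFn {N : ℕ} (l : List σ) (hl : l.length = N) :
    ∃ v : Fin N → σ, List.ofFn v = l := by
  subst hl
  exact ⟨l.get, List.ofFn_get l⟩

omit [DecidableEq σ] in
theorem good (V : Set (DiffOp F σ)) (J : Finset σ) (N : ℕ) (p : σ → F)
    (hN : ∀ l : List σ, l.length = N → word F l ∈ Submodule.span F (Set.range (U V J N p))) :
    ∃ δ : MvPolynomial σ F, eval p δ ≠ 0 ∧ ∀ y, eval y δ ≠ 0 →
      ∀ l : List σ, l.length = N → word F l ∈ Submodule.span F (Set.range (U V J N y)) := by
  classical
  let W : Submodule F (MvPolynomial σ F) :=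
    Submodule.span F (Set.range fun v : Fin N → σ => word F (List.ofFn v))
  have hW : ∀ l : List σ, l.length = N → word F l ∈ W := by
    intro l hl
    obtain ⟨v, rfl⟩ := exists_ofFn l hl
    exact Submodule.subset_span ⟨v, rfl⟩
  have hUW : ∀ y k, U V J N y k ∈ W := by
    intro y k
    rcases k with k | k
    · simp only [U, Sum.elim_inl]
      rw [word_mul_symbol]
      refine Submodule.sum_mem _ fun w _ => Submodule.smul_mem _ _ (hW _ ?_)
      rw [List.length_append, List.length_ofFn]
      exact k.2.2
    · simp only [U, Sum.elim_inr]
      exact hW _ (by rw [List.length_cons]; exact k.2.2)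
  have : FiniteDimensional F W := FiniteDimensional.span_of_finite F (Set.finite_range _)
  let b := Module.finBasis F W
  obtain ⟨π, hπ⟩ := W.subtype.exists_leftInverse_of_injective (Submodule.ker_subtype _)
  have hπ' : ∀ w : W, π w.1 = w := fun w => LinearMap.congr_fun hπ w
  let φ : Fin (Module.finrank F W) → MvPolynomial σ F →ₗ[F] F := fun i => (b.coord i) ∘ₗ π
  let Φ : MvPolynomial σ F →ₗ[F] (Fin (Module.finrank F W) → F) := LinearMap.pi φ
  have hΦ : ∀ w ∈ W, Φ w = 0 → w = 0 := by
    intro w hw h0
    have h1 : (⟨w, hw⟩ : W) = 0 := by
      apply b.ext_elem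
      intro i
      have h2 : b.coord i (π w) = 0 := congrFun h0 i
      rw [hπ' ⟨w, hw⟩] at h2
      rw [map_zero]
      exact h2
    exact congrArg Subtype.val h1
  have hΦs : ∀ c : Fin (Module.finrank F W) → F, ∃ w ∈ W, Φ w = c := by
    intro c
    refine ⟨(∑ i, c i • b i : W), (∑ i, c i • b i : W).2, ?_⟩
    funext i
    show b.coord i (π (∑ i, c i • b i : W)) = c i
    rw [hπ']
    simp [Module.Basis.coord_apply, Finsupp.single_apply]
  have hspan : Submodule.span F (Set.range fun k => fun j => Φ (U V J N p k) j) = ⊤ := by
    rw [eq_top_iff]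
    intro c _
    obtain ⟨w, hw, rfl⟩ := hΦs c
    have h1 : w ∈ Submodule.span F (Set.range (U V J N p)) := by
      refine (Submodule.span_le.2 ?_ : W ≤ _) hw
      rintro _ ⟨v, rfl⟩
      exact hN _ List.length_ofFn
    have h2 := Submodule.mem_map_of_mem (f := Φ) h1
    rw [Submodule.map_span, ← Set.range_comp] at h2
    exact h2
  obtain ⟨b', hb'⟩ := exists_det_ne_zero _ hspan
  let δ : MvPolynomial σ F := (Matrix.of fun i j => E V J N (φ j) (b' i)).det
  have hδ : ∀ y, eval y δ = (Matrix.of fun i j => Φ (U V J N y (b' i)) j).det := by
    intro y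
    show eval y (Matrix.det _) = _
    rw [RingHom.map_det]
    congr 1
    refine Matrix.ext fun i j => ?_
    exact eval_E V J N (φ j) y (b' i)
  refine ⟨δ, by rw [hδ]; exact hb', fun y hy l hl => ?_⟩
  rw [hδ] at hy
  have h1 : LinearIndependent F (fun i => Φ (U V J N y (b' i))) := by
    have h2 : IsUnit (Matrix.of fun i j => Φ (U V J N y (b' i)) j) :=
      (Matrix.isUnit_iff_isUnit_det _).2 (IsUnit.mk0 _ hy)
    exact Matrix.linearIndependent_rows_iff_isUnit.2 h2
  have h2 : Submodule.span F (Set.range fun i => Φ (U V J N y (b' i))) = ⊤ := by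
    apply h1.span_eq_top_of_card_eq_finrank'
    rw [Fintype.card_fin, Module.finrank_fin_fun]
  have h3 : Φ (word F l) ∈ Submodule.span F (Set.range fun i => Φ (U V J N y (b' i))) := by
    rw [h2]; exact Submodule.mem_top
  have h4 : (fun i => Φ (U V J N y (b' i))) = Φ ∘ (U V J N y ∘ b') := rfl
  rw [h4, Set.range_comp, ← Submodule.map_span] at h3
  obtain ⟨z, hz, hze⟩ := h3
  have hz1 : z ∈ Submodule.span F (Set.range (U V J N y)) :=
    Submodule.span_mono (Set.range_comp_subset_range _ _) hz
  have hz2 : z ∈ W := by
    refine (Submodule.span_le.2 ?_ : Submodule.span F (Set.range (U V J N y)) ≤ W) hz1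
    rintro _ ⟨k, rfl⟩
    exact hUW y k
  have h5 : word F l - z = 0 := by
    apply hΦ _ (W.sub_mem (hW l hl) hz2)
    rw [map_sub, hze, sub_self]
  rw [sub_eq_zero.1 h5]
  exact hz1

/-- **Uniqueness for noncharacteristic coordinate subspaces.** -/
theorem noncharacteristic [CharZero F] (f : MvPolynomial σ F) (p : σ → F)
    (V : Set (DiffOp F σ)) (hV : ∀ L ∈ V, L.apply f ∈ lower f L.r) (J : Finset σ) (N : ℕ)
    (hN : ∀ l : List σ, l.length = N → word F l ∈ Submodule.span F (Set.range (U V J N p)))
    (h : ∀ l : List σ, l.length < N → ∀ y : σ → F, (∀ i, i ∉ J → y i = p i) →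
      eval y (dl l f) = 0) : f = 0 := by
  have hN0 : N ≠ 0 := by
    intro h2
    have h3 := hN [] (by rw [h2]; rfl)
    have h4 : Set.range (U V J N p) = (∅ : Set (MvPolynomial σ F)) := by
      rw [Set.range_eq_empty_iff]
      constructor
      rintro (k | k)
      · have := k.2.2; omega
      · have := k.2.2; omega
    rw [h4, Submodule.span_empty, Submodule.mem_bot] at h3
    simp [word] at h3
  obtain ⟨δ, hδp, hδ⟩ := good V J N p hN
  have main : ∀ n, ∀ y : σ → F, (∀ i, i ∉ J → y i = p i) → eval y δ ≠ 0 →
      ∀ l : List σ, l.length ≤ n → eval y (dl l f) = 0 := by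
    intro n
    induction n with
    | zero =>
      intro y hy _ l hl
      exact h l (by omega) y hy
    | succ n ih =>
      intro y hy hd l hl
      rcases Nat.lt_or_ge l.length N with h1 | h1
      · exact h l h1 y hy
      · rcases Nat.lt_or_ge l.length (n + 1) with h2 | h2
        · exact ih y hy hd l (by omega)
        · have hlen : l.length = n + 1 := by omega
          have hsplit : l = l.take (n + 1 - N) ++ l.drop (n + 1 - N) :=
            (List.take_append_drop _ _).symm
          have hdrop : (l.drop (n + 1 - N)).length = N := by
            rw [List.length_drop]; omega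
          have htake : (l.take (n + 1 - N)).length = n + 1 - N := by
            rw [List.length_take]; omega
          rw [← Lam_word, hsplit, word_append]
          have h3 := hδ y hd _ hdrop
          generalize l.take (n + 1 - N) = ν at htake ⊢
          generalize word F (l.drop (n + 1 - N)) = q at h3 ⊢
          induction h3 using Submodule.span_induction with
          | mem x hx =>
            obtain ⟨k, rfl⟩ := hx
            rcases k with k | k
            · obtain ⟨⟨L, μ⟩, hL, hμ⟩ := k
              simp only [U, Sum.elim_inl]
              simp only at hL hμ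
              rw [← mul_assoc, ← word_append]
              refine key f y L (hV L hL) (ν ++ μ) fun l hl => ih y hy hd l ?_
              rw [List.length_append] at hl
              omega
            · obtain ⟨⟨j, μ⟩, hj, hμ⟩ := k
              simp only [U, Sum.elim_inr]
              simp only at hj hμ
              rw [← word_append, Lam_word, dl_perm (List.perm_middle (a := j)), dl_cons]
              set g := dl (ν ++ μ) f with hg
              have hgz : ∀ z : σ → F, (∀ i, i ∉ J → z i = p i) → eval z δ ≠ 0 →
                  eval z g = 0 := by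
                intro z hz hdz
                refine ih z hz hdz _ ?_
                rw [List.length_append]
                omega
              have hz : ln y (Pi.single j 1) g = 0 := by
                have h2 : ln y (Pi.single j 1) g * ln y (Pi.single j 1) δ = 0 := by
                  apply Polynomial.funext
                  intro t
                  rw [Polynomial.eval_mul, eval_ln, eval_ln, Polynomial.eval_zero]
                  by_cases h3 : eval (y + t • Pi.single j 1) δ = 0
                  · rw [h3, mul_zero]
                  · rw [hgz _ _ h3, zero_mul]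
                    intro i hi
                    have : i ≠ j := fun h => hi (h ▸ hj)
                    rw [Pi.add_apply, hy i hi, Pi.smul_apply, Pi.single_eq_of_ne this, smul_zero,
                      add_zero]
                rcases mul_eq_zero.1 h2 with h3 | h3
                · exact h3
                · exfalso
                  apply hd
                  have h4 := eval_ln y (Pi.single j 1) 0 δ
                  rw [h3, Polynomial.eval_zero, zero_smul, add_zero] at h4
                  exact h4.symm
              have h5 := derivative_ln y (Pi.single j 1) g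
              rw [hz, Polynomial.derivative_zero] at h5
              have h6 := congrArg (Polynomial.eval 0) h5
              rw [Polynomial.eval_zero, Polynomial.eval_finsetSum,
                Finset.sum_eq_single j] at h6
              · rw [Polynomial.eval_mul, Polynomial.eval_C, eval_ln, zero_smul, add_zero,
                  Pi.single_eq_same, one_mul] at h6
                exact h6.symm
              · intro i _ hi
                rw [Pi.single_eq_of_ne hi, map_zero, zero_mul, Polynomial.eval_zero]
              · intro h; exact absurd (Finset.mem_univ j) h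
          | zero => rw [mul_zero, map_zero]
          | add x z _ _ hx hz => rw [mul_add, map_add, hx, hz, add_zero]
          | smul c x _ hx => rw [mul_smul_comm, map_smul, hx, smul_zero]
  refine Jn_zero (Ideal.span {f}) p (fun n g hg => ?_) f (Ideal.subset_span rfl)
  exact eval_lower f p n (main n p (fun _ _ => rfl) hδp) g (Jn_le_lower f n hg)

omit [Fintype σ] in
/-- homogeneous components of an ideal generated by homogeneous polynomials -/
theorem component_mem (T : Set (MvPolynomial σ F)) (M : Submodule F (MvPolynomial σ F)) (N : ℕ)
    (hT : ∀ s ∈ T, ∃ d, s.IsHomogeneous d ∧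
      ∀ μ : List σ, μ.length + d = N → word F μ * s ∈ M) :
    ∀ g ∈ Ideal.span T, homogeneousComponent N g ∈ M := by
  intro g hg
  rw [Ideal.span, Submodule.mem_span_set'] at hg
  obtain ⟨n, c, s, rfl⟩ := hg
  rw [map_sum]
  refine Submodule.sum_mem _ fun i _ => ?_
  obtain ⟨d, hd, hM⟩ := hT (s i) (s i).2
  rw [smul_eq_mul, ← sum_homogeneousComponent (c i), Finset.sum_mul, map_sum]
  refine Submodule.sum_mem _ fun k _ => ?_
  have h2 : (homogeneousComponent k (c i) * (s i : MvPolynomial σ F)).IsHomogeneous (k + d) :=
    (homogeneousComponent_isHomogeneous k _).mul hd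
  rw [homogeneousComponent_of_mem ((mem_homogeneousSubmodule _ _).2 h2)]
  split_ifs with h3
  · have h4 := mem_span_word (homogeneousComponent k (c i)) k
      (homogeneousComponent_isHomogeneous _ _)
    generalize homogeneousComponent k (c i) = x at h4 ⊢
    clear h2
    induction h4 using Submodule.span_induction with
    | mem x hx =>
      obtain ⟨μ, hμ, rfl⟩ := hx
      exact hM μ (by omega)
    | zero => rw [zero_mul]; exact Submodule.zero_mem _
    | add x y _ _ hx hy => rw [add_mul]; exact Submodule.add_mem _ hx hy
    | smul a x _ hx => rw [smul_mul_assoc]; exact Submodule.smul_mem _ _ hx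
  · exact Submodule.zero_mem _

end Pool.Agent.H800R3.VF
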